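import Pool.Agent.Lib.H76P.C4

/-!
# C5: the number of points is a perfect power
-/

set_option autoImplicit false
namespace Pool.Agent.H76P

variable {κ : Type*} [Fintype κ] {V : Type*} [AddCommGroup V] [Module ℚ V]

/-- PROOF. `v ∘ q = 0` is impossible for the conjugate of an atom: let `q` be an atom and `a`, `b` with `q (pt a) ≠ q (pt b)` (`cnt_ne_one`).
Choose `c` with `pt c = pt a + q (pt b - pt a)`, then `a ≠ c` and `δ = pt c - pt a = q δ`.  By `gal` there are `σ`, `s` with
`v (s δ) ≠ 0`.  Put `q' = conj s q`, an atom (`Atom.conj`), `q' (s δ) = s (q δ) = s δ`.  So `v (q' (s δ)) ≠ 0`, and as `v ∘ π = v`, `π * q' ≠ 0`;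
by `Atom.le_or` and `Spl.comm`, `q' * π = q'`. -/
theorem atom_conj_le {pt : κ → V} (hs : Spans pt) {π : Module.End ℚ V} (hπ : Spl pt π)
    {v : Module.Dual ℚ V} (hv : ∀ u, v (π u) = v u)
    (gal : ∀ a b, a ≠ b → ∃ σ s, Aff pt σ s ∧ v (s (pt b - pt a)) ≠ 0)
    {q : Module.End ℚ V} (hq : Atom pt q) :
    ∃ q', Atom pt q' ∧ q' * π = q' ∧ cnt pt q' = cnt pt q := by
  obtain ⟨a, b, hab⟩ := cnt_ne_one hs hq.2.1
  obtain ⟨c, hc⟩ := hq.1.2 a b
  have hd : pt c - pt a = q (pt b - pt a) := by rw [hc]; abel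
  have hne : pt c - pt a ≠ 0 := by
    rw [hd, map_sub]
    exact sub_ne_zero.mpr (Ne.symm hab)
  have hac : a ≠ c := by
    rintro rfl
    exact hne (sub_self _)
  obtain ⟨σ, s, hσ, hv0⟩ := gal a c hac
  have hqd : q (pt c - pt a) = pt c - pt a := by
    rw [hd, ← Module.End.mul_apply, hq.1.1]
  have hat : Atom pt (conj s q) := Atom.conj hσ hq
  have h1 : conj s q (s (pt c - pt a)) = s (pt c - pt a) := by
    rw [conj_apply, hqd]
  refine ⟨conj s q, hat, ?_, cnt_conj hσ q⟩
  rcases hat.le_or hs hπ with h | h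
  · exact h
  · exfalso
    apply hv0
    rw [← h1, ← hv, ← Module.End.mul_apply, Spl.comm hs hπ hat.1, h]
    simp

/-- PROOF. Let `s` be the set of all atoms (`atoms_sum`), `k` its number.  `k ≥ 2`: `π ≠ 0` (if `π = 0` then `v = 0`, but
`1 - π ≠ 0`, so there are `a`, `b` with `pt a ≠ pt b` and `gal` gives a contradiction) and `1 - π ≠ 0`, so there are atoms below `π` and below
`1 - π` (`exists_atom`, `Spl.compl`), and they are different.  Case 1: `π` is an atom.  Then the `q'` of `atom_conj_le` is equal to `π`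
(it is an atom below `π`), so all atoms `q` have `cnt pt q = cnt pt π =: a` and `card κ = a ^ k` (`card_prod`).  Case 2: `π` is not an
atom.  Then every atom `q'` below `π` is different from `π`, so `cnt pt q' = 2` by `hcase`, so by `atom_conj_le` all atoms have
`cnt pt q = 2` and `card κ = 2 ^ k`. -/
theorem card_power {pt : κ → V} (hs : Spans pt) (hinj : Function.Injective pt)
    {π : Module.End ℚ V} (hπ : Spl pt π) (hπ1 : π ≠ 1)
    {v : Module.Dual ℚ V} (hv : ∀ u, v (π u) = v u)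
    (gal : ∀ a b, a ≠ b → ∃ σ s, Aff pt σ s ∧ v (s (pt b - pt a)) ≠ 0)
    (hcase : ∀ q, Atom pt q → q * π = q → q = π ∨ cnt pt q = 2) :
    ∃ a k : ℕ, 2 ≤ k ∧ Fintype.card κ = a ^ k := by
  classical
  rcases isEmpty_or_nonempty κ with hE | hN
  · exact ⟨0, 2, le_refl _, by simp⟩
  have hc0 : (1 : Module.End ℚ V) - π ≠ 0 := sub_ne_zero.mpr (Ne.symm hπ1)
  have hπ0 : π ≠ 0 := by
    intro h0
    obtain ⟨a, b, hab⟩ := cnt_ne_one hs hc0
    have hne : a ≠ b := by
      rintro rfl
      exact hab rfl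
    obtain ⟨σ, s, -, h⟩ := gal a b hne
    apply h
    rw [← hv, h0]
    simp
  obtain ⟨S, hS, hsum⟩ := atoms_sum hs
  obtain ⟨q1, hq1, hq1π⟩ := exists_atom hs hπ hπ0
  obtain ⟨q2, hq2, hq2π⟩ := exists_atom hs hπ.compl hc0
  have h12 : q1 ≠ q2 := by
    rintro rfl
    apply hq1.2.1
    have h3 : q1 * π + q1 * (1 - π) = q1 := by
      rw [← mul_add, add_sub_cancel, mul_one]
    rw [hq1π, hq2π] at h3
    simpa using h3
  have hcard : 2 ≤ S.card := by
    have : ({q1, q2} : Finset (Module.End ℚ V)) ⊆ S := by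
      intro x hx
      rw [Finset.mem_insert, Finset.mem_singleton] at hx
      rcases hx with rfl | rfl
      · exact (hS _).2 hq1
      · exact (hS _).2 hq2
    have h4 := Finset.card_le_card this
    rwa [Finset.card_pair h12] at h4
  have hprod := card_prod hs hinj (s := S) (fun q hq => (hS q).1 hq) hsum
  by_cases hA : Atom pt π
  · refine ⟨cnt pt π, S.card, hcard, ?_⟩
    rw [hprod]
    apply Finset.prod_eq_pow_card
    intro q hq
    obtain ⟨q', hq', hle, hcnt⟩ := atom_conj_le hs hπ hv gal ((hS q).1 hq)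
    rcases hA.2.2 q' hq'.1 hle with h | h
    · exact absurd h hq'.2.1
    · rw [← hcnt, h]
  · refine ⟨2, S.card, hcard, ?_⟩
    rw [hprod]
    apply Finset.prod_eq_pow_card
    intro q hq
    obtain ⟨q', hq', hle, hcnt⟩ := atom_conj_le hs hπ hv gal ((hS q).1 hq)
    rcases hcase q' hq' hle with h | h
    · exact absurd (h ▸ hq') hA
    · rw [← hcnt, h]

end Pool.Agent.H76P
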