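import Pool.Agent.Lib.H76P.T1

/-!
# T4: involutions and minimal ideals
-/

set_option autoImplicit false
set_option linter.unusedSectionVars false
namespace Pool.Agent.H76P
open Module Matrix Pool.Agent.H53Toric
open Pool.Agent.H76T (IsIdeal Fam)
open Pool.Agent.H76V (Cmp alg calg)

variable {κ : Type*} {K : Type*} [Field K] [CharZero K] [Fintype κ] [DecidableEq κ]
  {L : Submodule K (Module.End K (κ → K))} {J : Matrix κ κ K} {ν : κ → ℚ}
variable [IsAlgClosed K] [Nonempty κ] {m : ℕ} {I : Fin m → Submodule K (Module.End K (κ → K))}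

/-- PROOF. `Fam.one` (H76T.TA2) with `a = 0`, `b = -1` (`dq_sq`; `dq ε ≠ 0` since `κ` is nonempty; `Cmp.tr`, `Cmp.irr`). -/
theorem Hs_mem (h : Cmp L J) (hF : Fam L I) {ε : κ → ℚ} (hε : ε ∈ Hs L) : ∃ j, dq ε ∈ I j := by
  have hy2 : (dq ε : Module.End K (κ → K)) * dq ε = 1 := dq_sq hε.1
  have hy0 : (dq ε : Module.End K (κ → K)) ≠ 0 := by
    intro h0
    rw [h0, mul_zero] at hy2
    exact zero_ne_one hy2
  exact hF.one h.irr h.tr hε.2 hy0 (a := 0) (b := -1) (by rw [hy2]; module)

/-- an element of `L` that commutes with all minimal ideals is zero -/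
theorem t4_zero (h : Cmp L J) (hF : Fam L I) {X : Module.End K (κ → K)} (hX : X ∈ L)
    (hc : ∀ i, ∀ Y ∈ I i, X * Y = Y * X) : X = 0 := by
  have hc2 : ∀ Y ∈ L, X * Y = Y * X := by
    intro Y hY
    rw [← hF.sup] at hY
    induction hY using Submodule.iSup_induction' with
    | mem j Y hY => exact hc j Y hY
    | zero => rw [mul_zero, zero_mul]
    | add a b _ _ ha hb => rw [mul_add, add_mul, ha, hb]
  obtain ⟨c, hc3⟩ := h.gen X (fun y hy _ => hc2 y hy)
  have h1 := h.skew X hX
  rw [hc3] at h1 ⊢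
  exact Pool.Agent.H76T.scalar_skew h.Jt h.Jd h1

/-- PROOF. `X j = -∑_{i ≠ j} X i` commutes with every element of `I j` (`hF.comm`) and of `I i`, `i ≠ j`, hence with `L` (`hF.sup`), so it is
a scalar (`Irr`: `Cmp.gen`, or H76T.Fam.top), of trace zero (`Cmp.tr`, `X j ∈ L`), i.e. zero (`κ` is nonempty, characteristic zero;
`H76T.tr_skew`, `scalar_skew`). -/
theorem indep (h : Cmp L J) (hF : Fam L I) {X : Fin m → Module.End K (κ → K)}
    (hX : ∀ i, X i ∈ I i) (h0 : ∑ i, X i = 0) (j : Fin m) : X j = 0 := by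
  refine t4_zero h hF ((hF.ideal j).1 (hX j)) fun i Y hY => ?_
  by_cases hij : i = j
  · subst hij
    have h1 : X i = -∑ k ∈ Finset.univ.erase i, X k := by
      rw [← Finset.add_sum_erase _ _ (Finset.mem_univ i)] at h0
      exact eq_neg_of_add_eq_zero_left h0
    have h2 : (∑ k ∈ Finset.univ.erase i, X k) * Y = Y * ∑ k ∈ Finset.univ.erase i, X k := by
      rw [Finset.sum_mul, Finset.mul_sum]
      refine Finset.sum_congr rfl fun k hk => ?_
      exact hF.comm k i (Finset.ne_of_mem_erase hk) _ (hX k) Y hY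
    rw [h1]
    exact (Commute.neg_left h2 : Commute _ _)
  · exact hF.comm j i (Ne.symm hij) _ (hX j) Y hY

/-- PROOF. If not, every `ε ∈ Hs L` is in some `I i` with `i ≠ j` (`Hs_mem`), so `dq ε` commutes with all `X ∈ I j` (`hF.comm`), so
`dq f` commutes with `X` for all `f ∈ Yo L`, so all elements of `I j` are diagonal (`TC.diag_of_comm`) and commute with each other.
They commute with the elements of `I i`, `i ≠ j`, too, so they commute with `L`; they are scalars of trace zero, and `I j = ⊥`,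
contradiction to `hF.ne_bot`. -/
theorem TC.exists_diag (h : TC L J ν) (hF : Fam L I) (j : Fin m) :
    ∃ f ∈ Yo L, f ≠ 0 ∧ dq f ∈ I j := by
  by_contra hcon
  push Not at hcon
  have h1 : ∀ X ∈ I j, ∀ f ∈ Yo L, X * dq f = dq f * X := by
    intro X hX f hf
    unfold Yo at hf
    induction hf using Submodule.span_induction with
    | mem ε hε =>
      obtain ⟨i, hi⟩ := Hs_mem h.cmp hF hε
      have hij : j ≠ i := by
        rintro rfl
        refine hcon ε (Submodule.subset_span hε) ?_ hi
        intro h0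
        obtain ⟨a⟩ := ‹Nonempty κ›
        have h2 := congrFun h0 a
        rcases hε.1 a with h3 | h3 <;> rw [h3] at h2 <;> simp at h2
      exact hF.comm j i hij X hX _ hi
    | zero =>
      have h2 : (dq (0 : κ → ℚ) : Module.End K (κ → K)) = 0 := by
        refine LinearMap.ext fun v => funext fun a => ?_
        simp [dq, dg_apply]
      rw [h2, mul_zero, zero_mul]
    | add f g _ _ hf hg => rw [dq_add, mul_add, add_mul, hf, hg]
    | smul c f _ hf => rw [dq_smul, mul_smul_comm, smul_mul_assoc, hf]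
  apply hF.ne_bot j
  rw [eq_bot_iff]
  intro X hX
  rw [Submodule.mem_bot]
  refine t4_zero h.cmp hF ((hF.ideal j).1 hX) fun i Y hY => ?_
  by_cases hij : i = j
  · subst hij
    obtain ⟨g, rfl⟩ := h.diag_of_comm (h1 X hX)
    obtain ⟨g', rfl⟩ := h.diag_of_comm (h1 Y hY)
    rw [dg_mul, dg_mul, mul_comm]
  · exact hF.comm j i (Ne.symm hij) X hX Y hY

end Pool.Agent.H76P
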