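import Pool.Agent.Lib.H76P.T3
import Pool.Agent.Lib.H76P.T4

/-!
# T13: the decomposition of the space of functions
-/

set_option autoImplicit false
set_option linter.unusedSectionVars false
namespace Pool.Agent.H76P
open Module Matrix Pool.Agent.H53Toric
open Pool.Agent.H76T (IsIdeal Fam)
open Pool.Agent.H76V (Cmp alg calg)

variable {κ : Type*} {K : Type*} [Field K] [CharZero K] [Fintype κ] [DecidableEq κ]
  {L : Submodule K (Module.End K (κ → K))} {J : Matrix κ κ K} {ν : κ → ℚ}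
variable [IsAlgClosed K] [Nonempty κ] {m : ℕ} {I : Fin m → Submodule K (Module.End K (κ → K))}

theorem t13_zero : (dq (0 : κ → ℚ) : Module.End K (κ → K)) = 0 := by
  have h2 := dq_smul (K := K) (0 : ℚ) (0 : κ → ℚ)
  rw [zero_smul, Rat.cast_zero, zero_smul] at h2
  exact h2

/-- `g` is a decomposition of `f` -/
def t13D (L : Submodule K (Module.End K (κ → K))) (I : Fin m → Submodule K (Module.End K (κ → K)))
    (f : κ → ℚ) (g : Fin m → κ → ℚ) : Prop :=
  (∀ i, g i ∈ Yo L ∧ dq (g i) ∈ I i) ∧ ∑ i, g i = f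

theorem t13_single {f : κ → ℚ} (hf : f ∈ Yo L) {j : Fin m} (hj : dq f ∈ I j) :
    t13D L I f (fun i => if i = j then f else 0) := by
  refine ⟨fun i => ?_, ?_⟩
  · dsimp only
    by_cases hij : i = j
    · rw [if_pos hij, hij]
      exact ⟨hf, hj⟩
    · rw [if_neg hij, t13_zero]
      exact ⟨Submodule.zero_mem _, Submodule.zero_mem _⟩
  · rw [Finset.sum_ite_eq' Finset.univ j (fun _ => f), if_pos (Finset.mem_univ j)]

theorem t13_add {f f' : κ → ℚ} {g g' : Fin m → κ → ℚ} (h : t13D L I f g) (h' : t13D L I f' g') :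
    t13D L I (f + f') (g + g') := by
  refine ⟨fun i => ⟨Submodule.add_mem _ (h.1 i).1 (h'.1 i).1, ?_⟩, ?_⟩
  · rw [Pi.add_apply, dq_add]
    exact Submodule.add_mem _ (h.1 i).2 (h'.1 i).2
  · rw [← h.2, ← h'.2, ← Finset.sum_add_distrib]
    rfl

theorem t13_smul (c : ℚ) {f : κ → ℚ} {g : Fin m → κ → ℚ} (h : t13D L I f g) :
    t13D L I (c • f) (c • g) := by
  refine ⟨fun i => ⟨Submodule.smul_mem _ c (h.1 i).1, ?_⟩, ?_⟩
  · rw [Pi.smul_apply, dq_smul]
    exact Submodule.smul_mem _ _ (h.1 i).2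
  · rw [← h.2, Finset.smul_sum]
    rfl

theorem t13_dq_sum (g : Fin m → κ → ℚ) (s : Finset (Fin m)) :
    (dq (∑ i ∈ s, g i) : Module.End K (κ → K)) = ∑ i ∈ s, dq (g i) := by
  induction s using Finset.induction_on with
  | empty => rw [Finset.sum_empty, Finset.sum_empty, t13_zero]
  | insert a s ha ih => rw [Finset.sum_insert ha, Finset.sum_insert ha, dq_add, ih]

theorem t13_unique (h : Cmp L J) (hF : Fam L I) {f : κ → ℚ} {g g' : Fin m → κ → ℚ}
    (hg : t13D L I f g) (hg' : t13D L I f g') (j : Fin m) : g j = g' j := by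
  have h1 := indep h hF (X := fun i => dq (g i) - dq (g' i))
    (fun i => Submodule.sub_mem _ (hg.1 i).2 (hg'.1 i).2) (by
      rw [Finset.sum_sub_distrib, ← t13_dq_sum, ← t13_dq_sum, hg.2, hg'.2, sub_self]) j
  exact dq_inj (K := K) (sub_eq_zero.1 h1)

/-- PROOF. Every element of `Hs L` is in one of the `I j` (`Hs_mem`); span induction. -/
theorem exists_decomp (h : Cmp L J) (hF : Fam L I) {f : κ → ℚ} (hf : f ∈ Yo L) :
    ∃ g : Fin m → κ → ℚ, (∀ i, g i ∈ Yo L ∧ dq (g i) ∈ I i) ∧ ∑ i, g i = f := by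
  have key : f ∈ Submodule.span ℚ (Hs L) := hf
  induction key using Submodule.span_induction with
  | mem ε hε =>
    obtain ⟨j, hj⟩ := Hs_mem h hF hε
    exact ⟨_, t13_single (Submodule.subset_span hε) hj⟩
  | zero =>
    refine ⟨0, fun i => ⟨Submodule.zero_mem _, ?_⟩, Finset.sum_const_zero⟩
    rw [Pi.zero_apply, t13_zero]
    exact Submodule.zero_mem _
  | add x y hx hy ihx ihy =>
    obtain ⟨g, hg⟩ := ihx hx
    obtain ⟨g', hg'⟩ := ihy hy
    exact ⟨_, t13_add hg hg'⟩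
  | smul c x hx ihx =>
    obtain ⟨g, hg⟩ := ihx hx
    exact ⟨_, t13_smul c hg⟩

/-- PROOF. `P f = g j` with `g` as in `exists_decomp`; `g` is unique by `indep` and `dq_inj`, so `P` is linear, `P f = f` if
`dq f ∈ I j` and `P f = 0` if `dq f ∈ I i`, `i ≠ j`.  (Or: the subspaces `{f : Yo L | dq f ∈ I i}` are independent with sum `⊤`.)
`P * P = P`, so `P.dualMap` is idempotent.  Splitting: for `a`, `b` let `c` be as in `mix`; for `f : Yo L` with the components
`g i`: `f c = g j c + ∑_{i ≠ j} g i c = g j b + ∑_{i ≠ j} g i a = f a + (P f) b - (P f) a`. -/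
theorem exists_proj (h : Cmp L J) (hF : Fam L I) (j : Fin m) :
    ∃ P : Module.End ℚ (Yo L), (∀ f, dq (P f : κ → ℚ) ∈ I j) ∧
      (∀ f : Yo L, dq (f : κ → ℚ) ∈ I j → P f = f) ∧
      (∀ i, i ≠ j → ∀ f : Yo L, dq (f : κ → ℚ) ∈ I i → P f = 0) ∧
      Spl (pt L) P.dualMap := by
  choose G hG using fun f : Yo L => exists_decomp h hF f.2
  have hG' : ∀ f : Yo L, t13D L I (f : κ → ℚ) (G f) := hG
  let P : Module.End ℚ (Yo L) :=
    { toFun := fun f => ⟨G f j, ((hG' f).1 j).1⟩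
      map_add' := fun f f' => Subtype.ext
        (t13_unique h hF (hG' (f + f')) (t13_add (hG' f) (hG' f')) j)
      map_smul' := fun c f => Subtype.ext
        (t13_unique h hF (hG' (c • f)) (t13_smul c (hG' f)) j) }
  have hP : ∀ f, ((P f : Yo L) : κ → ℚ) = G f j := fun f => rfl
  have hP1 : ∀ f, dq (P f : κ → ℚ) ∈ I j := fun f => ((hG' f).1 j).2
  have hP2 : ∀ f : Yo L, dq (f : κ → ℚ) ∈ I j → P f = f := by
    intro f hf
    apply Subtype.ext
    rw [hP, t13_unique h hF (hG' f) (t13_single f.2 hf) j, if_pos rfl]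
  have hP3 : ∀ i, i ≠ j → ∀ f : Yo L, dq (f : κ → ℚ) ∈ I i → P f = 0 := by
    intro i hij f hf
    apply Subtype.ext
    rw [hP, t13_unique h hF (hG' f) (t13_single f.2 hf) j, if_neg (Ne.symm hij)]
    rfl
  refine ⟨P, hP1, hP2, hP3, ?_, fun a b => ?_⟩
  · refine LinearMap.ext fun φ => LinearMap.ext fun f => ?_
    show φ (P (P f)) = φ (P f)
    rw [hP2 (P f) (hP1 f)]
  · obtain ⟨c, hc1, hc2⟩ := mix h hF j a b
    refine ⟨c, LinearMap.ext fun f => ?_⟩
    show (f : κ → ℚ) c = (f : κ → ℚ) a + ((P f : κ → ℚ) b - (P f : κ → ℚ) a)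
    rw [hP]
    have hs : ∀ x, (f : κ → ℚ) x = G f j x + ∑ i ∈ Finset.univ.erase j, G f i x := by
      intro x
      rw [Finset.add_sum_erase Finset.univ (fun i => G f i x) (Finset.mem_univ j),
        ← Finset.sum_apply, (hG' f).2]
    rw [hs c, hs a, hc1 _ ((hG' f).1 j).2]
    have h5 : ∑ i ∈ Finset.univ.erase j, G f i c = ∑ i ∈ Finset.univ.erase j, G f i a :=
      Finset.sum_congr rfl fun i hi => hc2 i (Finset.ne_of_mem_erase hi) _ ((hG' f).1 i).2
    rw [h5]
    ring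

end Pool.Agent.H76P
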