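import Pool.Agent.Lib.H76P.T1

/-!
# T2: the evaluations; two commuting algebras
-/

set_option autoImplicit false
set_option linter.unusedSectionVars false
namespace Pool.Agent.H76P
open Module Matrix Pool.Agent.H53Toric
open Pool.Agent.H76T (IsIdeal Fam)
open Pool.Agent.H76V (Cmp)

section
variable {κ : Type*} {K : Type*} [Field K] [CharZero K] [Fintype κ] [DecidableEq κ]
  {L : Submodule K (Module.End K (κ → K))} {J : Matrix κ κ K} {ν : κ → ℚ}

/-- PROOF. `Yo L` is finite dimensional.  If the span `W` of the differences is not everything, there is a nonzero functional on the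
dual space which vanishes on `W`; it is the evaluation at some `f : Yo L`, `f ≠ 0` (`Module.evalEquiv`, reflexivity).  So `f a = f b` for all
`a`, `b`, and `∑ a, f a = 0` (`Yo_sum`), hence `f = 0` (`κ` empty is trivial), contradiction. -/
theorem pt_spans (h : Cmp L J) : Spans (pt L) := by
  unfold Spans
  by_contra hW
  obtain ⟨f, hf0, hf⟩ := Submodule.exists_le_ker_of_lt_top _ (lt_top_iff_ne_top.2 hW)
  obtain ⟨x, rfl⟩ := (Module.evalEquiv ℚ (Yo L)).surjective f
  apply hf0
  have hx : x = 0 := by
    have h1 : ∀ a b, (x : κ → ℚ) b = (x : κ → ℚ) a := by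
      intro a b
      have h2 : pt L b - pt L a ∈ LinearMap.ker ((Module.evalEquiv ℚ (Yo L)) x) :=
        hf (Submodule.subset_span ⟨a, b, rfl⟩)
      rw [LinearMap.mem_ker] at h2
      have h3 : (pt L b - pt L a) x = 0 := h2
      rw [LinearMap.sub_apply, pt_apply, pt_apply] at h3
      exact sub_eq_zero.1 h3
    have h4 := Yo_sum h x.2
    apply Subtype.ext
    funext a
    have h5 : ∑ b, (x : κ → ℚ) b = (Fintype.card κ : ℚ) * (x : κ → ℚ) a := by
      rw [Finset.sum_congr rfl (fun b _ => h1 a b), Finset.sum_const, Finset.card_univ, nsmul_eq_mul]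
    rw [h5] at h4
    have h6 : (Fintype.card κ : ℚ) ≠ 0 := by
      have : Nonempty κ := ⟨a⟩
      exact_mod_cast Fintype.card_ne_zero
    rcases mul_eq_zero.1 h4 with h7 | h7
    · exact absurd h7 h6
    · exact h7
  rw [hx, map_zero]

/-- PROOF. `TC.sep`. -/
theorem TC.pt_inj (h : TC L J ν) : Function.Injective (pt L) := by
  intro a b hab
  by_contra hne
  obtain ⟨f, hf, hfab⟩ := h.sep hne
  apply hfab
  have h1 := congrArg (fun φ : Module.Dual ℚ (Yo L) => φ ⟨f, hf⟩) hab
  exact h1

end

section
variable {K : Type*} [Field K] {V : Type*} [AddCommGroup V] [Module K V]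

/-- PROOF. Suppose `p * q = 0`, `q ≠ 0`, `p ≠ 0`.  Let `W = {w | ∀ z ∈ A₂, p (z w) = 0}`, a subspace.  It is stable under `A₂` (`A₂` is closed under
products) and under `A₁` (for `x ∈ A₁`: `p (z (x w)) = x (p (z w))`, as `x` commutes with `p` and `z`), so it is stable under
`A₁ ⊔ A₂ = ⊤`, i.e. under all operators (the operators which map `W` to `W` are a subalgebra containing `A₁` and `A₂`).  `W` contains
the range of `q`: `p (z (q v)) = p (q (z v)) = 0`.  As `q ≠ 0`, `W` contains a nonzero vector, and since every vector is the image of it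
under some operator, `W = ⊤`.  So `p = 0` (`z = 1`), contradiction. -/
theorem nonvan {A₁ A₂ : Subalgebra K (Module.End K V)}
    (hcomm : ∀ X ∈ A₁, ∀ Y ∈ A₂, X * Y = Y * X) (hfull : A₁ ⊔ A₂ = ⊤)
    {p q : Module.End K V} (hp : p ∈ A₂) (hq : q ∈ A₁) (hp0 : p ≠ 0) (hq0 : q ≠ 0) :
    p * q ≠ 0 := by
  intro hpq
  let W : Submodule K V :=
    { carrier := {w | ∀ z ∈ A₂, p (z w) = 0}
      add_mem' := by
        intro a b ha hb z hz
        rw [map_add, map_add, ha z hz, hb z hz, add_zero]
      zero_mem' := by
        intro z _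
        rw [map_zero, map_zero]
      smul_mem' := by
        intro c a ha z hz
        rw [map_smul, map_smul, ha z hz, smul_zero] }
  let S : Subalgebra K (Module.End K V) :=
    { carrier := {X | ∀ w ∈ W, X w ∈ W}
      mul_mem' := by
        intro X Y hX hY w hw
        exact hX _ (hY _ hw)
      add_mem' := by
        intro X Y hX hY w hw
        exact W.add_mem (hX _ hw) (hY _ hw)
      algebraMap_mem' := by
        intro c w hw
        exact W.smul_mem c hw }
  have h1 : A₁ ≤ S := by
    intro X hX w hw z hz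
    have e1 : z (X w) = X (z w) := by
      have := congrArg (fun T : Module.End K V => T w) (hcomm X hX z hz)
      exact this.symm
    have e2 : p (X (z w)) = X (p (z w)) := by
      have := congrArg (fun T : Module.End K V => T (z w)) (hcomm X hX p hp)
      exact this.symm
    rw [e1, e2, hw z hz, map_zero]
  have h2 : A₂ ≤ S := by
    intro X hX w hw z hz
    exact hw (z * X) (A₂.mul_mem hz hX)
  have h3 : ∀ X : Module.End K V, X ∈ S := by
    intro X
    have h4 : A₁ ⊔ A₂ ≤ S := sup_le h1 h2
    rw [hfull] at h4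
    exact h4 Algebra.mem_top
  obtain ⟨v, hv⟩ : ∃ v, q v ≠ 0 := by
    by_contra hcon
    push Not at hcon
    exact hq0 (LinearMap.ext hcon)
  have hqv : q v ∈ W := by
    intro z hz
    have e1 : z (q v) = q (z v) := by
      have := congrArg (fun T : Module.End K V => T v) (hcomm q hq z hz)
      exact this.symm
    rw [e1]
    exact congrArg (fun T : Module.End K V => T (z v)) hpq
  obtain ⟨φ, hφ⟩ : ∃ φ : Module.Dual K V, φ (q v) ≠ 0 := by
    by_contra hcon
    push Not at hcon
    exact hv ((Module.forall_dual_apply_eq_zero_iff K (q v)).1 hcon)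
  apply hp0
  refine LinearMap.ext fun u => ?_
  have h5 := h3 (φ.smulRight ((φ (q v))⁻¹ • u)) (q v) hqv
  have h6 : (φ.smulRight ((φ (q v))⁻¹ • u)) (q v) = u := by
    rw [LinearMap.smulRight_apply, smul_smul, mul_inv_cancel₀ hφ, one_smul]
  rw [h6] at h5
  exact h5 1 A₂.one_mem

end

end Pool.Agent.H76P
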