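import Pool.Agent.Lib.H76P.T11
import Pool.Agent.Lib.H76P.T13
import Pool.Agent.Lib.H76P.T2
import Pool.Agent.Lib.H76P.C5

/-!
# T12: the component theorem
-/

set_option autoImplicit false
set_option linter.unusedSectionVars false
namespace Pool.Agent.H76P
open Module Matrix Pool.Agent.H53Toric
open Pool.Agent.H76T (IsIdeal Fam)
open Pool.Agent.H76V (Cmp alg calg)

variable {κ : Type*} {K : Type*} [Field K] [CharZero K] [Fintype κ] [DecidableEq κ]
  {L : Submodule K (Module.End K (κ → K))} {J : Matrix κ κ K} {ν : κ → ℚ}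
variable [IsAlgClosed K] [Nonempty κ]

/-- PROOF. `precomposition with σ`: the linear map `S : Yo L → Yo L`, `f ↦ f ∘ σ`, is injective, hence bijective (finite dimension);
`s = ` its transpose, `(s u) f = u (f ∘ σ)`.  `(s (pt b - pt a)) f = f (σ b) - f (σ a)`. -/
theorem exists_aff {σ : Equiv.Perm κ} (hσ : ∀ f ∈ Yo L, f ∘ σ ∈ Yo L) :
    ∃ s : Module.Dual ℚ (Yo L) ≃ₗ[ℚ] Module.Dual ℚ (Yo L), Aff (pt L) σ s ∧
      ∀ (u : Module.Dual ℚ (Yo L)) (f : Yo L), s u f = u ⟨(f : κ → ℚ) ∘ σ, hσ f f.2⟩ := by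
  let S : Yo L →ₗ[ℚ] Yo L :=
    { toFun := fun f => ⟨(f : κ → ℚ) ∘ σ, hσ f f.2⟩
      map_add' := fun f g => rfl
      map_smul' := fun c f => rfl }
  have hS : Function.Injective S := by
    intro f g hfg
    apply Subtype.ext
    have h1 : (f : κ → ℚ) ∘ σ = (g : κ → ℚ) ∘ σ := congrArg Subtype.val hfg
    ext a
    have h2 := congrFun h1 (σ.symm a)
    simpa using h2
  let S' : Yo L ≃ₗ[ℚ] Yo L := LinearEquiv.ofInjectiveEndo S hS
  refine ⟨S'.dualMap, ?_, ?_⟩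
  · intro a b
    refine LinearMap.ext fun f => ?_
    rfl
  · intro u f
    rfl

/-- **The component theorem.** PROOF. Let `m`, `I` be as in `H76T.exists_fam` (`Cmp.lie`, `Cmp.irr`, `Cmp.tr`).
`m = 0`: `L = ⊥` (`hF.sup`), but `h.vid` gives `ε ∈ Hs L`, `dq ε ∈ L`, `dq ε ≠ 0` (`dq_sq`).  `m = 1`: `Cmp.simple` (H76V.VA5): the second
alternative is excluded by `hp` (`2 ^ m`, `finrank K (κ → K) = Fintype.card κ`), the third one by `hc`.
`m ≥ 2`: let `ε₀ ∈ Hs L` be as in `h.vid`, `dq ε₀ ∈ I j` (`Hs_mem`), so `dq ν ∈ I j` (`hF.ideal j`), `ν ∈ Yo L` (`TC.nu_mem`).  Let `P` be as in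
`exists_proj` for `j`, `π = P.dualMap`, and `v` the functional `u ↦ u ν` on the dual space.  `v (π u) = u (P ν) = u ν = v u`.
`π ≠ 1`: let `i ≠ j` and `f ∈ Yo L`, `f ≠ 0`, `dq f ∈ I i` (`TC.exists_diag`); `P f = 0`, so `(π u) f = 0` for all `u`; if `π = 1` then `u f = 0` for
all `u`, so `f = 0`.  For `a ≠ b` let `σ` be as in `h.gal` and `s` as in `exists_aff`: `v (s (pt b - pt a)) = ν (σ b) - ν (σ a) ≠ 0`.
`card_power` (C5) (`pt_spans`, `TC.pt_inj`, `TC.atom_two`) gives a contradiction to `hp`. -/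
theorem TC.full (h : TC L J ν) (hp : ∀ a k : ℕ, 2 ≤ k → Fintype.card κ ≠ a ^ k)
    (hc : ∀ k : ℕ, 3 ≤ k → Odd k → Fintype.card κ ≠ k.centralBinom)
    {X : Module.End K (κ → K)} (hX : adjE J X = -X) : X ∈ L := by
  obtain ⟨m, I, hF⟩ := Pool.Agent.H76T.exists_fam h.cmp.lie h.cmp.irr h.cmp.tr
  obtain ⟨ε₀, hε₀, hvid⟩ := h.vid
  rcases Nat.lt_or_ge m 2 with hm | hm
  · interval_cases m
    · exfalso
      have hL : L = ⊥ := by
        rw [← hF.sup]
        exact iSup_of_empty _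
      have h1 := hε₀.2
      rw [hL, Submodule.mem_bot] at h1
      have h2 : (dq ε₀ : Module.End K (κ → K)) * dq ε₀ = 1 := dq_sq hε₀.1
      rw [h1, mul_zero] at h2
      exact zero_ne_one h2
    · rcases Cmp.simple h.cmp hF with h1 | ⟨n, hn, -, hn2, -⟩ | ⟨k, hk, hk2, hk3, -⟩
      · exact h1 X hX
      · rw [Module.finrank_fintype_fun_eq_card] at hn2
        exact absurd hn2 (hp 2 n (by omega))
      · rw [Module.finrank_fintype_fun_eq_card] at hk3
        exact absurd hk3 (hc k hk hk2)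
  · exfalso
    obtain ⟨j, hj⟩ := Hs_mem h.cmp hF hε₀
    have hν : dq ν ∈ I j := hvid (I j) (hF.ideal j) hj
    have hνY : ν ∈ Yo L := h.nu_mem
    obtain ⟨P, hP1, hP2, hP3, hPS⟩ := exists_proj h.cmp hF j
    have g1 : P.dualMap ≠ 1 := by
      intro h0
      obtain ⟨i, hij⟩ : ∃ i : Fin m, i ≠ j := by
        have : Nontrivial (Fin m) := Fin.nontrivial_iff_two_le.2 hm
        exact exists_ne j
      obtain ⟨f, hf, hf0, hfi⟩ := h.exists_diag hF i
      have h1 : P ⟨f, hf⟩ = 0 := hP3 i hij ⟨f, hf⟩ hfi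
      have h2 : (⟨f, hf⟩ : Yo L) = 0 := by
        rw [← Module.forall_dual_apply_eq_zero_iff ℚ]
        intro u
        have h3 : P.dualMap u ⟨f, hf⟩ = 0 := by
          rw [LinearMap.dualMap_apply, h1, map_zero]
        rwa [h0] at h3
      exact hf0 (congrArg Subtype.val h2)
    have g2 : ∀ u, Module.Dual.eval ℚ (Yo L) ⟨ν, hνY⟩ (P.dualMap u) =
        Module.Dual.eval ℚ (Yo L) ⟨ν, hνY⟩ u := by
      intro u
      have h1 : P ⟨ν, hνY⟩ = ⟨ν, hνY⟩ := hP2 ⟨ν, hνY⟩ hν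
      change P.dualMap u ⟨ν, hνY⟩ = u ⟨ν, hνY⟩
      rw [LinearMap.dualMap_apply, h1]
    have g3 : ∀ a b, a ≠ b → ∃ σ s, Aff (pt L) σ s ∧
        Module.Dual.eval ℚ (Yo L) ⟨ν, hνY⟩ (s (pt L b - pt L a)) ≠ 0 := by
      intro a b hab
      obtain ⟨σ, hσ1, hσ2⟩ := h.gal a b hab
      obtain ⟨s, hs1, -⟩ := exists_aff hσ1
      refine ⟨σ, s, hs1, ?_⟩
      rw [hs1 a b]
      change ν (σ b) - ν (σ a) ≠ 0
      exact sub_ne_zero.2 (Ne.symm hσ2)
    have g4 : ∀ q, Atom (pt L) q → q * P.dualMap = q → q = P.dualMap ∨ cnt (pt L) q = 2 := by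
      intro q hq hqπ
      by_cases hne : q = P.dualMap
      · exact Or.inl hne
      · exact Or.inr (h.atom_two hF hP1 hP2 hPS hq hqπ hne)
    obtain ⟨a, k, hk, hcard⟩ := card_power (pt_spans h.cmp) h.pt_inj hPS g1 g2 g3 g4
    exact hp a k hk hcard

end Pool.Agent.H76P
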