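import Pool.Agent.Lib.H76P.C3

/-!
# C6: a functional with two values
-/

set_option autoImplicit false
namespace Pool.Agent.H76P

variable {κ : Type*} [Fintype κ] {V : Type*} [AddCommGroup V] [Module ℚ V]

/-- PROOF. If not, there are `a`, `b` with `ε (q (pt b - pt a)) ≠ 0` and `a'`, `b'` with `ε ((1 - q) (pt b' - pt a')) ≠ 0`
(`Spans.ext`).  Let `c = ` the point with the coordinate `q` of `a` and the coordinate `1 - q` of `a'`; `c₁` (`c₂`, `c₁₂`) the
points where the coordinate `q` is replaced by that of `b` (the coordinate `1 - q` by that of `b'`, both).  All these exist (`Spl`).  Then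
`e c₁ - e c = x ≠ 0`, `e c₂ - e c = y ≠ 0`, `e c₁₂ - e c = x + y`; as all values are `1` or `-1`, `x = y = -2 e c` and `e c₁₂ = -3 e c`,
contradiction. -/
theorem two_values {pt : κ → V} (hs : Spans pt) {q : Module.End ℚ V} (hq : Spl pt q)
    {ε : Module.Dual ℚ V} {e : κ → ℚ} (he : ∀ a b, ε (pt b - pt a) = e b - e a)
    (h1 : ∀ a, e a = 1 ∨ e a = -1) : (∀ u, ε (q u) = ε u) ∨ ∀ u, ε (q u) = 0 := by
  by_contra hcon
  push Not at hcon
  obtain ⟨hA, hB⟩ := hcon
  have hA' : ∃ a b, ε ((1 - q) (pt b - pt a)) ≠ 0 := by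
    by_contra h
    push Not at h
    obtain ⟨u, hu⟩ := hA
    apply hu
    have h2 : ε ∘ₗ (1 - q) = 0 := hs.ext (fun a b => by simpa using h a b)
    have h3 := LinearMap.congr_fun h2 u
    simp only [LinearMap.comp_apply, LinearMap.sub_apply, Module.End.one_apply, map_sub,
      LinearMap.zero_apply] at h3
    linarith
  have hB' : ∃ a b, ε (q (pt b - pt a)) ≠ 0 := by
    by_contra h
    push Not at h
    obtain ⟨u, hu⟩ := hB
    apply hu
    have h2 : ε ∘ₗ q = 0 := hs.ext (fun a b => by simpa using h a b)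
    have h3 := LinearMap.congr_fun h2 u
    simpa using h3
  obtain ⟨a', b', hab'⟩ := hA'
  obtain ⟨a, b, hab⟩ := hB'
  have hqq : ∀ u, q (q u) = q u := fun u => by rw [← Module.End.mul_apply, hq.1]
  obtain ⟨c, hc⟩ := hq.2 a' a
  obtain ⟨c1, hc1⟩ := hq.2 a' b
  obtain ⟨c2, hc2⟩ := hq.2 b' a
  obtain ⟨c3, hc3⟩ := hq.2 b' b
  have e1 := he c c1
  have e2 := he c c2
  have e3 := he c c3
  rw [hc, hc1] at e1
  rw [hc, hc2] at e2
  rw [hc, hc3] at e3
  simp only [map_sub, map_add, LinearMap.sub_apply, Module.End.one_apply] at e1 e2 e3 hab hab'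
  rcases h1 c with k0 | k0 <;> rcases h1 c1 with k1 | k1 <;> rcases h1 c2 with k2 | k2 <;>
    rcases h1 c3 with k3 | k3 <;> rw [k0, k1] at e1 <;> rw [k0, k2] at e2 <;>
    rw [k0, k3] at e3 <;>
    first
      | exact hab (by linarith)
      | exact hab' (by linarith)

end Pool.Agent.H76P
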