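import Pool.Agent.Lib.H76P.C3

/-!
# C7: a functional with three values
-/

set_option autoImplicit false
namespace Pool.Agent.H76P

variable {κ : Type*} [Fintype κ] {V : Type*} [AddCommGroup V] [Module ℚ V]

/-- no finite nonempty family is stable under a nonzero translation -/
theorem c7_trans [Nonempty κ] (g : κ → V) {w : V} (hw : w ≠ 0) (h : ∀ b, ∃ c, g c = g b + w) : False := by
  choose nx hnx using h
  obtain ⟨b₀⟩ : Nonempty κ := inferInstance
  have h1 : ∀ n : ℕ, g (nx^[n] b₀) = g b₀ + (n : ℚ) • w := by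
    intro n
    induction n with
    | zero => simp
    | succ n ih =>
      rw [Function.iterate_succ_apply', hnx, ih]
      push_cast
      rw [add_smul, one_smul, add_assoc]
  have h2 : Function.Injective fun n : ℕ => nx^[n] b₀ := by
    intro m n hmn
    have h3 := congrArg g hmn
    simp only at h3
    rw [h1, h1, add_right_inj] at h3
    have h4 := smul_left_injective ℚ hw h3
    exact_mod_cast h4
  exact not_injective_infinite_finite _ h2

omit [Fintype κ] in
/-- the mixed point -/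
theorem c7_mix {pt : κ → V} {p : Module.End ℚ V} (hp : Spl pt p) {f : Module.Dual ℚ V} {fv : κ → ℚ}
    (hf : ∀ a b, f (pt b - pt a) = fv b - fv a) (a b : κ) :
    ∃ c, pt c = pt a + p (pt b - pt a) ∧ fv c = fv a + f (p (pt b - pt a)) := by
  obtain ⟨c, hc⟩ := hp.2 a b
  refine ⟨c, hc, ?_⟩
  have h1 := hf a c
  rw [hc, add_sub_cancel_left] at h1
  linarith

theorem c7_contra {pt : κ → V} {p : Module.End ℚ V} (hp : Spl pt p) {δ : V}
    {f : Module.Dual ℚ V} {fv : κ → ℚ} (hf : ∀ a b, f (pt b - pt a) = fv b - fv a)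
    (h3 : ∀ a, fv a = -1 ∨ fv a = 0 ∨ fv a = 1) {a₀ a₁ : κ} (ha₀ : fv a₀ = -1)
    (ha₁ : pt a₁ = pt a₀ + δ) (ha₁' : fv a₁ = 1)
    (hminus : ∀ a, fv a = -1 → ∃ c, pt c = pt a + δ ∧ fv c = 1)
    (hδ : p δ ≠ 0) (h0 : f (p δ) = 0) : False := by
  have : Nonempty κ := ⟨a₀⟩
  have hpp : ∀ u, p (p u) = p u := fun u => by
    have := congrArg (fun g : Module.End ℚ V => g u) hp.1
    simpa [Module.End.mul_apply] using this
  refine c7_trans (fun b => p (pt b)) hδ fun b => ?_
  obtain ⟨c, hc, hc'⟩ := c7_mix hp hf a₀ b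
  obtain ⟨m, hm, hm'⟩ := c7_mix hp hf a₁ b
  have e1 : f (p (pt b - pt a₁)) = f (p (pt b - pt a₀)) := by
    rw [ha₁, show pt b - (pt a₀ + δ) = (pt b - pt a₀) - δ by abel, map_sub, map_sub, h0, sub_zero]
  rw [e1, ha₁'] at hm'
  rw [ha₀] at hc'
  have hfc : fv c = -1 := by
    rcases h3 c with h | h | h
    · exact h
    · rcases h3 m with h' | h' | h' <;> linarith
    · rcases h3 m with h' | h' | h' <;> linarith
  obtain ⟨d, hd, -⟩ := hminus c hfc
  refine ⟨d, ?_⟩
  rw [hd, hc, map_add, map_add, hpp, map_sub]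
  abel

/-- PROOF. Let `a₀` be a point with `fv a₀ = -1`.  `f δ = 2` (`hminus`).  Notation: for a point `b` let `b_q` be the point with
`pt b_q = pt a₀ + q (pt b - pt a₀)`.  `a₁ := ` the point `a₀ + (1 - q) δ` exists: `pt a₀ + δ` is a point by `hminus`, and so
`pt a₀ + (1 - q) δ` is a point, in the same way `pt a₀ + q δ`.
`f (q δ) + f ((1 - q) δ) = 2`, and `f (q δ)`, `f ((1 - q) δ)` are in `{0, 1, 2}` because `-1 + f (q δ)` and `-1 + f ((1 - q) δ)` are values
of `fv`.  Let `t b = f (q (pt b - pt a₀))`, so `fv b_q = -1 + t b`, `t b ∈ {0, 1, 2}`.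
(1) `f (q δ) = 0`, `f ((1 - q) δ) = 2` is impossible: the point with coordinate `q` of `b` and coordinate `1 - q` of `a₀ + δ` has
`fv = -1 + t b + 2`, so `t b = 0` for all `b`, so `fv b_q = -1` and `pt b_q + δ` is a point for all `b`.  Hence the finite set
`{q (pt b)}` is mapped to itself by the translation by `q δ ≠ 0` (the coordinate `q` of `pt b_q + δ` is `q (pt b) + q δ`), contradiction (a finite
set stable under a nonzero translation is empty: `b, b + q δ, b + 2 q δ, ...` are pairwise different).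
(2) `f (q δ) = 2`, `f ((1 - q) δ) = 0` is impossible for the same reason with `1 - q` instead of `q`.
(3) So `f (q δ) = 1 = f ((1 - q) δ)`.  The point with coordinate `q` of `b` and coordinate `1 - q` of `a₀ + δ` has `fv = -1 + t b + 1 = t b`,
so `t b ∈ {0, 1}`.  If `t b = 0` then `fv b_q = -1`, `pt b_q + δ` is a point, so there is a point `c` with `q (pt c) = q (pt b) + q δ`.  If
`t b = 1`, the point `pt b_q + (1 - q) δ` has `fv = 1`, so `hplus` gives a point `c` with `q (pt c) = q (pt b) - q δ`.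
Let `p₁ u = f (q u) • q δ`, a linear map; `p₁ * p₁ = p₁`, `p₁ * q = p₁`, `p₁ δ ≠ 0`.  It is a splitting: for points `a`, `b`,
`p₁ (pt b - pt a) = (t b - t a) • q δ` with `t b - t a ∈ {-1, 0, 1}`; if it is `1` then `t a = 0`, there is `c` with
`q (pt c) = q (pt a) + q δ`, and `pt a + q (pt c - pt a) = pt a + q δ` is a point; the same for `-1`.  As `q` is an atom, `p₁ = q`.  So
`q (pt b) = q (pt a₀) + t b • q δ` has exactly the two values `q (pt a₀)`, `q (pt a₀) + q δ` (the second one for `b = a₀ + δ`). -/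
theorem root_two {pt : κ → V} (hs : Spans pt) {q : Module.End ℚ V} (hq : Atom pt q) {δ : V}
    {f : Module.Dual ℚ V} {fv : κ → ℚ} (hf : ∀ a b, f (pt b - pt a) = fv b - fv a)
    (h3 : ∀ a, fv a = -1 ∨ fv a = 0 ∨ fv a = 1) (hex : ∃ a, fv a = -1)
    (hminus : ∀ a, fv a = -1 → ∃ c, pt c = pt a + δ ∧ fv c = 1)
    (hplus : ∀ a, fv a = 1 → ∃ c, pt c = pt a - δ ∧ fv c = -1)
    (hδ : q δ ≠ 0) (hδ' : (1 - q) δ ≠ 0) : cnt pt q = 2 := by
  obtain ⟨a₀, ha₀⟩ := hex
  obtain ⟨a₁, ha₁, ha₁'⟩ := hminus a₀ ha₀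
  obtain ⟨hqs, hq0, hqmin⟩ := hq
  have hqq : ∀ u, q (q u) = q u := fun u => by
    have := congrArg (fun g : Module.End ℚ V => g u) hqs.1
    simpa [Module.End.mul_apply] using this
  have hfδ : f δ = 2 := by
    have h1 := hf a₀ a₁
    rw [ha₁, add_sub_cancel_left, ha₁', ha₀] at h1
    rw [h1]; norm_num
  have hsum : f (q δ) + f ((1 - q) δ) = 2 := by
    rw [← map_add, LinearMap.sub_apply, Module.End.one_apply, add_sub_cancel, hfδ]
  -- the value `t b`
  have ht : ∀ b, ∃ c, pt c = pt a₀ + q (pt b - pt a₀) ∧ fv c = -1 + f (q (pt b - pt a₀)) := by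
    intro b
    obtain ⟨c, hc, hc'⟩ := c7_mix hqs hf a₀ b
    exact ⟨c, hc, by rw [hc', ha₀]⟩
  have hx : f (q δ) = 1 := by
    obtain ⟨c, hc, hc'⟩ := ht a₁
    rw [ha₁, add_sub_cancel_left] at hc'
    rcases h3 c with h | h | h
    · exact (c7_contra hqs hf h3 ha₀ ha₁ ha₁' hminus hδ (by linarith)).elim
    · linarith
    · exact (c7_contra hqs.compl hf h3 ha₀ ha₁ ha₁' hminus hδ' (by linarith)).elim
  -- the mixed point over `a₁`
  have hm : ∀ b, ∃ m, pt m = pt a₀ + δ + q (pt b - pt a₀) - q δ ∧ fv m = f (q (pt b - pt a₀)) := by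
    intro b
    obtain ⟨m, hm, hm'⟩ := c7_mix hqs hf a₁ b
    have e1 : q (pt b - pt a₁) = q (pt b - pt a₀) - q δ := by
      rw [ha₁, show pt b - (pt a₀ + δ) = (pt b - pt a₀) - δ by abel, map_sub]
    refine ⟨m, ?_, ?_⟩
    · rw [hm, e1, ha₁]; abel
    · rw [hm', e1, map_sub, hx, ha₁']; ring
  have ht01 : ∀ b, f (q (pt b - pt a₀)) = 0 ∨ f (q (pt b - pt a₀)) = 1 := by
    intro b
    obtain ⟨c, -, hc'⟩ := ht b
    obtain ⟨m, -, hm'⟩ := hm b
    rcases h3 c with h | h | h <;> rcases h3 m with h' | h' | h' <;>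
      first
        | (left; linarith)
        | (right; linarith)
  have hup : ∀ b, f (q (pt b - pt a₀)) = 0 → ∃ c, q (pt c) = q (pt b) + q δ := by
    intro b hb
    obtain ⟨c, hc, hc'⟩ := ht b
    obtain ⟨d, hd, -⟩ := hminus c (by rw [hc', hb]; norm_num)
    refine ⟨d, ?_⟩
    rw [hd, hc, map_add, map_add, hqq, map_sub]
    abel
  have hdown : ∀ b, f (q (pt b - pt a₀)) = 1 → ∃ c, q (pt c) = q (pt b) - q δ := by
    intro b hb
    obtain ⟨m, hm1, hm'⟩ := hm b
    obtain ⟨d, hd, -⟩ := hplus m (by rw [hm', hb])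
    refine ⟨d, ?_⟩
    rw [hd, hm1]
    simp only [map_sub, map_add, hqq]
    abel
  set p₁ : Module.End ℚ V := (f ∘ₗ q).smulRight (q δ) with hp₁
  have hp₁a : ∀ u, p₁ u = f (q u) • q δ := fun u => by
    simp [hp₁]
  have hp₁q : p₁ * q = p₁ := by
    ext u
    rw [Module.End.mul_apply, hp₁a, hp₁a, hqq]
  have hdiff : ∀ a b, q (pt b - pt a) = q (pt b - pt a₀) - q (pt a - pt a₀) := by
    intro a b
    rw [← map_sub]; congr 1; abel
  have hspl : Spl pt p₁ := by
    refine ⟨?_, fun a b => ?_⟩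
    · ext u
      rw [Module.End.mul_apply, hp₁a, hp₁a, map_smul, hqq, map_smul, hx, smul_eq_mul, mul_one]
    · have h1 : p₁ (pt b - pt a) = (f (q (pt b - pt a₀)) - f (q (pt a - pt a₀))) • q δ := by
        rw [hp₁a, hdiff, map_sub]
      rw [h1]
      rcases ht01 a with h | h <;> rcases ht01 b with h' | h'
      · exact ⟨a, by rw [h, h']; simp⟩
      · obtain ⟨c, hc⟩ := hup a h
        obtain ⟨d, hd⟩ := hqs.2 a c
        refine ⟨d, ?_⟩
        rw [hd, h, h', map_sub, hc]
        simp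
      · obtain ⟨c, hc⟩ := hdown a h
        obtain ⟨d, hd⟩ := hqs.2 a c
        refine ⟨d, ?_⟩
        rw [hd, h, h', map_sub, hc]
        simp
      · exact ⟨a, by rw [h, h']; simp⟩
  have hp₁0 : p₁ ≠ 0 := by
    intro h
    have h1 := hp₁a δ
    rw [h, hx, one_smul] at h1
    exact hδ (by simpa using h1.symm)
  have hpq : p₁ = q := (hqmin p₁ hspl hp₁q).resolve_left hp₁0
  have hval : ∀ b, q (pt b) = q (pt a₀) + f (q (pt b - pt a₀)) • q δ := by
    intro b
    have h1 : q (pt b - pt a₀) = f (q (pt b - pt a₀)) • q δ := by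
      conv_lhs => rw [← hpq, hp₁a]
    rw [← h1, map_sub]
    abel
  classical
  have himg : (Finset.univ.image fun a => q (pt a)) = {q (pt a₀), q (pt a₀) + q δ} := by
    ext u
    simp only [Finset.mem_image, Finset.mem_univ, true_and, Finset.mem_insert, Finset.mem_singleton]
    constructor
    · rintro ⟨b, rfl⟩
      rw [hval b]
      rcases ht01 b with h | h
      · left; rw [h]; simp
      · right; rw [h]; simp
    · rintro (rfl | rfl)
      · exact ⟨a₀, rfl⟩
      · exact ⟨a₁, by rw [ha₁, map_add]⟩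
  have hne : q (pt a₀) ≠ q (pt a₀) + q δ := by
    intro h
    exact hδ (by simpa using h.symm)
  unfold cnt
  convert Finset.card_pair hne

end Pool.Agent.H76P
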