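import Pool.Agent.Lib.H76P.T6

/-!
# T10: the coroot
-/

set_option autoImplicit false
set_option linter.unusedSectionVars false
namespace Pool.Agent.H76P
open Module Matrix Pool.Agent.H53Toric
open Pool.Agent.H76T (IsIdeal Fam)
open Pool.Agent.H76V (Cmp alg calg)

variable {κ : Type*} {K : Type*} [Field K] [CharZero K] [Fintype κ] [DecidableEq κ]
  {L : Submodule K (Module.End K (κ → K))} {J : Matrix κ κ K} {ν : κ → ℚ}

/-- an operator of weight zero is diagonal -/
theorem t10_diag (h : TC L J ν) {δ : Module.Dual ℚ (Yo L)} (hδ : δ = 0)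
    {X : Module.End K (κ → K)} (hX : IsWt L δ X) : ∃ g : κ → K, X = dg g := by
  apply h.diag_of_comm
  intro f hf
  have h1 := hX ⟨f, hf⟩
  rw [hδ, LinearMap.zero_apply, Rat.cast_zero, zero_smul, sub_eq_zero] at h1
  exact h1.symm

/-- the entry: if `Y * X = dg g'`, `X * Y = dg g` and `g' c = 1` then there is `d` -/
theorem t10_entry {X Y : Module.End K (κ → K)} {δ : Module.Dual ℚ (Yo L)} (hwX : IsWt L δ X)
    (hXYX : X * Y * X = X) {g g' : κ → K} (hg : X * Y = dg g) (hg' : Y * X = dg g') {c : κ}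
    (hc : g' c = 1) : ∃ d, pt L d - pt L c = δ ∧ g d = 1 := by
  have h1 : Y (X (Pi.single c 1)) = Pi.single c 1 := by
    have h2 : (Y * X) (Pi.single c (1 : K)) = dg g' (Pi.single c 1) := by rw [hg']
    rw [Module.End.mul_apply] at h2
    rw [h2]
    ext a
    rw [dg_apply]
    by_cases hac : a = c
    · subst hac
      rw [hc, one_mul]
    · rw [Pi.single_eq_of_ne hac, mul_zero]
  have h2 : X (Pi.single c (1 : K)) ≠ 0 := by
    intro h0
    rw [h0, map_zero] at h1
    have h3 := congrFun h1 c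
    rw [Pi.single_eq_same, Pi.zero_apply] at h3
    exact zero_ne_one h3
  obtain ⟨d, hd⟩ := Function.ne_iff.1 h2
  rw [Pi.zero_apply] at hd
  refine ⟨d, ?_, ?_⟩
  · apply hwX.entry
    rw [LinearMap.toMatrix'_apply]
    exact hd
  · have h3 : (dg g) (X (Pi.single c (1 : K))) = X (Pi.single c 1) := by
      rw [← hg]
      have h4 := congrArg (fun T : Module.End K (κ → K) => T (Pi.single c 1)) hXYX
      exact h4
    have h4 := congrFun h3 d
    rw [dg_apply] at h4
    exact mul_right_cancel₀ hd (by rw [h4, one_mul])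

variable [IsAlgClosed K] [Nonempty κ] {m : ℕ} {I : Fin m → Submodule K (Module.End K (κ → K))}

/-- PROOF. `e = X * Y` and `e' = Y * X` are idempotent, `e * e' = X Y Y X = 0`, `e' * e = Y X X Y = 0`; both have weight `0`
(`IsWt.mul`), i.e. they commute with all `dq f`, `f ∈ Yo L`, so `e = dg g`, `e' = dg g'` (`TC.diag_of_comm`) with `g a, g' a ∈ {0, 1}`,
`g a * g' a = 0` (`dg_mul`, `dg_inj`).  Let `fv a = (if g a = 1 then 1 else 0) - (if g' a = 1 then 1 else 0)`.  `dq fv = e - e' = [X, Y] ∈ I j ≤ L`, so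
`fv ∈ Yo L` (`h.diag`).  `e' ≠ 0` since `X * e' = X ≠ 0`, so there is `a` with `g' a = 1`, `fv a = -1`.  If `fv c = -1` then `g' c = 1`; let `u` be the
basis vector `Pi.single c 1`, `w = X u`; `Y w = e' u = u`, so `w ≠ 0`; let `w d ≠ 0`: the entry `(d, c)` of `X` is not zero, so
`pt L d - pt L c = δ` (`IsWt.entry`); `e w = X Y X u = w`, so `g d * w d = w d`, `g d = 1`, `fv d = 1`.  The same for `fv c = 1` with `Y`, `e`. -/
theorem coroot (h : TC L J ν) (hF : Fam L I) {j : Fin m} {X Y : Module.End K (κ → K)}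
    (hX : X ∈ I j) (hY : Y ∈ I j) (hX0 : X ≠ 0) {δ : Module.Dual ℚ (Yo L)}
    (hwX : IsWt L δ X) (hwY : IsWt L (-δ) Y) (hXX : X * X = 0) (hYY : Y * Y = 0)
    (hXYX : X * Y * X = X) (hYXY : Y * X * Y = Y) :
    ∃ fv ∈ Yo L, (∀ a, fv a = -1 ∨ fv a = 0 ∨ fv a = 1) ∧ (∃ a, fv a = -1) ∧
      (∀ c, fv c = -1 → ∃ d, pt L d = pt L c + δ ∧ fv d = 1) ∧
      (∀ c, fv c = 1 → ∃ d, pt L d = pt L c - δ ∧ fv d = -1) := by
  classical
  obtain ⟨g, hg⟩ := t10_diag h (add_neg_cancel δ) (hwX.mul hwY)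
  obtain ⟨g', hg'⟩ := t10_diag h (neg_add_cancel δ) (hwY.mul hwX)
  have hgg : ∀ a, g a = 0 ∨ g a = 1 := by
    intro a
    have h1 : dg (g * g) = dg g := by
      rw [← dg_mul, ← hg, ← mul_assoc, hXYX]
    have h2 := congrFun (dg_inj h1) a
    rw [Pi.mul_apply] at h2
    have h3 : g a * (g a - 1) = 0 := by linear_combination h2
    rcases mul_eq_zero.1 h3 with h4 | h4
    · exact Or.inl h4
    · exact Or.inr (sub_eq_zero.1 h4)
  have hgg' : ∀ a, g' a = 0 ∨ g' a = 1 := by
    intro a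
    have h1 : dg (g' * g') = dg g' := by
      rw [← dg_mul, ← hg', ← mul_assoc, hYXY]
    have h2 := congrFun (dg_inj h1) a
    rw [Pi.mul_apply] at h2
    have h3 : g' a * (g' a - 1) = 0 := by linear_combination h2
    rcases mul_eq_zero.1 h3 with h4 | h4
    · exact Or.inl h4
    · exact Or.inr (sub_eq_zero.1 h4)
  have hmul : ∀ a, g a * g' a = 0 := by
    intro a
    have h1 : dg (g * g') = dg (0 : κ → K) := by
      rw [← dg_mul, ← hg, ← hg']
      have h2 : X * Y * (Y * X) = X * (Y * Y) * X := by noncomm_ring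
      rw [h2, hYY, mul_zero, zero_mul]
      refine LinearMap.ext fun v => funext fun b => ?_
      simp [dg_apply]
    exact congrFun (dg_inj h1) a
  set fv : κ → ℚ := fun a => (if g a = 1 then 1 else 0) - (if g' a = 1 then 1 else 0) with hfv
  have hval : ∀ a, (g a = 0 ∧ g' a = 0 ∧ fv a = 0) ∨ (g a = 1 ∧ g' a = 0 ∧ fv a = 1) ∨
      (g a = 0 ∧ g' a = 1 ∧ fv a = -1) := by
    intro a
    have h0 := hmul a
    rcases hgg a with h1 | h1 <;> rcases hgg' a with h2 | h2
    · left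
      exact ⟨h1, h2, by simp [hfv, h1, h2]⟩
    · right; right
      exact ⟨h1, h2, by simp [hfv, h1, h2]⟩
    · right; left
      exact ⟨h1, h2, by simp [hfv, h1, h2]⟩
    · rw [h1, h2, mul_one] at h0
      exact absurd h0 one_ne_zero
  have hdq : (dq fv : Module.End K (κ → K)) = X * Y - Y * X := by
    rw [hg, hg']
    refine LinearMap.ext fun v => funext fun a => ?_
    rw [LinearMap.sub_apply, Pi.sub_apply, dg_apply, dg_apply, dq, dg_apply]
    rcases hval a with ⟨h1, h2, h3⟩ | ⟨h1, h2, h3⟩ | ⟨h1, h2, h3⟩ <;> rw [h1, h2, h3] <;>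
      push_cast <;> ring
  have hL : (dq fv : Module.End K (κ → K)) ∈ L := by
    rw [hdq]
    exact (hF.ideal j).1 ((hF.ideal j).2 X ((hF.ideal j).1 hX) Y hY)
  refine ⟨fv, h.diag fv hL, ?_, ?_, ?_, ?_⟩
  · intro a
    rcases hval a with ⟨-, -, h3⟩ | ⟨-, -, h3⟩ | ⟨-, -, h3⟩
    · exact Or.inr (Or.inl h3)
    · exact Or.inr (Or.inr h3)
    · exact Or.inl h3
  · by_contra hcon
    push Not at hcon
    apply hX0
    have h1 : g' = 0 := by
      ext a
      rcases hval a with ⟨-, h2, -⟩ | ⟨-, h2, -⟩ | ⟨-, -, h3⟩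
      · exact h2
      · exact h2
      · exact absurd h3 (hcon a)
    have h2 : Y * X = 0 := by
      rw [hg', h1]
      refine LinearMap.ext fun v => funext fun b => ?_
      simp [dg_apply]
    rw [← hXYX, mul_assoc, h2, mul_zero]
  · intro c hc
    have hc' : g' c = 1 := by
      rcases hval c with ⟨-, -, h3⟩ | ⟨-, -, h3⟩ | ⟨-, h2, -⟩
      · rw [h3] at hc; norm_num at hc
      · rw [h3] at hc; norm_num at hc
      · exact h2
    obtain ⟨d, hd1, hd2⟩ := t10_entry hwX hXYX hg hg' hc'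
    refine ⟨d, ?_, ?_⟩
    · rw [← hd1]; abel
    · rcases hval d with ⟨h1, -, -⟩ | ⟨-, -, h3⟩ | ⟨h1, -, -⟩
      · rw [h1] at hd2; exact absurd hd2 zero_ne_one
      · exact h3
      · rw [h1] at hd2; exact absurd hd2 zero_ne_one
  · intro c hc
    have hc' : g c = 1 := by
      rcases hval c with ⟨-, -, h3⟩ | ⟨h1, -, -⟩ | ⟨-, -, h3⟩
      · rw [h3] at hc; norm_num at hc
      · exact h1
      · rw [h3] at hc; norm_num at hc
    obtain ⟨d, hd1, hd2⟩ := t10_entry hwY hYXY hg' hg hc'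
    refine ⟨d, ?_, ?_⟩
    · rw [sub_eq_iff_eq_add'] at hd1
      rw [hd1, sub_eq_add_neg]
    · rcases hval d with ⟨-, h2, -⟩ | ⟨-, h2, -⟩ | ⟨-, -, h3⟩
      · rw [h2] at hd2; exact absurd hd2 zero_ne_one
      · rw [h2] at hd2; exact absurd hd2 zero_ne_one
      · exact h3

end Pool.Agent.H76P
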