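import Pool.Agent.Lib.H76P.T5

/-!
# T6: ideals contain the weight components of their elements
-/

set_option autoImplicit false
set_option linter.unusedSectionVars false
namespace Pool.Agent.H76P
open Module Matrix Pool.Agent.H53Toric
open Pool.Agent.H76T (IsIdeal Fam)
open Pool.Agent.H76V (Cmp alg calg)

variable {κ : Type*} {K : Type*} [Field K] [CharZero K] [Fintype κ] [DecidableEq κ]
  {L : Submodule K (Module.End K (κ → K))} {J : Matrix κ κ K} {ν : κ → ℚ}

theorem t6_wt_smul {δ : Module.Dual ℚ (Yo L)} {X : Module.End K (κ → K)} (hX : IsWt L δ X)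
    (c : K) : IsWt L δ (c • X) := by
  intro g
  have h1 : dq (g : κ → ℚ) * (c • X) - (c • X) * dq (g : κ → ℚ) =
      c • (dq (g : κ → ℚ) * X - X * dq (g : κ → ℚ)) := by
    rw [mul_smul_comm, smul_mul_assoc]
    module
  rw [h1, hX g, smul_comm]

theorem t6_mem {I : Submodule K (Module.End K (κ → K))} (hI : IsIdeal L I)
    (s : Finset (Module.Dual ℚ (Yo L))) :
    ∀ x : Module.Dual ℚ (Yo L) → Module.End K (κ → K), (∀ δ ∈ s, IsWt L δ (x δ)) →
      ∑ δ ∈ s, x δ ∈ I → ∀ δ ∈ s, x δ ∈ I := by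
  classical
  induction s using Finset.induction_on with
  | empty =>
    intro x _ _ δ hδ
    simp at hδ
  | insert δ0 s hδ0 ih =>
    intro x hx hsum
    have key : ∀ δ ∈ s, x δ ∈ I := by
      intro δ hδ
      have hne : δ ≠ δ0 := by
        rintro rfl
        exact hδ0 hδ
      obtain ⟨g, hg⟩ : ∃ g, δ g ≠ δ0 g := by
        by_contra h
        push Not at h
        exact hne (LinearMap.ext h)
      have h1 : ∑ δ' ∈ s, (((δ' g : ℚ) : K) - ((δ0 g : ℚ) : K)) • x δ' ∈ I := by
        have h2 : dq (g : κ → ℚ) * (∑ δ' ∈ insert δ0 s, x δ') -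
            (∑ δ' ∈ insert δ0 s, x δ') * dq (g : κ → ℚ) ∈ I :=
          hI.2 _ (Yo_mem g.2) _ hsum
        have h3 := I.sub_mem h2 (I.smul_mem ((δ0 g : ℚ) : K) hsum)
        have h4 : dq (g : κ → ℚ) * (∑ δ' ∈ insert δ0 s, x δ') -
            (∑ δ' ∈ insert δ0 s, x δ') * dq (g : κ → ℚ) =
            ∑ δ' ∈ insert δ0 s, ((δ' g : ℚ) : K) • x δ' := by
          rw [Finset.mul_sum, Finset.sum_mul, ← Finset.sum_sub_distrib]
          exact Finset.sum_congr rfl fun δ' hδ' => hx δ' hδ' g
        rw [h4, Finset.smul_sum, ← Finset.sum_sub_distrib, Finset.sum_insert hδ0, sub_self,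
          zero_add] at h3
        have h5 : ∑ δ' ∈ s, (((δ' g : ℚ) : K) - ((δ0 g : ℚ) : K)) • x δ' =
            ∑ δ' ∈ s, (((δ' g : ℚ) : K) • x δ' - ((δ0 g : ℚ) : K) • x δ') :=
          Finset.sum_congr rfl fun δ' _ => by module
        rw [h5]
        exact h3
      have h6 := ih (fun δ' => (((δ' g : ℚ) : K) - ((δ0 g : ℚ) : K)) • x δ')
        (fun δ' hδ' => t6_wt_smul (hx δ' (Finset.mem_insert_of_mem hδ')) _) h1 δ hδ
      have h7 : (((δ g : ℚ) : K) - ((δ0 g : ℚ) : K)) ≠ 0 := by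
        rw [sub_ne_zero]
        intro h
        exact hg (by exact_mod_cast h)
      have h8 := I.smul_mem (((δ g : ℚ) : K) - ((δ0 g : ℚ) : K))⁻¹ h6
      rwa [smul_smul, inv_mul_cancel₀ h7, one_smul] at h8
    intro δ hδ
    rcases Finset.mem_insert.1 hδ with rfl | h
    · rw [Finset.sum_insert hδ0] at hsum
      have h9 := I.sub_mem hsum (I.sum_mem (fun c hc => key c hc))
      rwa [add_sub_cancel_right] at h9
    · exact key δ h

/-- PROOF. Let `s` be as in `wc_sum`.  There is `g : Yo L` such that the numbers `δ g`, `δ ∈ s`, are pairwise different (the finitely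
many nonzero functionals `δ - δ'` on the rational vector space `Yo L`: no finite union of proper subspaces is everything; compare
`generic` in C1, applied to the dual of `Yo L` and reflexivity, or directly).  Let `A Z = dq g * Z - Z * dq g`, a linear map; it maps `I` to
`I` (`hI.2` with `dq g ∈ L`, `Yo_mem`), and `A (wc δ X) = δ g • wc δ X`.  So the Lagrange polynomial
`∏_{δ' ∈ s, δ' ≠ δ} (δ g - δ' g)⁻¹ • (A - δ' g)` maps `X ∈ I` to `wc δ X`. -/
theorem wc_mem {I : Submodule K (Module.End K (κ → K))} (hI : IsIdeal L I)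
    {X : Module.End K (κ → K)} (hX : X ∈ I) (δ : Module.Dual ℚ (Yo L)) : wc L δ X ∈ I := by
  obtain ⟨s, h0, hs⟩ := wc_sum (L := L) X
  by_cases hδ : δ ∈ s
  · refine t6_mem hI s (fun δ => wc L δ X) (fun δ _ => wc_wt δ X) ?_ δ hδ
    rw [hs]
    exact hX
  · rw [h0 δ hδ]
    exact I.zero_mem

end Pool.Agent.H76P
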