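import Pool.Agent.Lib.H76P.T6

/-!
# T9: an sl2 pair
-/

set_option autoImplicit false
set_option linter.unusedSectionVars false
namespace Pool.Agent.H76P
open Module Matrix Pool.Agent.H53Toric
open Pool.Agent.H76T (IsIdeal Fam)
open Pool.Agent.H76V (Cmp alg calg)

variable {κ : Type*} {K : Type*} [Field K] [CharZero K] [Fintype κ] [DecidableEq κ]
  {L : Submodule K (Module.End K (κ → K))} {J : Matrix κ κ K} {ν : κ → ℚ}

/-- an operator whose weight is `2` or `-2` on `ε ∈ Hs L` has square zero -/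
theorem t9_sq {δ : Module.Dual ℚ (Yo L)} {X : Module.End K (κ → K)} (hX : IsWt L δ X)
    {ε : κ → ℚ} (hε : ε ∈ Hs L) (hδ : δ ⟨ε, Submodule.subset_span hε⟩ = 2 ∨
      δ ⟨ε, Submodule.subset_span hε⟩ = -2) : X * X = 0 := by
  refine LinearMap.toMatrix'.injective (Matrix.ext fun c d => ?_)
  rw [map_zero, Matrix.zero_apply]
  by_contra h0
  have h1 := (hX.mul hX).entry h0
  have h2 := LinearMap.congr_fun h1 ⟨ε, Submodule.subset_span hε⟩
  rw [LinearMap.sub_apply, LinearMap.add_apply, pt_apply, pt_apply] at h2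
  change ε c - ε d = _ at h2
  rcases hε.1 c with h3 | h3 <;> rcases hε.1 d with h4 | h4 <;> rcases hδ with h5 | h5 <;>
    rw [h3, h4, h5] at h2 <;> norm_num at h2

theorem t9_wc_zero (δ : Module.Dual ℚ (Yo L)) : wc L δ 0 = 0 := by
  have h := wc_linear (L := L) δ 0 0 1
  rw [smul_zero, add_zero, one_smul] at h
  have h2 : wc L δ 0 + 0 = wc L δ 0 + wc L δ 0 := by rw [add_zero]; exact h
  exact (add_left_cancel h2).symm

theorem t9_wc_add (δ : Module.Dual ℚ (Yo L)) (X Y : Module.End K (κ → K)) :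
    wc L δ (X + Y) = wc L δ X + wc L δ Y := by
  have h := wc_linear (L := L) δ X Y 1
  rwa [one_smul, one_smul] at h

theorem t9_wc_sum {ι : Type*} (s : Finset ι) (δ : Module.Dual ℚ (Yo L))
    (X : ι → Module.End K (κ → K)) : wc L δ (∑ i ∈ s, X i) = ∑ i ∈ s, wc L δ (X i) := by
  classical
  induction s using Finset.induction_on with
  | empty => rw [Finset.sum_empty, Finset.sum_empty, t9_wc_zero]
  | insert a s ha ih => rw [Finset.sum_insert ha, Finset.sum_insert ha, t9_wc_add, ih]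

/-- the partner may be replaced by its component of weight `-δ` -/
theorem t9_partner {δ : Module.Dual ℚ (Yo L)} {X X' : Module.End K (κ → K)} (hX : IsWt L δ X)
    (hXX : X * X' * X = X) : X * wc L (-δ) X' * X = X := by
  classical
  obtain ⟨s, hs1, hs2⟩ := wc_sum (L := L) X'
  have h1 : X = ∑ δ' ∈ s, wc L δ (X * wc L δ' X' * X) := by
    rw [← t9_wc_sum]
    have h2 : ∑ δ' ∈ s, X * wc L δ' X' * X = X := by
      rw [← Finset.sum_mul, ← Finset.mul_sum, hs2, hXX]
    rw [h2, hX.wc_self]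
  have h3 : ∀ δ' ∈ s, δ' ≠ -δ → wc L δ (X * wc L δ' X' * X) = 0 := by
    intro δ' _ hne
    refine ((hX.mul (wc_wt δ' X')).mul hX).wc_other fun h4 => hne ?_
    have h5 : δ + (δ' + δ) = δ + 0 := by rw [add_zero, ← add_assoc]; exact h4.symm
    exact eq_neg_of_add_eq_zero_left (add_left_cancel h5)
  have h6 : wc L δ (X * wc L (-δ) X' * X) = X * wc L (-δ) X' * X := by
    have h7 := ((hX.mul (wc_wt (-δ) X')).mul hX)
    rw [add_neg_cancel, zero_add] at h7
    exact h7.wc_self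
  by_cases hm : -δ ∈ s
  · rw [Finset.sum_eq_single_of_mem _ hm h3, h6] at h1
    exact h1.symm
  · rw [Finset.sum_eq_zero fun δ' hδ' => h3 δ' hδ' fun h8 => hm (h8 ▸ hδ')] at h1
    rw [h1, zero_mul, zero_mul]

variable [IsAlgClosed K] [Nonempty κ] {m : ℕ} {I : Fin m → Submodule K (Module.End K (κ → K))}

/-- PROOF. Let `δ = pt L a - pt L b`, so `δ ε = ε a - ε b` is `2` or `-2`.  `X * X` has weight `δ + δ` (`IsWt.mul`); if it had a nonzero
entry `(c, d)` then `pt L c - pt L d = δ + δ` (`IsWt.entry`), so `ε c - ε d` is `4` or `-4`, which is impossible.  So `X * X = 0`.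
`Cmp.partner` (H76V.VA2) gives `X' ∈ I j` with `X * X' * X = X`.  Let `X'' = wc L (-δ) X' ∈ I j` (`wc_mem`, `hF.ideal j`).  `X * X'' * X = X`:
`X'` is the sum of the `wc L δ' X'` (`wc_sum`), `X * wc L δ' X' * X` has weight `δ + δ' + δ`; apply the linear map `wc L δ` to
`X = X * X' * X` (`wc_linear`, `IsWt.wc_self`, `IsWt.wc_other`): only the term `δ' = -δ` remains.  `X'' * X'' = 0` for the same reason as
for `X`.  Let `Y = X'' * X * X''`.  `Y ∈ I j` since `[X'', [X, X'']] = 2 X'' X X''`.  Weight `-δ + δ - δ`.  `Y * Y = 0`,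
`X * Y * X = X X'' X X'' X = X`, `Y * X * Y = X'' X X'' X X'' X X'' = Y`. -/
theorem sl2_pair (h : Cmp L J) (hF : Fam L I) {j : Fin m} {X : Module.End K (κ → K)}
    (hX : X ∈ I j) {ε : κ → ℚ} (hε : ε ∈ Hs L) {a b : κ} (hab : ε a ≠ ε b)
    (hw : IsWt L (pt L a - pt L b) X) :
    ∃ Y ∈ I j, IsWt L (-(pt L a - pt L b)) Y ∧ X * X = 0 ∧ Y * Y = 0 ∧ X * Y * X = X ∧
      Y * X * Y = Y := by
  have hδ : (pt L a - pt L b) ⟨ε, Submodule.subset_span hε⟩ = 2 ∨
      (pt L a - pt L b) ⟨ε, Submodule.subset_span hε⟩ = -2 := by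
    rw [LinearMap.sub_apply, pt_apply, pt_apply]
    change ε a - ε b = 2 ∨ ε a - ε b = -2
    rcases hε.1 a with h3 | h3 <;> rcases hε.1 b with h4 | h4
    · exact absurd (h3.trans h4.symm) hab
    · left; rw [h3, h4]; norm_num
    · right; rw [h3, h4]; norm_num
    · exact absurd (h3.trans h4.symm) hab
  set δ : Module.Dual ℚ (Yo L) := pt L a - pt L b with hδdef
  have hδ' : (-δ) ⟨ε, Submodule.subset_span hε⟩ = 2 ∨
      (-δ) ⟨ε, Submodule.subset_span hε⟩ = -2 := by
    rw [LinearMap.neg_apply]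
    rcases hδ with h3 | h3
    · right; rw [h3]
    · left; rw [h3]; norm_num
  have hXX : X * X = 0 := t9_sq hw hε hδ
  obtain ⟨X', hX', hXX'⟩ := h.partner hF hX hXX
  have hZm : wc L (-δ) X' ∈ I j := wc_mem (hF.ideal j) hX' (-δ)
  have hZw : IsWt L (-δ) (wc L (-δ) X') := wc_wt _ _
  have hZZ : wc L (-δ) X' * wc L (-δ) X' = 0 := t9_sq hZw hε hδ'
  have hXZX : X * wc L (-δ) X' * X = X := t9_partner hw hXX'
  set Z := wc L (-δ) X' with hZdef
  refine ⟨Z * X * Z, ?_, ?_, hXX, ?_, ?_, ?_⟩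
  · have h1 : X * Z - Z * X ∈ I j := (hF.ideal j).2 X ((hF.ideal j).1 hX) Z hZm
    have h2 : Z * (X * Z - Z * X) - (X * Z - Z * X) * Z ∈ I j :=
      (hF.ideal j).2 Z ((hF.ideal j).1 hZm) _ h1
    have h3 : Z * (X * Z - Z * X) - (X * Z - Z * X) * Z = (2 : K) • (Z * X * Z) := by
      rw [mul_sub, sub_mul, ← mul_assoc, ← mul_assoc, hZZ, zero_mul, sub_zero, mul_assoc X Z Z, hZZ,
        mul_zero, zero_sub, sub_neg_eq_add, two_smul]
    rw [h3] at h2
    have h4 := (I j).smul_mem (2 : K)⁻¹ h2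
    rwa [smul_smul, inv_mul_cancel₀ (two_ne_zero), one_smul] at h4
  · have h1 := (hZw.mul hw).mul hZw
    rwa [neg_add_cancel, zero_add] at h1
  · have h1 : Z * X * Z * (Z * X * Z) = Z * X * (Z * Z) * (X * Z) := by simp only [mul_assoc]
    rw [h1, hZZ, mul_zero, zero_mul]
  · have h1 : X * (Z * X * Z) * X = (X * Z * X) * Z * X := by simp only [mul_assoc]
    rw [h1, hXZX, hXZX]
  · have h1 : Z * X * Z * X * (Z * X * Z) = Z * (((X * Z * X) * Z * X) * Z) := by
      simp only [mul_assoc]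
    rw [h1, hXZX, hXZX, mul_assoc]

end Pool.Agent.H76P
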