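import Pool.Agent.Lib.H76P.T2
import Pool.Agent.Lib.H76P.T8
import Pool.Agent.Lib.H76P.T9
import Pool.Agent.Lib.H76P.T10
import Pool.Agent.Lib.H76P.C6
import Pool.Agent.Lib.H76P.C7

/-!
# T11: small atoms
-/

set_option autoImplicit false
set_option linter.unusedSectionVars false
namespace Pool.Agent.H76P
open Module Matrix Pool.Agent.H53Toric
open Pool.Agent.H76T (IsIdeal Fam)
open Pool.Agent.H76V (Cmp alg calg)

variable {κ : Type*} {K : Type*} [Field K] [CharZero K] [Fintype κ] [DecidableEq κ]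
  {L : Submodule K (Module.End K (κ → K))} {J : Matrix κ κ K} {ν : κ → ℚ}
variable [IsAlgClosed K] [Nonempty κ] {m : ℕ} {I : Fin m → Submodule K (Module.End K (κ → K))}

/-- PROOF. Notation: `V = Dual ℚ (Yo L)`, `π = P.dualMap`, so `(π u) f = u (P f)`; `q * π = q`; by `Spl.comm` also `π * q = q`.
(1) There is `ε ∈ Hs L` with `(q u) ε = u ε` for all `u`: `q ≠ 0`, so there are `u`, `f` with `(q u) f ≠ 0`; `f` is in the span of `Hs L`, so
`(q u) ε ≠ 0` for some `ε ∈ Hs L` (as an element of `Yo L`); apply `two_values` (C6) with the functional `u ↦ u ε` on `V`.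
For all `u`: `u (P ε) = (π u) ε = (q (π u)) ε = ((q * π) u) ε = (q u) ε = u ε`, so `P ε = ε` and `dq ε ∈ I j` (`hP1`).
(2) There is `f' : Yo L`, `f' ≠ 0`, `P f' = f'`, `(q u) f' = 0` for all `u`: `r = π - q ≠ 0`, so `(r u) f ≠ 0` for some `u`, `f`.  As `Yo L` is finite
dimensional, there is `f'` with `u f' = (r u) f` for all `u` (the functional `u ↦ (r u) f` on `V`, reflexivity).  `f' ≠ 0`.
`(q u) f' = (r (q u)) f = ((π * q - q * q) u) f = 0`.  `u (P f') = (π u) f' = (r (π u)) f = ((π * π - q * π) u) f = (r u) f = u f'`, so `P f' = f'` and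
`dq f' ∈ I j`.
(3) `mixed_root` for `ε`, `f'` gives `X`, `a`, `b`; let `δ = pt L a - pt L b`.  `(q δ) ε = δ ε = ε a - ε b ≠ 0`, so `q δ ≠ 0`.
`((1 - q) δ) f' = δ f' = f' a - f' b ≠ 0`, so `(1 - q) δ ≠ 0`.
(4) `sl2_pair`, `coroot` give `fv`; `root_two` (C7) with the functional `u ↦ u fv`. -/
theorem TC.atom_two (h : TC L J ν) (hF : Fam L I) {j : Fin m} {P : Module.End ℚ (Yo L)}
    (hP1 : ∀ f, dq (P f : κ → ℚ) ∈ I j)
    (hP2 : ∀ f : Yo L, dq (f : κ → ℚ) ∈ I j → P f = f) (hPS : Spl (pt L) P.dualMap)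
    {q : Module.End ℚ (Module.Dual ℚ (Yo L))} (hq : Atom (pt L) q) (hqP : q * P.dualMap = q)
    (hne : q ≠ P.dualMap) : cnt (pt L) q = 2 := by
  have hs : Spans (pt L) := pt_spans h.cmp
  have hcomm := Spl.comm hs hq.1 hPS
  have hπq : ∀ u, P.dualMap (q u) = q u := fun u => by
    have h1 : (P.dualMap * q) u = q u := by rw [← hcomm, hqP]
    exact h1
  have hqπ : ∀ u, q (P.dualMap u) = q u := fun u => by
    have h1 : (q * P.dualMap) u = q u := by rw [hqP]
    exact h1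
  have hππ : ∀ u, P.dualMap (P.dualMap u) = P.dualMap u := fun u => by
    have h1 : (P.dualMap * P.dualMap) u = P.dualMap u := by rw [hPS.1]
    exact h1
  have hqq : ∀ u, q (q u) = q u := fun u => by
    have h1 : (q * q) u = q u := by rw [hq.1.1]
    exact h1
  have hπ : ∀ (u : Module.Dual ℚ (Yo L)) (f : Yo L), u (P f) = P.dualMap u f := fun u f => by
    rw [LinearMap.dualMap_apply]
  have hsep : ∀ f g : Yo L, (∀ u : Module.Dual ℚ (Yo L), u f = u g) → f = g := by
    intro f g hfg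
    rw [← sub_eq_zero, ← Module.forall_dual_apply_eq_zero_iff ℚ]
    intro u
    rw [map_sub, hfg u, sub_self]
  -- (1)
  have hstep1 : ∃ (ε : κ → ℚ) (hε : ε ∈ Hs L), ∀ u : Module.Dual ℚ (Yo L),
      q u ⟨ε, Submodule.subset_span hε⟩ = u ⟨ε, Submodule.subset_span hε⟩ := by
    have h1 : ∃ u, q u ≠ 0 := by
      by_contra h2
      push Not at h2
      exact hq.2.1 (LinearMap.ext h2)
    obtain ⟨u, hu⟩ := h1
    have h2 : ∃ (ε : κ → ℚ) (hε : ε ∈ Hs L), q u ⟨ε, Submodule.subset_span hε⟩ ≠ 0 := by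
      by_contra h3
      push Not at h3
      apply hu
      refine LinearMap.ext fun f => ?_
      obtain ⟨f, hf⟩ := f
      rw [LinearMap.zero_apply]
      have key : ∀ (f : κ → ℚ) (hf : f ∈ Submodule.span ℚ (Hs L)), q u ⟨f, hf⟩ = 0 := by
        intro f hf
        induction hf using Submodule.span_induction with
        | mem ε hε => exact h3 ε hε
        | zero => exact map_zero (q u)
        | add a b ha hb ha' hb' =>
          have e : (⟨a + b, Submodule.add_mem _ ha hb⟩ : Yo L) = ⟨a, ha⟩ + ⟨b, hb⟩ := rfl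
          exact (congrArg (q u) e).trans (by rw [map_add, ha', hb', add_zero])
        | smul c a ha ha' =>
          have e : (⟨c • a, Submodule.smul_mem _ c ha⟩ : Yo L) = c • ⟨a, ha⟩ := rfl
          exact (congrArg (q u) e).trans (by rw [map_smul, ha', smul_zero])
      exact key f hf
    obtain ⟨ε, hε, h3⟩ := h2
    refine ⟨ε, hε, ?_⟩
    rcases two_values hs hq.1
      (ε := Module.Dual.eval ℚ (Yo L) ⟨ε, Submodule.subset_span hε⟩) (e := ε)
      (fun a b => rfl) hε.1 with h4 | h4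
    · exact h4
    · exact absurd (h4 u) h3
  obtain ⟨ε, hε, hqε⟩ := hstep1
  have hPε : P ⟨ε, Submodule.subset_span hε⟩ = ⟨ε, Submodule.subset_span hε⟩ := by
    apply hsep
    intro u
    rw [hπ, ← hqε (P.dualMap u), hqπ, hqε]
  have hεj : dq ε ∈ I j := by
    have h1 := hP1 ⟨ε, Submodule.subset_span hε⟩
    rwa [hPε] at h1
  -- (2)
  have hstep2 : ∃ f' : Yo L, f' ≠ 0 ∧ P f' = f' ∧ ∀ u, q u f' = 0 := by
    have h1 : ∃ u, P.dualMap u - q u ≠ 0 := by
      by_contra h2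
      push Not at h2
      apply hne
      refine LinearMap.ext fun u => ?_
      exact (sub_eq_zero.1 (h2 u)).symm
    obtain ⟨u₀, hu₀⟩ := h1
    have h2 : ∃ f₀, (P.dualMap u₀ - q u₀) f₀ ≠ 0 := by
      by_contra h3
      push Not at h3
      exact hu₀ (LinearMap.ext h3)
    obtain ⟨f₀, hf₀⟩ := h2
    let φ : Module.Dual ℚ (Module.Dual ℚ (Yo L)) :=
      (Module.Dual.eval ℚ (Yo L) f₀) ∘ₗ (P.dualMap - q)
    let f' : Yo L := (Module.evalEquiv ℚ (Yo L)).symm φ
    have hf' : ∀ u : Module.Dual ℚ (Yo L), u f' = (P.dualMap u - q u) f₀ := by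
      intro u
      have h3 : u f' = φ u := Module.apply_evalEquiv_symm_apply ℚ (Yo L) u φ
      rw [h3]
      rfl
    refine ⟨f', ?_, ?_, ?_⟩
    · intro h3
      apply hf₀
      rw [← hf' u₀, h3, map_zero]
    · apply hsep
      intro u
      rw [hπ, hf', hππ, hqπ, ← hf']
    · intro u
      rw [hf', hπq, hqq, sub_self, LinearMap.zero_apply]
  obtain ⟨f', hf'0, hPf', hqf'⟩ := hstep2
  have hf'j : dq (f' : κ → ℚ) ∈ I j := by
    have h1 := hP1 f'
    rwa [hPf'] at h1
  -- (3)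
  obtain ⟨X, hX, a, b, hX0, hab, hab', hw⟩ := mixed_root h.cmp hF hε hεj f'.2 hf'j
    (fun h0 => hf'0 (Subtype.ext h0))
  -- (4)
  obtain ⟨Y, hY, hwY, hXX, hYY, hXYX, hYXY⟩ := sl2_pair h.cmp hF hX hε hab hw
  obtain ⟨fv, hfv, hv1, hv2, hv3, hv4⟩ := coroot h hF hX hY hX0 hw hwY hXX hYY hXYX hYXY
  refine root_two hs hq (δ := pt L a - pt L b) (f := Module.Dual.eval ℚ (Yo L) ⟨fv, hfv⟩)
    (fv := fv) (fun a b => rfl) hv1 hv2 hv3 hv4 ?_ ?_
  · intro h0
    have h1 := hqε (pt L a - pt L b)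
    rw [h0, LinearMap.zero_apply, LinearMap.sub_apply, pt_apply, pt_apply] at h1
    exact hab (sub_eq_zero.1 h1.symm)
  · intro h0
    have h1 := LinearMap.congr_fun h0 f'
    rw [LinearMap.sub_apply, Module.End.one_apply, LinearMap.sub_apply, hqf', sub_zero,
      LinearMap.sub_apply, pt_apply, pt_apply, LinearMap.zero_apply] at h1
    exact hab' (sub_eq_zero.1 h1)

end Pool.Agent.H76P
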