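import Pool.Agent.Lib.H76P.T0

/-!
# T1: first facts
-/

set_option autoImplicit false
set_option linter.unusedSectionVars false
namespace Pool.Agent.H76P
open Module Matrix Pool.Agent.H53Toric
open Pool.Agent.H76T (IsIdeal Fam)
open Pool.Agent.H76V (Cmp)

variable {κ : Type*} {K : Type*} [Field K] [CharZero K] [Fintype κ] [DecidableEq κ]
  {L : Submodule K (Module.End K (κ → K))} {J : Matrix κ κ K} {ν : κ → ℚ}

/-- PROOF. Matrix of `dg f` is diagonal: `LinearMap.trace` is the sum of the diagonal entries (`dg f = Matrix.toLin' (Matrix.diagonal f)`). -/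
theorem dg_trace (f : κ → K) : LinearMap.trace K (κ → K) (dg f) = ∑ a, f a := by
  have e : dg f = Matrix.toLin' (Matrix.diagonal f) := by
    refine LinearMap.ext fun v => funext fun a => ?_
    rw [dg_apply, Matrix.toLin'_apply, Matrix.mulVec_diagonal]
  rw [e, Matrix.trace_toLin'_eq, Matrix.trace_diagonal]

theorem dq_sq {ε : κ → ℚ} (h : ∀ a, ε a = 1 ∨ ε a = -1) :
    (dq ε : Module.End K (κ → K)) * dq ε = 1 := by
  unfold dq
  rw [dg_mul, ← dg_one]
  congr 1
  funext a
  rw [Pi.mul_apply, Pi.one_apply]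
  rcases h a with h1 | h1 <;> rw [h1] <;> norm_num

/-- `dq` is additive and compatible with rational scalars. -/
theorem dq_add (f g : κ → ℚ) : (dq (f + g) : Module.End K (κ → K)) = dq f + dq g := by
  unfold dq
  rw [← dg_add]
  congr 1
  funext a
  rw [Pi.add_apply, Pi.add_apply, Rat.cast_add]

theorem dq_smul (c : ℚ) (f : κ → ℚ) :
    (dq (c • f) : Module.End K (κ → K)) = (c : K) • dq f := by
  unfold dq
  rw [← dg_smul]
  congr 1
  funext a
  rw [Pi.smul_apply, Pi.smul_apply, smul_eq_mul, smul_eq_mul, Rat.cast_mul]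

theorem dq_inj {f g : κ → ℚ} (h : (dq f : Module.End K (κ → K)) = dq g) : f = g := by
  have h1 := dg_inj h
  funext a
  have h2 : (f a : K) = (g a : K) := congrFun h1 a
  exact_mod_cast h2

/-- PROOF. `Submodule.span_induction`, `dq_add`, `dq_smul`. -/
theorem Yo_mem {f : κ → ℚ} (hf : f ∈ Yo L) : dq f ∈ L := by
  unfold Yo at hf
  induction hf using Submodule.span_induction with
  | mem x hx => exact hx.2
  | zero =>
    have h1 : (dq (0 : κ → ℚ) : Module.End K (κ → K)) = 0 := by
      have h2 := dq_smul (K := K) (0 : ℚ) (0 : κ → ℚ)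
      rw [zero_smul, Rat.cast_zero, zero_smul] at h2
      exact h2
    rw [h1]
    exact L.zero_mem
  | add x y _ _ hx hy =>
    rw [dq_add]
    exact L.add_mem hx hy
  | smul c x _ hx =>
    rw [dq_smul]
    exact L.smul_mem _ hx

/-- PROOF. `Yo_mem`, `Cmp.tr`, `dg_trace` (the cast of rational numbers to `K` is injective). -/
theorem Yo_sum (h : Cmp L J) {f : κ → ℚ} (hf : f ∈ Yo L) : ∑ a, f a = 0 := by
  have h1 := h.tr _ (Yo_mem hf)
  unfold dq at h1
  rw [dg_trace] at h1
  exact_mod_cast h1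

/-- PROOF. `vid` for the ideal `L` (`h.cmp.lie`, `Core1.IsLie`), then `diag`. -/
theorem TC.nu_mem (h : TC L J ν) : ν ∈ Yo L := by
  obtain ⟨ε, he, hv⟩ := h.vid
  exact h.diag ν (hv L ⟨le_rfl, fun X hX Y hY => h.cmp.lie X hX Y hY⟩ he.2)

/-- PROOF. `f = ν ∘ σ` with `σ` as in `gal`. -/
theorem TC.sep (h : TC L J ν) {a b : κ} (hab : a ≠ b) : ∃ f ∈ Yo L, f a ≠ f b := by
  obtain ⟨σ, h1, h2⟩ := h.gal a b hab
  exact ⟨ν ∘ σ, h1 ν h.nu_mem, h2⟩

/-- PROOF. The entry `(a, b)` of the matrix of `X` (`a ≠ b`) is zero: with `f` as in `TC.sep` compare the entries `(a, b)` of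
`X * dq f` and `dq f * X`. -/
theorem TC.diag_of_comm (h : TC L J ν) {X : Module.End K (κ → K)}
    (hX : ∀ f ∈ Yo L, X * dq f = dq f * X) : ∃ g : κ → K, X = dg g := by
  have hz : ∀ a b : κ, a ≠ b → X (Pi.single b 1) a = 0 := by
    intro a b hab
    obtain ⟨f, hf, hne⟩ := h.sep hab
    have h1 := congrFun (congrArg (fun T : Module.End K (κ → K) => T (Pi.single b 1)) (hX f hf)) a
    simp only [Module.End.mul_apply] at h1
    have h2 : (dq f : Module.End K (κ → K)) (Pi.single b 1) = (f b : K) • Pi.single b (1 : K) := by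
      funext c
      unfold dq
      rw [dg_apply, Pi.smul_apply, smul_eq_mul]
      by_cases hc : c = b
      · rw [hc]
      · rw [Pi.single_eq_of_ne hc, mul_zero, mul_zero]
    rw [h2, map_smul, Pi.smul_apply, smul_eq_mul] at h1
    unfold dq at h1
    rw [dg_apply] at h1
    have h3 : ((f b : K) - (f a : K)) * X (Pi.single b 1) a = 0 := by
      rw [sub_mul, h1, sub_self]
    rcases mul_eq_zero.1 h3 with h4 | h4
    · exfalso
      apply hne
      have h5 : (f b : K) = (f a : K) := sub_eq_zero.1 h4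
      exact_mod_cast h5.symm
    · exact h4
  refine ⟨fun a => X (Pi.single a 1) a, ?_⟩
  refine LinearMap.pi_ext' fun b => LinearMap.ext_ring (funext fun a => ?_)
  show X (Pi.single b 1) a = dg (fun a => X (Pi.single a 1) a) (Pi.single b 1) a
  rw [dg_apply]
  by_cases hab : a = b
  · rw [hab, Pi.single_eq_same, mul_one]
  · rw [hz a b hab, Pi.single_eq_of_ne hab, mul_zero]

end Pool.Agent.H76P
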