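import Pool.Agent.Lib.H76P.G0

/-!
# G5: linear algebra over Q
-/

set_option autoImplicit false
set_option linter.unusedSectionVars false
namespace Pool.Agent.H76P
open Module Matrix

variable {K : Type*} [Field K] [CharZero K] {κ : Type*} [Fintype κ] [DecidableEq κ]

/-- The cast of a rational vector. -/
def cst (K : Type*) [Field K] {κ : Type*} (f : κ → ℚ) : κ → K := fun k => (f k : K)

/-- A vector which is killed by all forms killing `s` is in the span of `s`. -/
theorem g5_mem {F : Type*} [Field F] {κ : Type*} [Fintype κ] [DecidableEq κ] {s : Set (κ → F)} {g : κ → F}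
    (h : ∀ m : κ → F, (∀ u ∈ s, ∑ k, m k * u k = 0) → ∑ k, m k * g k = 0) : g ∈ Submodule.span F s := by
  by_contra hg
  obtain ⟨φ, h1, h2⟩ := Submodule.exists_le_ker_of_notMem hg
  have key : ∀ v : κ → F, φ v = ∑ k, φ (Pi.single k 1) * v k := by
    intro v
    have e : v = ∑ k, v k • (Pi.single k (1 : F) : κ → F) := by
      ext x
      simp [Finset.sum_apply, Pi.single_apply]
    conv_lhs => rw [e]
    rw [map_sum]
    refine Finset.sum_congr rfl fun k _ => ?_
    rw [map_smul, smul_eq_mul, mul_comm]
  apply h1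
  rw [key]
  apply h
  intro u hu
  rw [← key]
  exact h2 (Submodule.subset_span hu)

/-- common denominator -/
theorem g5_den {κ : Type*} [Fintype κ] (c : κ → ℚ) : ∃ (n : ℤ) (m : κ → ℤ), n ≠ 0 ∧ ∀ k, (n : ℚ) * c k = m k := by
  classical
  refine ⟨∏ k, ((c k).den : ℤ), fun k => (∏ j ∈ Finset.univ.erase k, ((c j).den : ℤ)) * (c k).num, ?_, ?_⟩
  · exact Finset.prod_ne_zero_iff.2 fun k _ => by exact_mod_cast (c k).den_nz
  · intro k
    have h1 := Finset.prod_erase_mul Finset.univ (fun j => ((c j).den : ℤ)) (Finset.mem_univ k)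
    rw [← h1]
    push_cast
    rw [mul_assoc, mul_comm ((c k).den : ℚ), Rat.mul_den_eq_num]

/-- PROOF. Let `U = span ℚ s` and choose a basis `(k_i)` of `K` over `ℚ`; write `f = ∑ k_i f_i` with `f_i : κ → ℚ`.  For each `m : κ → ℤ` which is
orthogonal to `s`, `∑ m_k f_k = 0` implies `∑ m_k (f_i)_k = 0` for all `i`.  So `f_i` is orthogonal to all integral, hence to all rational vectors
which are orthogonal to `U`, and `f_i ∈ U` (a subspace of `ℚ ^ κ` is the orthogonal of its orthogonal).  (Alternatively: choose a basis of the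
orthogonal of `U` and compare dimensions over `K`.) -/
theorem mem_spanK {s : Set (κ → ℚ)} {f : κ → K}
    (h : ∀ m : κ → ℤ, (∀ u ∈ s, ∑ k, (m k : ℚ) * u k = 0) → ∑ k, (m k : K) * f k = 0) :
    f ∈ Submodule.span K (cst K '' s) := by
  apply g5_mem
  intro M hM
  let b := Module.Free.chooseBasis ℚ K
  let I := Finset.univ.biUnion fun k => (b.repr (M k)).support
  have hexp : ∀ k, M k = ∑ i ∈ I, (b.repr (M k) i) • b i := by
    intro k
    conv_lhs => rw [← b.linearCombination_repr (M k)]
    rw [Finsupp.linearCombination_apply]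
    refine Finsupp.sum_of_support_subset _ (Finset.subset_biUnion_of_mem
      (fun k => (b.repr (M k)).support) (Finset.mem_univ k)) _ ?_
    intro i _
    rw [zero_smul]
  have horth : ∀ i, ∀ u ∈ s, ∑ k, (b.repr (M k) i) * u k = 0 := by
    intro i u hu
    have h1 := hM (cst K u) ⟨u, hu, rfl⟩
    have h2 : b.repr (∑ k, M k * cst K u k) i = ∑ k, (b.repr (M k) i) * u k := by
      rw [map_sum, Finsupp.finsetSum_apply]
      refine Finset.sum_congr rfl fun k _ => ?_
      have h3 : M k * cst K u k = (u k) • M k := by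
        rw [Algebra.smul_def, mul_comm]
        rfl
      rw [h3, map_smul, Finsupp.smul_apply, smul_eq_mul, mul_comm]
    rw [← h2, h1, map_zero]
    rfl
  have hker : ∀ i, ∑ k, ((b.repr (M k) i : ℚ) : K) * f k = 0 := by
    intro i
    obtain ⟨n, m, hn, hm⟩ := g5_den fun k => b.repr (M k) i
    have h1 := h m (fun u hu => by
      have h2 := horth i u hu
      calc ∑ k, (m k : ℚ) * u k = ∑ k, (n : ℚ) * ((b.repr (M k) i) * u k) := by
            refine Finset.sum_congr rfl fun k _ => ?_
            rw [← hm k, mul_assoc]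
        _ = 0 := by rw [← Finset.mul_sum, h2, mul_zero])
    have h3 : (n : K) * ∑ k, ((b.repr (M k) i : ℚ) : K) * f k = 0 := by
      rw [← h1, Finset.mul_sum]
      refine Finset.sum_congr rfl fun k _ => ?_
      have h4 : (m k : K) = (n : K) * ((b.repr (M k) i : ℚ) : K) := by
        have h5 := congrArg (Rat.cast : ℚ → K) (hm k)
        push_cast at h5
        exact h5.symm
      rw [h4, mul_assoc]
    have hnK : (n : K) ≠ 0 := by exact_mod_cast hn
    exact (mul_eq_zero.1 h3).resolve_left hnK
  calc ∑ k, M k * f k = ∑ k, ∑ i ∈ I, b i * (((b.repr (M k) i : ℚ) : K) * f k) := by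
        refine Finset.sum_congr rfl fun k _ => ?_
        conv_lhs => rw [hexp k]
        rw [Finset.sum_mul]
        refine Finset.sum_congr rfl fun i _ => ?_
        rw [Algebra.smul_def]
        show ((b.repr (M k) i : ℚ) : K) * b i * f k = _
        ring
    _ = ∑ i ∈ I, b i * ∑ k, ((b.repr (M k) i : ℚ) : K) * f k := by
        rw [Finset.sum_comm]
        refine Finset.sum_congr rfl fun i _ => ?_
        rw [Finset.mul_sum]
    _ = 0 := by
        refine Finset.sum_eq_zero fun i _ => ?_
        rw [hker i, mul_zero]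

/-- PROOF. Every rational `m` orthogonal to `s` is orthogonal to `f` (over `K`, hence over `ℚ`), so `f` is in the orthogonal of the
orthogonal of `span ℚ s`. -/
theorem rat_of_spanK {s : Set (κ → ℚ)} {f : κ → ℚ}
    (h : cst K f ∈ Submodule.span K (cst K '' s)) : f ∈ Submodule.span ℚ s := by
  apply g5_mem
  intro m hm
  let φ : (κ → K) →ₗ[K] K := ∑ k, (m k : K) • LinearMap.proj k
  have hφ : ∀ v, φ v = ∑ k, (m k : K) * v k := by
    intro v
    simp [φ, LinearMap.sum_apply]
  have hle : Submodule.span K (cst K '' s) ≤ LinearMap.ker φ := by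
    rw [Submodule.span_le]
    rintro _ ⟨u, hu, rfl⟩
    show φ (cst K u) = 0
    rw [hφ]
    have h1 := congrArg (Rat.cast : ℚ → K) (hm u hu)
    push_cast at h1
    exact h1
  have h2 : φ (cst K f) = 0 := hle h
  rw [hφ] at h2
  have h3 : ((∑ k, m k * f k : ℚ) : K) = ((0 : ℚ) : K) := by
    push_cast
    exact h2
  exact Rat.cast_injective h3

end Pool.Agent.H76P
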