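import Pool.Agent.Lib.H76P.G0

/-!
# G1: conjugation; infinitesimal similitudes
-/

set_option autoImplicit false
set_option linter.unusedSectionVars false
namespace Pool.Agent.H76P
open Module Matrix Pool.Agent.H53Toric
open Pool.Agent.H76RM (van zlie_commute)
open Pool.Agent.H76U (preL cmp Split4)
open Pool.Agent.H76V (SH)
open Pool.Agent.H76T (Lc mem_Lc)
open Pool.Agent.H76U (tw)

variable {ι : Type*} [Fintype ι] [DecidableEq ι] {K : Type*} [Field K] [CharZero K]

/-- PROOF. `H76F.zlie_conj'`: for `f ∈ van S`, `s ∈ S` the matrix `x * s * x'` is in `zar S` (`H53Toric.zar_mul`, `H53Toric.subset_zar`, and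
`H76U.zar_inv` for `x'`), so `ev (x * s * x') f = 0`; the same for `x' * s * x`. -/
theorem zlie_cnj {S : Set (Matrix ι ι K)} (hS1 : (1 : Matrix ι ι K) ∈ S)
    (hS : ∀ a ∈ S, ∀ b ∈ S, a * b ∈ S) {x x' : Matrix ι ι K} (hx : x ∈ zar S)
    (hxx : x * x' = 1) {A : Matrix ι ι K} (hA : A ∈ zlie S) : x * A * x' ∈ zlie S := by
  have hx' : x' ∈ zar S := Pool.Agent.H76U.zar_inv hS1 hS hx (mul_eq_one_comm.1 hxx)
  refine Pool.Agent.H76F.zlie_conj' hxx ?_ ?_ hA
  · intro f hf s hs
    exact zar_mul hS (zar_mul hS hx (subset_zar S hs)) hx' f hf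
  · intro f hf s hs
    exact zar_mul hS (zar_mul hS hx' (subset_zar S hs)) hx f hf

theorem g1_der {A : Matrix ι ι K} {f : MvPolynomial (ι × ι) K} {p : Polynomial K}
    (h : ∀ t : K, ev (1 + t • A) f = p.eval t) :
    ev (1 : Matrix ι ι K) (der A f) = (Polynomial.derivative p).eval 0 := by
  rw [← eval_derivative_lin]
  have h1 : lin (1 : Matrix ι ι K) (1 * A) f = p := by
    apply Polynomial.funext
    intro t
    rw [eval_lin, one_mul, h]
  rw [h1]

/-- the polynomial whose value at `s` is the entry of `sᵀ * J * s` -/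
noncomputable def g1_pol (J : Matrix ι ι K) (i j : ι) : MvPolynomial (ι × ι) K :=
  ∑ a, (∑ b, MvPolynomial.X (b, i) * MvPolynomial.C (J b a)) * MvPolynomial.X (a, j)

theorem g1_ev (J s : Matrix ι ι K) (i j : ι) : ev s (g1_pol J i j) = (sᵀ * J * s) i j := by
  unfold g1_pol
  rw [map_sum, Matrix.mul_apply]
  refine Finset.sum_congr rfl fun a _ ↦ ?_
  rw [map_mul, map_sum, ev_X, Matrix.mul_apply]
  congr 1
  refine Finset.sum_congr rfl fun b _ ↦ ?_
  rw [map_mul, ev_C, ev_X, Matrix.transpose_apply]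

theorem g1_exp (J A : Matrix ι ι K) (t : K) :
    (1 + t • A)ᵀ * J * (1 + t • A) = J + t • (Aᵀ * J + J * A) + (t * t) • (Aᵀ * J * A) := by
  rw [Matrix.transpose_add, Matrix.transpose_one, Matrix.transpose_smul]
  simp only [add_mul, mul_add, one_mul, mul_one, smul_mul_assoc, mul_smul_comm, smul_add, smul_smul]
  abel

/-- PROOF. Let `J k l ≠ 0`.  For all `i`, `j` the polynomial function `s ↦ J k l * (sᵀ * J * s) i j - J i j * (sᵀ * J * s) k l` vanishes on `S`
(on `S` it is `J k l * c * J i j - J i j * c * J k l`).  Its derivative in the direction `A` at `1 ∈ S` is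
`J k l * (Aᵀ * J + J * A) i j - J i j * (Aᵀ * J + J * A) k l`, so this is `0` and `c = (Aᵀ * J + J * A) k l / J k l` works.  (Work with a
polynomial in `MvPolynomial (ι × ι) K`, `der`, `der_X`, `Derivation.leibniz` as in `H53Toric.Zar`, or use
`H53Toric.eval_derivative_lin`: the derivative at `0` of the polynomial `t ↦ f (1 + t A)`.) -/
theorem zlie_sim {S : Set (Matrix ι ι K)} (hS1 : (1 : Matrix ι ι K) ∈ S) {J : Matrix ι ι K}
    (hJ : J ≠ 0) (hsim : ∀ s ∈ S, ∃ c : K, sᵀ * J * s = c • J) {A : Matrix ι ι K}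
    (hA : A ∈ zlie S) : ∃ c : K, Aᵀ * J + J * A = c • J := by
  obtain ⟨k, l, hkl⟩ : ∃ k l, J k l ≠ 0 := by
    by_contra hcon
    push Not at hcon
    exact hJ (by ext i j; exact hcon i j)
  refine ⟨(Aᵀ * J + J * A) k l / J k l, ?_⟩
  ext i j
  set f : MvPolynomial (ι × ι) K := MvPolynomial.C (J k l) * g1_pol J i j -
    MvPolynomial.C (J i j) * g1_pol J k l with hf
  have hev : ∀ s : Matrix ι ι K, ev s f = J k l * (sᵀ * J * s) i j - J i j * (sᵀ * J * s) k l := by
    intro s
    rw [hf, map_sub, map_mul, map_mul, ev_C, ev_C, g1_ev, g1_ev]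
  have h0 : ∀ s ∈ S, ev s f = 0 := by
    intro s hs
    obtain ⟨c, hc⟩ := hsim s hs
    rw [hev, hc, Matrix.smul_apply, Matrix.smul_apply, smul_eq_mul, smul_eq_mul]
    ring
  have h1 := hA f h0 1 hS1
  have h2 := g1_der (A := A) (f := f) (p := Polynomial.X * Polynomial.C (J k l * (Aᵀ * J + J * A) i j -
    J i j * (Aᵀ * J + J * A) k l) + Polynomial.X ^ 2 * Polynomial.C (J k l * (Aᵀ * J * A) i j -
    J i j * (Aᵀ * J * A) k l)) (by
      intro t
      rw [hev, g1_exp]
      simp only [Matrix.add_apply, Matrix.smul_apply, smul_eq_mul, Polynomial.eval_add, Polynomial.eval_mul,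
        Polynomial.eval_X, Polynomial.eval_C, Polynomial.eval_pow]
      ring)
  rw [h1] at h2
  simp only [Polynomial.derivative_add, Polynomial.derivative_mul, Polynomial.derivative_X,
    Polynomial.derivative_C, Polynomial.derivative_X_pow, Polynomial.eval_add, Polynomial.eval_mul,
    Polynomial.eval_X, Polynomial.eval_C, Polynomial.eval_pow, one_mul, mul_zero, add_zero, zero_mul,
    Polynomial.eval_one, Polynomial.eval_zero] at h2
  norm_num at h2
  rw [Matrix.smul_apply, smul_eq_mul, div_mul_eq_mul_div, eq_div_iff hkl, Matrix.add_apply, Matrix.add_apply]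
  linear_combination -h2

end Pool.Agent.H76P
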