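import Pool.Agent.Lib.H76P.G0
import Pool.Agent.Lib.H76P.G1

/-!
# G2: the Lie algebra of the closure of the powers of a diagonalisable matrix
-/

set_option autoImplicit false
set_option linter.unusedSectionVars false
namespace Pool.Agent.H76P
open Module Matrix Pool.Agent.H53Toric
open Pool.Agent.H76RM (van zlie_commute)
open Pool.Agent.H76U (preL cmp Split4)
open Pool.Agent.H76V (SH)
open Pool.Agent.H76T (Lc mem_Lc)
open Pool.Agent.H76U (tw)

variable {ι : Type*} [Fintype ι] [DecidableEq ι] {K : Type*} [Field K] [CharZero K]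

theorem g2_prod (f : ι → K) (m : ι → ℕ) :
    (Polynomial.derivative (∏ k, (1 + Polynomial.X * Polynomial.C (f k)) ^ m k)).eval 0 =
      ∑ k, (m k : K) * f k := by
  rw [Polynomial.derivative_prod_finset, Polynomial.eval_finsetSum]
  refine Finset.sum_congr rfl fun k _ => ?_
  rw [Polynomial.eval_mul, Polynomial.eval_prod, Finset.prod_eq_one]
  · rw [Polynomial.derivative_pow]
    simp
  · intro j _
    simp

/-- PROOF. Put `S = {φ ^ n}`; `1 ∈ S`; `Q * φ ^ n * P = (diagonal d) ^ n` (`H76T.diag_pow'`).  For each polynomial function `f` which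
vanishes on `S` the derivative at `1` in the direction `X` vanishes: `ev 1 (der X f) = 0` (`H53Toric.eval_derivative_lin` with `x = 1`: this is the
derivative at `t = 0` of `f (1 + t X)`).  The entries of `Q * y * P` are (linear) polynomials in `y` (`H76T.entry_poly`).
(1) `i ≠ j`: `f y = (Q * y * P) i j` vanishes on `S`, so `(Q * X * P) i j = 0`.  So `Q * X * P = diagonal f` with
`f k = (Q * X * P) k k` and `X = P * diagonal f * Q`.
(2) Let `m : ι → ℤ`, `∏ k, d k ^ m k = 1`, `m = m₊ - m₋` with natural numbers.  The polynomial function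
`∏ k, (Q * y * P) k k ^ m₊ k - ∏ k, (Q * y * P) k k ^ m₋ k` vanishes on `S` (`H76T.pow_mul_rel` says this for the closure).  Its derivative at
`y = 1`, where `(Q * 1 * P) k k = 1`, in the direction `X` is `∑ k, m₊ k * f k - ∑ k, m₋ k * f k = ∑ k, m k * f k`. -/
theorem zlie_pow {P Q : Matrix ι ι K} {d : ι → K} (hPQ : P * Q = 1) (hQP : Q * P = 1)
    (hd : ∀ k, d k ≠ 0) {φ : Matrix ι ι K} (hφ : φ = P * Matrix.diagonal d * Q)
    {X : Matrix ι ι K} (hX : X ∈ zlie {m | ∃ n : ℕ, m = φ ^ n}) :
    ∃ f : ι → K, X = P * Matrix.diagonal f * Q ∧ LogLin d f := by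
  have h1S : (1 : Matrix ι ι K) ∈ {m | ∃ n : ℕ, m = φ ^ n} := ⟨0, by rw [pow_zero]⟩
  have hline : ∀ (t : K) (i j : ι), (Q * (1 + t • X) * P) i j = (1 : Matrix ι ι K) i j + t * (Q * X * P) i j := by
    intro t i j
    rw [mul_add, add_mul, mul_one, hQP, Matrix.add_apply, mul_smul_comm, smul_mul_assoc, Matrix.smul_apply,
      smul_eq_mul]
  choose g hg using fun i j => Pool.Agent.H76T.entry_poly P Q i j
  have hoff : ∀ i j, i ≠ j → (Q * X * P) i j = 0 := by
    intro i j hij
    have h0 : ∀ s ∈ {m | ∃ n : ℕ, m = φ ^ n}, ev s (g i j) = 0 := by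
      rintro _ ⟨n, rfl⟩
      rw [hg, Pool.Agent.H76T.diag_pow' hφ hPQ hQP, Matrix.diagonal_pow, Matrix.diagonal_apply_ne _ hij]
    have h1 := hX (g i j) h0 1 h1S
    have h2 := g1_der (A := X) (f := g i j) (p := Polynomial.X * Polynomial.C ((Q * X * P) i j)) (by
      intro t
      rw [hg, hline, Matrix.one_apply_ne hij, Polynomial.eval_mul, Polynomial.eval_X, Polynomial.eval_C, zero_add, mul_comm])
    rw [h1] at h2
    simpa using h2.symm
  set f : ι → K := fun k => (Q * X * P) k k with hf
  have hdiag : Q * X * P = Matrix.diagonal f := by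
    ext i j
    by_cases hij : i = j
    · subst hij
      rw [Matrix.diagonal_apply_eq]
    · rw [Matrix.diagonal_apply_ne _ hij, hoff i j hij]
  refine ⟨f, ?_, ?_⟩
  · rw [← hdiag]
    calc X = (P * Q) * X * (P * Q) := by rw [hPQ, one_mul, mul_one]
      _ = P * (Q * X * P) * Q := by noncomm_ring
  · intro m hm
    have hm2 : ∏ k, d k ^ (m k).toNat = ∏ k, d k ^ (-m k).toNat := by
      have h1 : ∀ k, d k ^ m k = d k ^ (m k).toNat / d k ^ (-m k).toNat := by
        intro k
        rw [← zpow_natCast, ← zpow_natCast, ← zpow_sub₀ (hd k)]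
        congr 1
        omega
      have h2 : ∏ k, d k ^ (-m k).toNat ≠ 0 := Finset.prod_ne_zero_iff.2 fun k _ => pow_ne_zero _ (hd k)
      rw [Finset.prod_congr rfl fun k _ => h1 k, Finset.prod_div_distrib, div_eq_one_iff_eq h2] at hm
      exact hm
    set F : MvPolynomial (ι × ι) K := ∏ k, g k k ^ (m k).toNat - ∏ k, g k k ^ (-m k).toNat with hF
    have hev : ∀ y : Matrix ι ι K, ev y F = ∏ k, (Q * y * P) k k ^ (m k).toNat -
        ∏ k, (Q * y * P) k k ^ (-m k).toNat := by
      intro y
      rw [hF, map_sub, map_prod, map_prod]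
      simp only [map_pow, hg]
    have h0 : ∀ s ∈ {m | ∃ n : ℕ, m = φ ^ n}, ev s F = 0 := by
      intro s hs
      rw [hev, Pool.Agent.H76T.pow_mul_rel hφ hPQ hQP (subset_zar _ hs) hm2, sub_self]
    have h1 := hX F h0 1 h1S
    have h2 := g1_der (A := X) (f := F) (p := ∏ k, (1 + Polynomial.X * Polynomial.C (f k)) ^ (m k).toNat -
        ∏ k, (1 + Polynomial.X * Polynomial.C (f k)) ^ (-m k).toNat) (by
      intro t
      rw [hev]
      simp only [hline, Matrix.one_apply_eq, Polynomial.eval_sub, Polynomial.eval_prod, Polynomial.eval_pow,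
        Polynomial.eval_add, Polynomial.eval_mul, Polynomial.eval_X, Polynomial.eval_C, Polynomial.eval_one]
      rfl)
    rw [h1, Polynomial.derivative_sub, Polynomial.eval_sub, g2_prod, g2_prod, ← Finset.sum_sub_distrib] at h2
    rw [← h2.symm]
    refine Finset.sum_congr rfl fun k _ => ?_
    rw [← sub_mul]
    congr 1
    have h3 : (m k : ℤ) = ((m k).toNat : ℤ) - ((-m k).toNat : ℤ) := by omega
    conv_lhs => rw [h3]
    push_cast
    rfl

end Pool.Agent.H76P
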