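import Pool.Agent.Lib.H76P.G0

/-!
# G3: the part of an element of the Lie algebra which commutes with a given operator
-/

set_option autoImplicit false
set_option linter.unusedSectionVars false
namespace Pool.Agent.H76P
open Module Matrix Pool.Agent.H53Toric
open Pool.Agent.H76RM (van zlie_commute)
open Pool.Agent.H76U (preL cmp Split4)
open Pool.Agent.H76V (SH)
open Pool.Agent.H76T (Lc mem_Lc)
open Pool.Agent.H76U (tw)

variable {ι : Type*} [Fintype ι] [DecidableEq ι] {K : Type*} [Field K] [CharZero K]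

theorem g3_step {S : Set (Matrix ι ι K)} {φ φ' P Q : Matrix ι ι K} {d : ι → K}
    (hcnj : ∀ A ∈ zlie S, φ * A * φ' ∈ zlie S)
    (hent : ∀ (C : Matrix ι ι K) (i j : ι), (Q * (φ * C * φ') * P) i j = d i / d j * (Q * C * P) i j)
    (hinv : φ * φ' = 1) {A : Matrix ι ι K} (hA : A ∈ zlie S) (Λ : Finset K) :
    (1 : K) ∉ Λ → ∃ C ∈ zlie S, (∀ i j, d i / d j ∈ Λ → (Q * C * P) i j = 0) ∧
      ∀ p : Matrix ι ι K, p * φ = φ * p → (A * p) * φ = φ * (A * p) → C * p = A * p := by
  classical
  refine Finset.induction_on Λ ?_ ?_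
  · intro _
    exact ⟨A, hA, fun i j h => absurd h (Finset.notMem_empty _), fun p _ _ => rfl⟩
  · intro l Λ' hl ih h1
    rw [Finset.mem_insert, not_or] at h1
    obtain ⟨C, hC, hC1, hC2⟩ := ih h1.2
    have hl1 : (1 - l) ≠ 0 := sub_ne_zero.2 h1.1
    refine ⟨(1 - l)⁻¹ • (φ * C * φ' - l • C), ?_, ?_, ?_⟩
    · exact (zlie S).smul_mem _ ((zlie S).sub_mem (hcnj C hC) ((zlie S).smul_mem _ hC))
    · intro i j hij
      have h2 : (Q * ((1 - l)⁻¹ • (φ * C * φ' - l • C)) * P) i j =
          (1 - l)⁻¹ * ((d i / d j - l) * (Q * C * P) i j) := by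
        rw [mul_smul_comm, smul_mul_assoc, Matrix.smul_apply, mul_sub, sub_mul, Matrix.sub_apply, hent,
          mul_smul_comm, smul_mul_assoc, Matrix.smul_apply, smul_eq_mul, smul_eq_mul, sub_mul]
      rw [h2]
      rcases Finset.mem_insert.1 hij with h3 | h3
      · rw [h3, sub_self, zero_mul, mul_zero]
      · rw [hC1 i j h3, mul_zero, mul_zero]
    · intro p hp hAp
      have h2 := hC2 p hp hAp
      have hφ'φ : φ' * φ = 1 := mul_eq_one_comm.1 hinv
      have hp' : φ' * p = p * φ' := by
        calc φ' * p = φ' * p * (φ * φ') := by rw [hinv, mul_one]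
          _ = φ' * (p * φ) * φ' := by noncomm_ring
          _ = φ' * φ * p * φ' := by rw [hp]; noncomm_ring
          _ = p * φ' := by rw [hφ'φ, one_mul]
      have h3 : φ * C * φ' * p = A * p := by
        calc φ * C * φ' * p = φ * C * (φ' * p) := by noncomm_ring
          _ = φ * (C * p) * φ' := by rw [hp']; noncomm_ring
          _ = (φ * (A * p)) * φ' := by rw [h2]
          _ = A * p * (φ * φ') := by rw [← hAp]; noncomm_ring
          _ = A * p := by rw [hinv, mul_one]
      rw [smul_mul_assoc, sub_mul, h3, smul_mul_assoc, h2]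
      have h4 : A * p - l • (A * p) = (1 - l) • (A * p) := by rw [sub_smul, one_smul]
      rw [h4, smul_smul, inv_mul_cancel₀ hl1, one_smul]

/-- PROOF. `φ = P * diagonal d * Q` with `P * Q = 1`, all `d i ≠ 0`, `φ' = P * diagonal (d⁻¹) * Q`.  `Ad X = φ * X * φ'` is a linear map; on the entries
of `Q * X * P` it is multiplication of the entry `(i, j)` with `d i / d j`.  So `Ad` is diagonalisable; let `Λ` be the finite set of the values
`d i / d j` different from `1`, and `Π = ∏_{l ∈ Λ} (1 - l)⁻¹ • (Ad - l)` (a polynomial in `Ad`): `Q * (Π X) * P` has the entries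
`(Q * X * P) i j` if `d i = d j` and `0` else.  `C = Π A` is in `zlie S` (`hcnj`), commutes with `φ`.  Let `p` commute with `φ`, hence with `φ'`:
`Ad (X * p) = Ad X * p`, so `Π (A * p) = Π A * p = C * p`.  If `A * p` commutes with `φ`, then `Ad (A * p) = A * p` and `Π (A * p) = A * p`. -/
theorem zero_part {S : Set (Matrix ι ι K)} {φ φ' : Matrix ι ι K} (hinv : φ * φ' = 1)
    (hdg : Diagonalisable φ) (hcnj : ∀ A ∈ zlie S, φ * A * φ' ∈ zlie S)
    {A : Matrix ι ι K} (hA : A ∈ zlie S) :
    ∃ C ∈ zlie S, C * φ = φ * C ∧ ∀ p : Matrix ι ι K, p * φ = φ * p →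
      (A * p) * φ = φ * (A * p) → C * p = A * p := by
  classical
  obtain ⟨P, Q, d, hPQ, hQP, hφ⟩ := hdg
  have hQφP : Q * φ * P = Matrix.diagonal d := by
    rw [hφ]
    calc Q * (P * Matrix.diagonal d * Q) * P = (Q * P) * Matrix.diagonal d * (Q * P) := by noncomm_ring
      _ = Matrix.diagonal d := by rw [hQP, one_mul, mul_one]
  have hprod : Matrix.diagonal d * (Q * φ' * P) = 1 := by
    rw [← hQφP]
    calc Q * φ * P * (Q * φ' * P) = Q * φ * (P * Q) * φ' * P := by noncomm_ring
      _ = Q * (φ * φ') * P := by rw [hPQ]; noncomm_ring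
      _ = 1 := by rw [hinv, mul_one, hQP]
  have hY : ∀ i j, d i * (Q * φ' * P) i j = (1 : Matrix ι ι K) i j := by
    intro i j
    rw [← hprod, Matrix.diagonal_mul]
  have hd : ∀ i, d i ≠ 0 := by
    intro i h0
    have := hY i i
    rw [h0, zero_mul, Matrix.one_apply_eq] at this
    exact one_ne_zero this.symm
  have hY2 : Q * φ' * P = Matrix.diagonal (fun i => (d i)⁻¹) := by
    ext i j
    have h1 := hY i j
    by_cases hij : i = j
    · subst hij
      rw [Matrix.one_apply_eq] at h1
      rw [Matrix.diagonal_apply_eq]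
      exact eq_inv_of_mul_eq_one_right h1
    · rw [Matrix.one_apply_ne hij] at h1
      rw [Matrix.diagonal_apply_ne _ hij]
      exact (mul_eq_zero.1 h1).resolve_left (hd i)
  have hent : ∀ (C : Matrix ι ι K) (i j : ι), (Q * (φ * C * φ') * P) i j = d i / d j * (Q * C * P) i j := by
    intro C i j
    have h1 : Q * (φ * C * φ') * P = Matrix.diagonal d * (Q * C * P) * Matrix.diagonal (fun i => (d i)⁻¹) := by
      rw [← hQφP, ← hY2]
      calc Q * (φ * C * φ') * P = Q * φ * 1 * C * 1 * φ' * P := by noncomm_ring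
        _ = Q * φ * (P * Q) * C * (P * Q) * φ' * P := by rw [hPQ]
        _ = _ := by noncomm_ring
    rw [h1, Matrix.mul_diagonal, Matrix.diagonal_mul]
    field_simp
  obtain ⟨C, hC, hC1, hC2⟩ := g3_step hcnj hent hinv hA
    (((Finset.univ : Finset (ι × ι)).image (fun q => d q.1 / d q.2)).erase 1) (Finset.notMem_erase _ _)
  refine ⟨C, hC, ?_, hC2⟩
  have hzero : ∀ i j, d i ≠ d j → (Q * C * P) i j = 0 := by
    intro i j hij
    refine hC1 i j (Finset.mem_erase.2 ⟨?_, Finset.mem_image.2 ⟨(i, j), Finset.mem_univ _, rfl⟩⟩)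
    intro h
    exact hij ((div_eq_one_iff_eq (hd j)).1 h)
  have hcomm : (Q * C * P) * Matrix.diagonal d = Matrix.diagonal d * (Q * C * P) := by
    ext i j
    rw [Matrix.mul_diagonal, Matrix.diagonal_mul]
    by_cases hij : d i = d j
    · rw [hij, mul_comm]
    · rw [hzero i j hij, zero_mul, mul_zero]
  calc C * φ = P * ((Q * C * P) * Matrix.diagonal d) * Q := by
        rw [hφ]
        calc C * (P * Matrix.diagonal d * Q) = 1 * C * P * Matrix.diagonal d * Q := by noncomm_ring
          _ = (P * Q) * C * P * Matrix.diagonal d * Q := by rw [hPQ]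
          _ = _ := by noncomm_ring
    _ = φ * C := by
        rw [hcomm, hφ]
        calc P * (Matrix.diagonal d * (Q * C * P)) * Q = P * Matrix.diagonal d * Q * C * (P * Q) := by noncomm_ring
          _ = _ := by rw [hPQ, mul_one]

end Pool.Agent.H76P
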