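import Pool.Agent.Lib.H76P.G15
import Pool.Agent.Lib.H76T.TF2

/-!
# G16: the final theorem
-/

set_option autoImplicit false
set_option linter.unusedSectionVars false
namespace Pool.Agent.H76P
open Module Matrix Polynomial Pool.Agent.H53Toric
open Pool.Agent.H76U (IsSplitting rank_idem_map)
open Pool.Agent.H76RM (spanK similD)
open Pool.Agent.H76T (full_other AllIndep nroots)

theorem finalP {ι : Type*} [Fintype ι] [DecidableEq ι] {ψ : Matrix ι ι ℚ} (hψ : ψᵀ = -ψ)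
    (hψ0 : ψ.det ≠ 0) (D : Subalgebra ℚ (Matrix ι ι ℚ)) {M : Type*} [Field M] [NumberField M]
    {m : ℕ} (e : Fin m → Matrix ι ι M) (hspl : IsSplitting D ψ id e) {G : Type*} [Group G]
    (ρ : ∀ (l : ℕ) [Fact l.Prime], G →* Matrix.GeneralLinearGroup ι ℚ_[l]) (Λ : Set ℕ)
    (lin : ∀ (l : ℕ) [Fact l.Prime], l ∈ Λ → ∀ σ : G, ∀ d ∈ D,
      (ρ l σ).1 * d.map (algebraMap ℚ ℚ_[l]) = d.map (algebraMap ℚ ℚ_[l]) * (ρ l σ).1)
    (sim : ∀ (l : ℕ) [Fact l.Prime], l ∈ Λ → ∀ σ : G, ∃ c : ℚ_[l],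
      (ρ l σ).1ᵀ * ψ.map (algebraMap ℚ ℚ_[l]) * (ρ l σ).1 = c • ψ.map (algebraMap ℚ ℚ_[l]))
    (semis : ∀ (l : ℕ) [Fact l.Prime], l ∈ Λ → ∀ H : Subgroup G, H.FiniteIndex →
      ∀ W : Submodule (AlgebraicClosure ℚ_[l]) (ι → AlgebraicClosure ℚ_[l]),
      (∀ s ∈ img (AlgebraicClosure ℚ_[l]) (ρ l) H, ∀ w ∈ W, s *ᵥ w ∈ W) →
      ∃ W' : Submodule (AlgebraicClosure ℚ_[l]) (ι → AlgebraicClosure ℚ_[l]),
        (∀ s ∈ img (AlgebraicClosure ℚ_[l]) (ρ l) H, ∀ w ∈ W', s *ᵥ w ∈ W') ∧ IsCompl W W')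
    (commt : ∀ (l : ℕ) [Fact l.Prime], l ∈ Λ → ∀ H : Subgroup G, H.FiniteIndex →
      ∀ y : Matrix ι ι (AlgebraicClosure ℚ_[l]),
      (∀ s ∈ img (AlgebraicClosure ℚ_[l]) (ρ l) H, y * s = s * y) →
        y ∈ spanK (AlgebraicClosure ℚ_[l]) D)
    (p : ℕ) [Fact p.Prime] (hpΛ : p ∈ Λ)
    (σ : G) (q : ℚ) (hq : ∀ n : ℕ, n ≠ 0 → q ^ n ≠ 1) (F : ℚ[X])
    (mult : ∀ (l : ℕ) [Fact l.Prime], l ∈ Λ → l ≠ p →
      (ρ l σ).1ᵀ * ψ.map (algebraMap ℚ ℚ_[l]) * (ρ l σ).1 =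
        algebraMap ℚ ℚ_[l] q • ψ.map (algebraMap ℚ ℚ_[l]))
    (char : ∀ (l : ℕ) [Fact l.Prime], l ∈ Λ → l ≠ p →
      (ρ l σ).1.charpoly = F.map (algebraMap ℚ ℚ_[l]))
    (diag : ∀ (l : ℕ) [Fact l.Prime], l ∈ Λ → l ≠ p →
      Diagonalisable ((ρ l σ).1.map (algebraMap ℚ_[l] (AlgebraicClosure ℚ_[l]))))
    (cyc : ∃ s : G, ∃ c : ℚ_[p], (ρ p s).1ᵀ * ψ.map (algebraMap ℚ ℚ_[p]) * (ρ p s).1 =
      c • ψ.map (algebraMap ℚ ℚ_[p]) ∧ ∀ n : ℕ, n ≠ 0 → c ^ n ≠ 1)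
    (i : M →+* AlgebraicClosure ℚ_[p]) (φ ν : Matrix ι ι (AlgebraicClosure ℚ_[p]))
    (v : AlgebraicClosure ℚ_[p] → ℚ)
    (frob : FrobP (AlgebraicClosure ℚ_[p]) (ρ p) (fun b => (e b).map i) φ ν v)
    (multp : φᵀ * ψ.map (algebraMap ℚ (AlgebraicClosure ℚ_[p])) * φ =
      algebraMap ℚ (AlgebraicClosure ℚ_[p]) q • ψ.map (algebraMap ℚ (AlgebraicClosure ℚ_[p])))
    (charp : φ.charpoly = F.map (algebraMap ℚ (AlgebraicClosure ℚ_[p])))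
    (power : ∀ b (a k : ℕ), 2 ≤ k → (e b).rank ≠ a ^ k)
    (binom : ∀ b (k : ℕ), 3 ≤ k → Odd k → (e b).rank ≠ k.centralBinom) :
    ∀ (l : ℕ) [Fact l.Prime], l ∈ Λ → ∀ H : Subgroup G, H.FiniteIndex →
      monodromy (AlgebraicClosure ℚ_[l]) (ρ l) H = similD (AlgebraicClosure ℚ_[l]) ψ D := by
  classical
  have hspl1 : IsSplitting D ψ id (fun b => (e b).map i) := hspl.map i
  have hrank1 : ∀ b, ((e b).map i).rank = (e b).rank := fun b => rank_idem_map (hspl.idem b) _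
  rcases isEmpty_or_nonempty ι with hι | hι
  · intro l _ hl H hH
    ext x
    have hx : x = 1 := Subsingleton.elim _ _
    subst hx
    refine ⟨fun _ => ⟨by rw [Matrix.det_one]; exact one_ne_zero, fun d _ => by rw [one_mul, mul_one],
      1, Subsingleton.elim _ _⟩, fun _ => ⟨by rw [Matrix.det_one]; exact one_ne_zero, ?_⟩⟩
    exact subset_zar _ (img_one (ρ l) H)
  have hq0 : q ≠ 0 := by
    rintro rfl
    rw [map_zero, zero_smul] at multp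
    have h2 := congrArg Matrix.det multp
    rw [Matrix.det_mul, Matrix.det_mul, Matrix.det_transpose, Matrix.det_zero] at h2
    exact mul_ne_zero (mul_ne_zero frob.idc.1
      (gram_basic hψ hψ0 (AlgebraicClosure ℚ_[p])).2.ne_zero) frob.idc.1 h2
  obtain ⟨hmon, hind, hcard⟩ := at_p hψ hψ0 D (ρ p) (lin p hpΛ) (sim p hpΛ) cyc (semis p hpΛ)
    (commt p hpΛ) hspl1 frob (by intro b a k hk; rw [hrank1]; exact power b a k hk)
    (by intro b k hk hk'; rw [hrank1]; exact binom b k hk hk') hq0 multp charp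
  intro l _ hl H hH
  by_cases hlp : l = p
  · subst hlp
    exact hmon H hH
  let j : M →+* AlgebraicClosure ℚ_[l] := (IsAlgClosed.lift : M →ₐ[ℚ] AlgebraicClosure ℚ_[l])
  have hspl2 : IsSplitting D ψ id (fun b => (e b).map j) := hspl.map j
  refine full_other hψ hψ0 D (ρ l) (lin l hl) (sim l hl) (semis l hl) (commt l hl) hspl2 hq0 hq
    (mult l hl hlp) (char l hl hlp) (diag l hl hlp) hind ?_ H hH
  rw [hcard]
  exact Finset.sum_congr rfl fun b _ => by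
    rw [hrank1, rank_idem_map (hspl.idem b)]

end Pool.Agent.H76P
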