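import Mathlib

/-!
# Product decompositions of a finite configuration of points

`pt : κ → V` is a finite family of points of a rational vector space.  A linear idempotent `p` is
a splitting (`Spl pt p`) if for all points `a`, `b` there is a point with the coordinate `p` of `b`
and the other coordinate of `a`.
-/

set_option autoImplicit false
namespace Pool.Agent.H76P

variable {κ : Type*} {V : Type*} [AddCommGroup V] [Module ℚ V]

/-- The idempotent `p` is a splitting of the configuration `pt`. -/
def Spl (pt : κ → V) (p : Module.End ℚ V) : Prop :=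
  p * p = p ∧ ∀ a b, ∃ c, pt c = pt a + p (pt b - pt a)

/-- The differences span. -/
def Spans (pt : κ → V) : Prop := Submodule.span ℚ {u | ∃ a b, u = pt b - pt a} = ⊤

/-- A minimal splitting. -/
def Atom (pt : κ → V) (q : Module.End ℚ V) : Prop :=
  Spl pt q ∧ q ≠ 0 ∧ ∀ p, Spl pt p → p * q = p → p = 0 ∨ p = q

open Classical in
/-- The number of different coordinates `p`. -/
noncomputable def cnt [Fintype κ] (pt : κ → V) (p : Module.End ℚ V) : ℕ :=
  (Finset.univ.image fun a => p (pt a)).card

/-- two linear maps agree if they agree on the differences -/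
theorem Spans.ext {pt : κ → V} (h : Spans pt) {W : Type*} [AddCommGroup W] [Module ℚ W]
    {f g : V →ₗ[ℚ] W} (hfg : ∀ a b, f (pt b - pt a) = g (pt b - pt a)) : f = g := by
  have h1 : Submodule.span ℚ {u | ∃ a b, u = pt b - pt a} ≤ LinearMap.eqLocus f g := by
    rw [Submodule.span_le]
    rintro _ ⟨a, b, rfl⟩
    exact hfg a b
  rw [h] at h1
  ext u
  exact h1 (Submodule.mem_top (x := u))

theorem Spl.zero (pt : κ → V) : Spl pt 0 := ⟨by simp, fun a b => ⟨a, by simp⟩⟩

theorem Spl.one (pt : κ → V) : Spl pt 1 := ⟨by simp, fun a b => ⟨b, by simp⟩⟩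

theorem Spl.compl {pt : κ → V} {p : Module.End ℚ V} (h : Spl pt p) : Spl pt (1 - p) := by
  refine ⟨by rw [mul_sub, mul_one, sub_mul, one_mul, h.1, sub_self, sub_zero], fun a b => ?_⟩
  obtain ⟨c, hc⟩ := h.2 b a
  refine ⟨c, ?_⟩
  rw [hc, LinearMap.sub_apply, Module.End.one_apply]
  have : p (pt a - pt b) = - p (pt b - pt a) := by rw [← map_neg, neg_sub]
  rw [this]
  abel

end Pool.Agent.H76P
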