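import Pool.Agent.Lib.H76P.C0

/-!
# C1: splittings commute
-/

set_option autoImplicit false
namespace Pool.Agent.H76P

variable {κ : Type*} {V : Type*} [AddCommGroup V] [Module ℚ V]

/-- PROOF. A vector space over an infinite field is not a finite union of proper subspaces; apply this to the dual space and to the
subspaces of the functionals which vanish at `u ∈ s` (proper because `u ≠ 0`).  In Mathlib there is something like
`Module.Dual.exists_forall_mem_ne_zero_of_forall_exists` / `Subspace.biUnion_ne_univ_of_top_nmem`. -/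
theorem generic (s : Finset V) (hs : (0 : V) ∉ s) : ∃ l : Module.Dual ℚ V, ∀ u ∈ s, l u ≠ 0 := by
  obtain ⟨f, hf⟩ := Module.exists_dual_forall_apply_ne_zero (K := ℚ) (M := V)
    (fun u : s => (u : V)) (fun u h => hs (h ▸ u.2))
  exact ⟨f, fun u hu => hf ⟨u, hu⟩⟩

theorem c1_key [Finite κ] {pt : κ → V} (hs : Spans pt) {p q : Module.End ℚ V} (hp : Spl pt p)
    (hq : Spl pt q) : (1 - p) * q * p = 0 := by
  cases isEmpty_or_nonempty κ with
  | inl h =>
    apply hs.ext
    intro a
    exact h.elim a
  | inr h =>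
    have hfin := Fintype.ofFinite κ
    obtain ⟨l, hl⟩ : ∃ l : Module.Dual ℚ V, ∀ a b, pt b - pt a ≠ 0 → l (pt b - pt a) ≠ 0 := by
      classical
      obtain ⟨l, hl⟩ := generic
        ((Finset.univ.image (fun x : κ × κ => pt x.2 - pt x.1)).erase 0) (by simp)
      refine ⟨l, fun a b hab => hl _ ?_⟩
      rw [Finset.mem_erase]
      exact ⟨hab, Finset.mem_image_of_mem (fun x : κ × κ => pt x.2 - pt x.1)
        (Finset.mem_univ (a, b))⟩
    obtain ⟨a₀, ha₀⟩ := Finite.exists_max (fun a => l (pt a))
    have hle : ∀ a, l (pt a - pt a₀) ≤ 0 := fun a => by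
      rw [map_sub]
      linarith [ha₀ a]
    have heq : ∀ a, l (pt a - pt a₀) = 0 → pt a - pt a₀ = 0 := fun a h => by
      by_contra h0
      exact hl a₀ a h0 h
    have hD : ∀ {r : Module.End ℚ V}, Spl pt r → ∀ a, ∃ c, r (pt a - pt a₀) = pt c - pt a₀ := by
      intro r hr a
      obtain ⟨c, hc⟩ := hr.2 a₀ a
      exact ⟨c, by rw [hc, add_sub_cancel_left]⟩
    have main : ∀ a, ((1 - p) * q * p) (pt a - pt a₀) = 0 := by
      intro a
      obtain ⟨c, hc⟩ := hD hp a
      obtain ⟨d, hd⟩ := hD hq c
      obtain ⟨e, he⟩ := hD hq.compl c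
      obtain ⟨f, hf⟩ := hD hp.compl d
      obtain ⟨g, hg⟩ := hD hp.compl e
      have h1 : (1 - p) (q (p (pt a - pt a₀))) + (1 - p) ((1 - q) (p (pt a - pt a₀))) = 0 := by
        rw [← map_add]
        have h8 : q (p (pt a - pt a₀)) + (1 - q) (p (pt a - pt a₀)) = p (pt a - pt a₀) := by
          rw [LinearMap.sub_apply, Module.End.one_apply]
          abel
        rw [h8]
        have h2 : (1 - p) * p = 0 := by rw [sub_mul, one_mul, hp.1, sub_self]
        exact LinearMap.congr_fun h2 _
      rw [hc, hd, he, hf, hg] at h1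
      have h3 := congrArg l h1
      rw [map_add, map_zero] at h3
      have h4 := hle f
      have h5 := hle g
      have h6 : l (pt f - pt a₀) = 0 := by linarith
      have h7 := heq f h6
      change (1 - p) (q (p (pt a - pt a₀))) = 0
      rw [hc, hd, hf, h7]
    apply hs.ext
    intro a b
    have h9 : pt b - pt a = (pt b - pt a₀) - (pt a - pt a₀) := by abel
    rw [h9, map_sub, main, main]
    simp

/-- PROOF. By `generic` (for the finite set of the nonzero differences of points) there is a functional `l` with `l (pt a) ≠ l (pt b)`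
whenever `pt a ≠ pt b`.  Let `a₀` be a point where `l (pt a₀)` is maximal (`κ` is finite; if it is empty, `V = 0` and there is nothing to
prove).  Put `Δ = {pt a - pt a₀}`.  Then `l u ≤ 0` for `u ∈ Δ`, with equality only for `u = 0`, `Δ` spans `V` (differences of elements of
`Δ`), and every splitting maps `Δ` to `Δ` (take `a = a₀` in the definition).  Claim: `(1 - p) * q * p = 0` for any two
splittings `p`, `q`.  For `u ∈ Δ` put `u' = p u ∈ Δ`, `w = q u' ∈ Δ`, `w' = (1 - q) u' ∈ Δ` (`Spl.compl`), `u' = w + w'`.  Then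
`(1 - p) w` and `(1 - p) w'` are in `Δ`, and their sum is `(1 - p) u' = 0`.  So `l` of both is `≤ 0` and the sum is `0`, hence both are `0`.
So `(1 - p) q p u = 0` for all `u ∈ Δ`, hence for all `u`.  Apply the claim to `p, q` and to `1 - p, q`: `q p = p q p` and
`q (1 - p) = (1 - p) q (1 - p)`, i.e. `p q (1 - p) = 0`, `p q = p q p`.  Hence `p q = q p`. -/
theorem Spl.comm [Finite κ] {pt : κ → V} (hs : Spans pt) {p q : Module.End ℚ V} (hp : Spl pt p)
    (hq : Spl pt q) : p * q = q * p := by
  have h1 := c1_key hs hp hq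
  have h2 := c1_key hs hp.compl hq
  rw [sub_sub_cancel] at h2
  rw [sub_mul, sub_mul, one_mul, sub_eq_zero] at h1
  rw [mul_sub, mul_one, sub_eq_zero] at h2
  exact h2.trans h1.symm

/-- PROOF. Idempotent since `p`, `q` commute.  For `a`, `b` choose `c` with `pt c = pt a + q (pt b - pt a)` and then `c'` with
`pt c' = pt a + p (pt c - pt a) = pt a + p (q (pt b - pt a))`. -/
theorem Spl.mul [Finite κ] {pt : κ → V} (hs : Spans pt) {p q : Module.End ℚ V} (hp : Spl pt p)
    (hq : Spl pt q) : Spl pt (p * q) := by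
  refine ⟨?_, fun a b => ?_⟩
  · have hc := Spl.comm hs hp hq
    calc p * q * (p * q) = p * (q * p) * q := by simp only [mul_assoc]
      _ = p * (p * q) * q := by rw [hc]
      _ = (p * p) * (q * q) := by simp only [mul_assoc]
      _ = p * q := by rw [hp.1, hq.1]
  · obtain ⟨c, hc⟩ := hq.2 a b
    obtain ⟨c', hc'⟩ := hp.2 a c
    refine ⟨c', ?_⟩
    rw [hc', hc, add_sub_cancel_left]
    rfl

/-- PROOF. For `p * q = 0`: `1 - (p + q) = (1 - p) * (1 - q)` (`q * p = 0` too by `Spl.comm`), `Spl.compl`, `Spl.mul`. -/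
theorem Spl.add [Finite κ] {pt : κ → V} (hs : Spans pt) {p q : Module.End ℚ V} (hp : Spl pt p)
    (hq : Spl pt q) (hpq : p * q = 0) : Spl pt (p + q) := by
  have h1 := (Spl.mul hs hp.compl hq.compl).compl
  have h2 : 1 - (1 - p) * (1 - q) = p + q := by
    rw [sub_mul, one_mul, mul_sub, mul_one, hpq, sub_zero]
    abel
  rwa [h2] at h1

end Pool.Agent.H76P
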