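import Pool.Agent.Lib.H76P.C1

/-!
# C2: atoms
-/

set_option autoImplicit false
namespace Pool.Agent.H76P

variable {κ : Type*} {V : Type*} [AddCommGroup V] [Module ℚ V]

/-- PROOF. A splitting `p` is determined by the map `(a, b) ↦ c` (choose `c` with `pt c = pt a + p (pt b - pt a)`), because `p` is
determined by the vectors `p (pt b - pt a)` (`Spans.ext`).  So there is an injective map from the set of splittings to the finite set of
functions `κ × κ → κ`. -/
theorem Spl.finite [Finite κ] {pt : κ → V} (hs : Spans pt) : {p | Spl pt p}.Finite := by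
  classical
  have h : ∀ p : {p | Spl pt p}, ∃ f : κ × κ → κ,
      ∀ x, pt (f x) = pt x.1 + p.1 (pt x.2 - pt x.1) := by
    intro p
    choose f hf using p.2.2
    exact ⟨fun x => f x.1 x.2, fun x => hf x.1 x.2⟩
  choose F hF using h
  have hinj : Function.Injective F := by
    intro p q hpq
    apply Subtype.ext
    apply hs.ext
    intro a b
    have h1 := hF p (a, b)
    have h2 := hF q (a, b)
    rw [hpq] at h1
    rw [h1] at h2
    exact add_left_cancel h2
  have : Finite {p | Spl pt p} := Finite.of_injective F hinj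
  exact Set.toFinite _

/-- PROOF. Among the finitely many splittings `q ≠ 0` with `q * p = q` (for instance `p`) choose one with the smallest number of
splittings `q'` with `q' * q = q'`.  If `q'` is a splitting with `q' * q = q'`, `q' ≠ 0`, `q' ≠ q`, then `q' * p = q' * q * p = q'`, and every
splitting below `q'` is below `q`, but `q` itself is not below `q'` (`q * q' = q` and `q' * q = q'`, so by `Spl.comm` `q = q'`):
contradiction. -/
theorem exists_atom [Finite κ] {pt : κ → V} (hs : Spans pt) {p : Module.End ℚ V} (hp : Spl pt p)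
    (h0 : p ≠ 0) : ∃ q, Atom pt q ∧ q * p = q := by
  have hf := Spl.finite hs
  obtain ⟨q, ⟨hq, hq0, hqp⟩, hmin⟩ := Set.exists_min_image
    {q | Spl pt q ∧ q ≠ 0 ∧ q * p = q} (fun q => {r | Spl pt r ∧ r * q = r}.ncard)
    (hf.subset fun q hq => hq.1) ⟨p, hp, h0, hp.1⟩
  refine ⟨q, ⟨hq, hq0, fun r hr hrq => ?_⟩, hqp⟩
  by_contra hcon
  rw [not_or] at hcon
  have h1 := hmin r ⟨hr, hcon.1, by
    calc r * p = r * q * p := by rw [hrq]
      _ = r * (q * p) := mul_assoc _ _ _
      _ = r := by rw [hqp, hrq]⟩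
  have h2 : {x | Spl pt x ∧ x * r = x}.ncard < {x | Spl pt x ∧ x * q = x}.ncard := by
    apply Set.ncard_lt_ncard _ (hf.subset fun x hx => hx.1)
    refine ⟨fun x hx => ⟨hx.1, ?_⟩, fun hsub => ?_⟩
    · calc x * q = x * r * q := by rw [hx.2]
        _ = x * (r * q) := mul_assoc _ _ _
        _ = x := by rw [hrq, hx.2]
    · have h3 : q ∈ {x | Spl pt x ∧ x * r = x} := hsub ⟨hq, hq.1⟩
      apply hcon.2
      rw [← hrq, Spl.comm hs hr hq]
      exact h3.2
  exact absurd h1 (not_le.2 h2)

/-- PROOF. `q * q'` is a splitting (`Spl.mul`) below `q` and below `q'`, so it is `0`, or it is equal to `q` and to `q'`. -/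
theorem Atom.orth [Finite κ] {pt : κ → V} (hs : Spans pt) {q q' : Module.End ℚ V}
    (hq : Atom pt q) (hq' : Atom pt q') (hne : q ≠ q') : q * q' = 0 := by
  have hm := Spl.mul hs hq.1 hq'.1
  have h1 := hq'.2.2 _ hm (by rw [mul_assoc, hq'.1.1])
  have h2 := hq.2.2 _ hm (by rw [mul_assoc, ← Spl.comm hs hq.1 hq'.1, ← mul_assoc, hq.1.1])
  rcases h1 with h1 | h1
  · exact h1
  · rcases h2 with h2 | h2
    · exact h2
    · exact absurd (h2.symm.trans h1) hne

theorem c2_mul_sum [Finite κ] {pt : κ → V} (hs : Spans pt) {q : Module.End ℚ V} (hq : Atom pt q)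
    (t : Finset (Module.End ℚ V)) (ht : ∀ r ∈ t, Atom pt r) (hqt : q ∉ t) :
    q * ∑ r ∈ t, r = 0 := by
  rw [Finset.mul_sum]
  refine Finset.sum_eq_zero fun r hr => ?_
  exact Atom.orth hs hq (ht r hr) fun h => hqt (h ▸ hr)

theorem c2_sum [Finite κ] {pt : κ → V} (hs : Spans pt)
    (t : Finset (Module.End ℚ V)) (ht : ∀ r ∈ t, Atom pt r) : Spl pt (∑ r ∈ t, r) := by
  classical
  induction t using Finset.induction_on with
  | empty =>
    rw [Finset.sum_empty]
    exact Spl.zero pt
  | insert a t hat ih =>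
    rw [Finset.sum_insert hat]
    have h1 : ∀ r ∈ t, Atom pt r := fun r hr => ht r (Finset.mem_insert_of_mem hr)
    have h2 := ht a (Finset.mem_insert_self a t)
    exact Spl.add hs h2.1 (ih h1) (c2_mul_sum hs h2 t h1 hat)

/-- PROOF. The set `s` of all atoms is finite (`Spl.finite`).  The sum `σ` of the atoms is a splitting (induction over finite sets of
atoms with `Spl.add` and `Atom.orth`).  If `1 - σ ≠ 0` there is an atom `q` with `q * (1 - σ) = q` (`exists_atom`), but `q * σ = q`, so
`q = 0`, contradiction. -/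
theorem atoms_sum [Finite κ] {pt : κ → V} (hs : Spans pt) : ∃ s : Finset (Module.End ℚ V),
    (∀ q, q ∈ s ↔ Atom pt q) ∧ ∑ q ∈ s, q = 1 := by
  classical
  have hf : {q | Atom pt q}.Finite := (Spl.finite hs).subset fun q hq => hq.1
  have hm : ∀ q, q ∈ hf.toFinset ↔ Atom pt q := fun q => by
    rw [Set.Finite.mem_toFinset]
    rfl
  refine ⟨hf.toFinset, hm, ?_⟩
  have hS := c2_sum hs hf.toFinset fun r hr => (hm r).1 hr
  by_contra hne
  have h0 : (1 : Module.End ℚ V) - ∑ q ∈ hf.toFinset, q ≠ 0 := fun h => hne (sub_eq_zero.1 h).symm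
  obtain ⟨q, hq, hq1⟩ := exists_atom hs hS.compl h0
  rw [mul_sub, mul_one] at hq1
  have h1 : q * ∑ r ∈ hf.toFinset, r = q := by
    rw [← Finset.insert_erase ((hm q).2 hq), Finset.sum_insert (Finset.notMem_erase _ _), mul_add,
      hq.1.1, c2_mul_sum hs hq _ (fun r hr => (hm r).1 (Finset.mem_of_mem_erase hr))
        (Finset.notMem_erase _ _), add_zero]
  rw [h1, sub_self] at hq1
  exact hq.2.1 hq1.symm

/-- PROOF. By linearity `q * p` is an atom or zero: `q * p` is a splitting below `q`. -/
theorem Atom.le_or [Finite κ] {pt : κ → V} (hs : Spans pt) {q p : Module.End ℚ V}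
    (hq : Atom pt q) (hp : Spl pt p) : q * p = q ∨ q * p = 0 := by
  have hm := Spl.mul hs hq.1 hp
  have h2 := hq.2.2 _ hm (by rw [mul_assoc, ← Spl.comm hs hq.1 hp, ← mul_assoc, hq.1.1])
  exact h2.symm

end Pool.Agent.H76P
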