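import Pool.Agent.Lib.H76P.C2

/-!
# C3: the number of points is the product of the numbers of coordinates
-/

set_option autoImplicit false
namespace Pool.Agent.H76P

variable {κ : Type*} [Fintype κ] {V : Type*} [AddCommGroup V] [Module ℚ V]

theorem cnt_zero [Nonempty κ] (pt : κ → V) : cnt pt 0 = 1 := by
  classical
  have h : cnt pt 0 = (Finset.univ.image fun _ : κ => (0 : V)).card := by
    unfold cnt
    congr 1
  rw [h, Finset.image_const Finset.univ_nonempty, Finset.card_singleton]

theorem cnt_one {pt : κ → V} (hinj : Function.Injective pt) : cnt pt 1 = Fintype.card κ := by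
  classical
  unfold cnt
  have h := Finset.card_image_of_injective (Finset.univ : Finset κ) hinj
  rw [Finset.card_univ] at h
  rw [← h]
  congr 1

/-- PROOF. The map `u ↦ (p u, q u)` from `{(p + q) (pt a)}` to `{p (pt a)} × {q (pt a)}` is well defined and injective
(`p (p + q) = p`, `q (p + q) = q` because `q * p = 0` by `Spl.comm`), and surjective: for `a`, `b` choose `c` with
`pt c = pt a + q (pt b - pt a)`: `p (pt c) = p (pt a)`, `q (pt c) = q (pt b)`. -/
theorem cnt_add {pt : κ → V} (hs : Spans pt) {p q : Module.End ℚ V} (hp : Spl pt p)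
    (hq : Spl pt q) (hpq : p * q = 0) : cnt pt (p + q) = cnt pt p * cnt pt q := by
  classical
  have hqp : q * p = 0 := by rw [← Spl.comm hs hp hq]; exact hpq
  have e1 : ∀ v, p (q v) = 0 := fun v => by
    have := LinearMap.congr_fun hpq v
    simpa using this
  have e2 : ∀ v, q (p v) = 0 := fun v => by
    have := LinearMap.congr_fun hqp v
    simpa using this
  have e3 : ∀ v, p (p v) = p v := fun v => by
    have := LinearMap.congr_fun hp.1 v
    simpa using this
  have e4 : ∀ v, q (q v) = q v := fun v => by
    have := LinearMap.congr_fun hq.1 v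
    simpa using this
  have c1 : cnt pt (p + q) = (Finset.univ.image fun a => (p + q) (pt a)).card := by
    unfold cnt
    congr
  have c2 : cnt pt p = (Finset.univ.image fun a => p (pt a)).card := by
    unfold cnt
    congr
  have c3 : cnt pt q = (Finset.univ.image fun a => q (pt a)).card := by
    unfold cnt
    congr
  rw [c1, c2, c3, ← Finset.card_product]
  have h1 : Set.InjOn (fun u : V => (p u, q u)) (Finset.univ.image fun a => (p + q) (pt a)) := by
    intro u hu u' hu' he
    rw [Finset.mem_coe, Finset.mem_image] at hu hu'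
    obtain ⟨a, -, rfl⟩ := hu
    obtain ⟨b, -, rfl⟩ := hu'
    have h2 := congrArg Prod.fst he
    have h3 := congrArg Prod.snd he
    simp only [LinearMap.add_apply, map_add, e1, e2, e3, e4, add_zero, zero_add] at h2 h3
    show (p + q) (pt a) = (p + q) (pt b)
    rw [LinearMap.add_apply, LinearMap.add_apply, h2, h3]
  rw [← Finset.card_image_of_injOn h1, Finset.image_image]
  congr 1
  ext ⟨x, y⟩
  rw [Finset.mem_image, Finset.mem_product, Finset.mem_image, Finset.mem_image]
  constructor
  · rintro ⟨a, -, ha⟩
    have h2 := congrArg Prod.fst ha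
    have h3 := congrArg Prod.snd ha
    simp only [Function.comp_apply, LinearMap.add_apply, map_add, e1, e2, e3, e4, add_zero,
      zero_add] at h2 h3
    exact ⟨⟨a, Finset.mem_univ _, h2⟩, ⟨a, Finset.mem_univ _, h3⟩⟩
  · rintro ⟨⟨a, -, ha⟩, ⟨b, -, hb⟩⟩
    obtain ⟨c, hc⟩ := hq.2 a b
    refine ⟨c, Finset.mem_univ _, ?_⟩
    simp only [Function.comp_apply, LinearMap.add_apply, map_add, e1, e2, e3, e4, add_zero,
      zero_add, hc, map_sub, sub_self]
    refine Prod.ext ?_ ?_
    · exact ha
    · show q (pt a) + (q (pt b) - q (pt a)) = y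
      rw [add_sub_cancel]
      exact hb

/-- PROOF. Induction over subsets of the set `s` of atoms: the sum over a subset `t` is a splitting (`Spl.add`), and
`cnt pt (∑ q ∈ t, q) = ∏ q ∈ t, cnt pt q` (`cnt_add`, `Atom.orth`, `cnt_zero`). For `t = s` use `cnt_one`. -/
theorem card_prod [Nonempty κ] {pt : κ → V} (hs : Spans pt) (hinj : Function.Injective pt)
    {s : Finset (Module.End ℚ V)} (h1 : ∀ q ∈ s, Atom pt q) (h2 : ∑ q ∈ s, q = 1) :
    Fintype.card κ = ∏ q ∈ s, cnt pt q := by
  classical
  have key : ∀ t : Finset (Module.End ℚ V), t ⊆ s → Spl pt (∑ q ∈ t, q) ∧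
      cnt pt (∑ q ∈ t, q) = ∏ q ∈ t, cnt pt q := by
    intro t
    induction t using Finset.induction_on with
    | empty =>
      intro _
      rw [Finset.sum_empty, Finset.prod_empty]
      exact ⟨Spl.zero pt, cnt_zero pt⟩
    | insert a t ha ih =>
      intro hsub
      obtain ⟨i1, i2⟩ := ih ((Finset.subset_insert _ _).trans hsub)
      have hA := h1 a (hsub (Finset.mem_insert_self _ _))
      have h0 : a * ∑ q ∈ t, q = 0 := by
        rw [Finset.mul_sum]
        refine Finset.sum_eq_zero fun q hq => ?_
        refine Atom.orth hs hA (h1 q (hsub (Finset.mem_insert_of_mem hq))) ?_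
        rintro rfl
        exact ha hq
      rw [Finset.sum_insert ha, Finset.prod_insert ha]
      exact ⟨Spl.add hs hA.1 i1 h0, by rw [cnt_add hs hA.1 i1 h0, i2]⟩
  have h3 := (key s (Finset.Subset.refl _)).2
  rw [h2, cnt_one hinj] at h3
  exact h3

/-- PROOF. `pt a` in the image of `q`: if all points have the same coordinate `q`, then `q (pt b - pt a) = 0` for all `a`, `b`, so `q = 0`
(`Spans.ext`). -/
theorem cnt_ne_one {pt : κ → V} (hs : Spans pt) {q : Module.End ℚ V} (h0 : q ≠ 0) :
    ∃ a b, q (pt a) ≠ q (pt b) := by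
  by_contra hcon
  push Not at hcon
  apply h0
  refine Spans.ext hs fun a b => ?_
  rw [map_sub, hcon b a, sub_self, LinearMap.zero_apply]

end Pool.Agent.H76P
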