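import Pool.Agent.Lib.H76P.C3

/-!
# C4: automorphisms
-/

set_option autoImplicit false
namespace Pool.Agent.H76P

variable {κ : Type*} {V : Type*} [AddCommGroup V] [Module ℚ V]

/-- The permutation `σ` of the points is induced by the linear automorphism `s`. -/
def Aff (pt : κ → V) (σ : Equiv.Perm κ) (s : V ≃ₗ[ℚ] V) : Prop :=
  ∀ a b, s (pt b - pt a) = pt (σ b) - pt (σ a)

/-- The conjugate of `p`. -/
def conj (s : V ≃ₗ[ℚ] V) (p : Module.End ℚ V) : Module.End ℚ V :=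
  s.toLinearMap ∘ₗ p ∘ₗ s.symm.toLinearMap

theorem conj_apply (s : V ≃ₗ[ℚ] V) (p : Module.End ℚ V) (u : V) :
    conj s p (s u) = s (p u) := by
  simp [conj]

theorem c4_inv (σ : Equiv.Perm κ) (a : κ) : σ (σ⁻¹ a) = a := by simp

theorem c4_symm {pt : κ → V} {σ : Equiv.Perm κ} {s : V ≃ₗ[ℚ] V} (h : Aff pt σ s) :
    Aff pt σ⁻¹ s.symm := by
  intro a b
  rw [LinearEquiv.symm_apply_eq, h, c4_inv, c4_inv]

theorem c4_mul (s : V ≃ₗ[ℚ] V) (p q : Module.End ℚ V) :
    conj s (p * q) = conj s p * conj s q := by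
  ext u
  simp [conj]

theorem c4_conj_symm (s : V ≃ₗ[ℚ] V) (p : Module.End ℚ V) :
    conj s.symm (conj s p) = p := by
  ext u
  simp [conj]

theorem c4_symm_conj (s : V ≃ₗ[ℚ] V) (p : Module.End ℚ V) :
    conj s (conj s.symm p) = p := by
  ext u
  simp [conj]

theorem c4_zero (s : V ≃ₗ[ℚ] V) : conj s (0 : Module.End ℚ V) = 0 := by
  ext u
  simp [conj]

/-- PROOF. Apply `s` to `pt c = pt a' + p (pt b' - pt a')`, `a' = σ⁻¹ a`, `b' = σ⁻¹ b`:
`pt (σ c) - pt a = s (pt c - pt a') = s (p (pt b' - pt a')) = conj s p (pt b - pt a)`. -/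
theorem Spl.conj {pt : κ → V} {σ : Equiv.Perm κ} {s : V ≃ₗ[ℚ] V} (h : Aff pt σ s)
    {p : Module.End ℚ V} (hp : Spl pt p) : Spl pt (conj s p) := by
  refine ⟨by rw [← c4_mul, hp.1], fun a b => ?_⟩
  obtain ⟨c, hc⟩ := hp.2 (σ⁻¹ a) (σ⁻¹ b)
  refine ⟨σ c, ?_⟩
  have h1 := h (σ⁻¹ a) c
  have h2 := h (σ⁻¹ a) (σ⁻¹ b)
  rw [c4_inv] at h1
  rw [c4_inv, c4_inv] at h2
  rw [← h2, conj_apply, ← sub_eq_iff_eq_add', ← h1, hc, add_sub_cancel_left]

/-- PROOF. `Spl.conj` for `s` and for `s.symm`, `σ⁻¹` (`Aff` holds for them). -/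
theorem Atom.conj {pt : κ → V} {σ : Equiv.Perm κ} {s : V ≃ₗ[ℚ] V} (h : Aff pt σ s)
    {q : Module.End ℚ V} (hq : Atom pt q) : Atom pt (conj s q) := by
  refine ⟨hq.1.conj h, fun h0 => hq.2.1 ?_, fun p hp hpq => ?_⟩
  · rw [← c4_conj_symm s q, h0, c4_zero]
  · have h1 : Spl pt (H76P.conj s.symm p) := hp.conj (c4_symm h)
    have h2 : H76P.conj s.symm p * q = H76P.conj s.symm p := by
      rw [← c4_conj_symm s q, ← c4_mul, hpq]
    rcases hq.2.2 _ h1 h2 with h3 | h3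
    · left
      rw [← c4_symm_conj s p, h3, c4_zero]
    · right
      rw [← c4_symm_conj s p, h3]

/-- PROOF. `κ` may be assumed nonempty; fix `a₀`.  `conj s p (pt (σ a) - pt (σ a₀)) = s (p (pt a - pt a₀))`.  So
`conj s p (pt (σ a)) = s (p (pt a)) + w` with `w = conj s p (pt (σ a₀)) - s (p (pt a₀))`, and `u ↦ s u + w` is a bijection between the two
sets of coordinates (`σ` is a bijection of `κ`). -/
theorem cnt_conj [Fintype κ] {pt : κ → V} {σ : Equiv.Perm κ} {s : V ≃ₗ[ℚ] V} (h : Aff pt σ s)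
    (p : Module.End ℚ V) : cnt pt (H76P.conj s p) = cnt pt p := by
  classical
  rcases isEmpty_or_nonempty κ with he | ⟨⟨a₀⟩⟩
  · unfold cnt
    rw [Finset.univ_eq_empty, Finset.image_empty, Finset.image_empty]
  obtain ⟨w, hw⟩ : ∃ w, w = H76P.conj s p (pt (σ a₀)) - s (p (pt a₀)) := ⟨_, rfl⟩
  have key : ∀ a, H76P.conj s p (pt (σ a)) = s (p (pt a)) + w := by
    intro a
    have h1 := conj_apply s p (pt a - pt a₀)
    rw [h, map_sub, map_sub, map_sub] at h1
    rw [hw, sub_eq_iff_eq_add.1 h1]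
    abel
  unfold cnt
  have e : (Finset.univ.image fun a => H76P.conj s p (pt a)) =
      (Finset.univ.image fun a => p (pt a)).image (fun u => s u + w) := by
    rw [Finset.image_image]
    ext u
    simp only [Finset.mem_image, Finset.mem_univ, true_and, Function.comp_apply]
    constructor
    · rintro ⟨a, rfl⟩
      refine ⟨σ⁻¹ a, ?_⟩
      rw [← key, c4_inv]
    · rintro ⟨a, rfl⟩
      exact ⟨σ a, key a⟩
  convert Finset.card_image_of_injective _ (f := fun u : V => s u + w) ?_ using 2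
  · convert e
  · intro u v huv
    exact s.injective (add_right_cancel huv)

end Pool.Agent.H76P
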