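import Pool.Agent.Lib.H76P.T0
import Pool.Agent.Lib.H76V.VC1

/-!
# The group theoretic part: definitions

`S` is the image of a subgroup of finite index with irreducible Zariski closure, `zlie S` its Lie
algebra, `𝓗` a set of projectors whose one parameter groups generate, `φ` an element of the
closure (crystalline Frobenius).
-/

set_option autoImplicit false
set_option linter.unusedSectionVars false
namespace Pool.Agent.H76P
open Module Matrix Pool.Agent.H53Toric
open Pool.Agent.H76U (preL cmp Split4)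
open Pool.Agent.H76V (SH)
open Pool.Agent.H76T (Lc mem_Lc)

variable {ι : Type*} [Fintype ι] [DecidableEq ι] {K : Type*} [Field K]

/-- Assumptions on the closure of `S` and on `φ`. -/
structure PH (S : Set (Matrix ι ι K)) (J : Matrix ι ι K) (DD : Submodule K (Matrix ι ι K))
    (𝓗 : Set (Matrix ι ι K)) (φ φ' : Matrix ι ι K) : Prop where
  sh : SH S J DD (1 : Unit →* Matrix ι ι K) 𝓗
  Ssim : ∀ s ∈ S, ∃ c : K, sᵀ * J * s = c • J
  inv : φ * φ' = 1
  φD : ∀ d ∈ DD, φ * d = d * φ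
  cnj : ∀ A ∈ zlie S, φ * A * φ' ∈ zlie S
  dgb : Diagonalisable φ
  torus : ∀ X ∈ zlie S, X * φ = φ * X → X ∈ zlie {m | ∃ n : ℕ, m = φ ^ n}
  torgen : ∃ N : ℕ, N ≠ 0 ∧ φ ^ N ∈ zar (Submonoid.closure {m | ∃ h ∈ 𝓗, h * φ = φ * h ∧
    ∃ t : K, t ≠ 0 ∧ m = 1 + (t - 1) • h} : Set (Matrix ι ι K))

/-- The columns of `P` are eigenvectors of `φ` with different eigenvalues. -/
structure EC (φ : Matrix ι ι K) {n : ℕ} (P : Matrix ι (Fin n) K) (d : Fin n → K) : Prop where
  eig : φ * P = P * Matrix.diagonal d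
  inj : Function.Injective d
  ne : ∀ k, d k ≠ 0

/-- The function `f` satisfies all linear relations which come from multiplicative relations
between the `d k`. -/
def LogLin {κ : Type*} [Fintype κ] (d f : κ → K) : Prop :=
  ∀ m : κ → ℤ, ∏ k, d k ^ m k = 1 → ∑ k, (m k : K) * f k = 0

/-- The assumption on the matrix `ν` (the logarithm of the absolute values of `φ`) for the
component cut out by `p`: some `h ∈ 𝓗` commutes with `φ`, and each space of matrices stable under
brackets with the Lie algebra which contains `(2 h - 1) p` contains `(ν - c) p` for some `c`. -/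
def NewtonC (S : Set (Matrix ι ι K)) (𝓗 : Set (Matrix ι ι K)) (φ ν p : Matrix ι ι K) : Prop :=
  ∃ h ∈ 𝓗, h * φ = φ * h ∧ ∀ I : Submodule K (Matrix ι ι K),
    (∀ C ∈ zlie S, ∀ A ∈ I, C * A - A * C ∈ I) → ((2 : K) • h - 1) * p ∈ I →
    ∃ c : K, (ν - c • 1) * p ∈ I

/-- The assumption on the automorphisms of the field. -/
def GalC {κ : Type*} (v : K → ℚ) (d : κ → K) : Prop :=
  ∀ a b, a ≠ b → ∃ (s : K ≃+* K) (σ : Equiv.Perm κ), (∀ k, d (σ k) = s (d k)) ∧
    v (d (σ a)) ≠ v (d (σ b))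

/-- The projectors different from `0` and `1` whose one parameter groups have values in the closure. -/
def properProj {L : Type*} [Field L] (K : Type*) [Field K] [Algebra L K] {G : Type*} [Group G]
    (ρ : G →* Matrix.GeneralLinearGroup ι L) : Set (Matrix ι ι K) :=
  {h | h ∈ hodgeProj (img K ρ ⊤) ∧ h ≠ 0 ∧ h ≠ 1}

/-- The number `c` is an eigenvalue of `φ` on the range of the idempotent `p`. -/
def EigOn (φ p : Matrix ι ι K) (c : K) : Prop :=
  ∃ z : ι → K, z ≠ 0 ∧ p *ᵥ z = z ∧ φ *ᵥ z = c • z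

/-- The assumptions on the prime `p`: `φ` is the crystalline Frobenius, `v` the `p`-adic
valuation, `ν` the logarithm of the absolute values of `φ`, `e b` are the primitive idempotents. -/
structure FrobP {L : Type*} [Field L] (K : Type*) [Field K] [Algebra L K] {G : Type*} [Group G]
    (ρ : G →* Matrix.GeneralLinearGroup ι L) {m : ℕ} (e : Fin m → Matrix ι ι K)
    (φ ν : Matrix ι ι K) (v : K → ℚ) : Prop where
  idc : φ ∈ H49M.idc K ρ
  dgb : Diagonalisable φ
  torus : ∀ H : Subgroup G, H.FiniteIndex → ∀ X ∈ zlie (img K ρ H), X * φ = φ * X →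
    X ∈ zlie {x | ∃ n : ℕ, x = φ ^ n}
  simple : ∀ b (c : K) (z z' : ι → K), e b *ᵥ z = z → e b *ᵥ z' = z' → φ *ᵥ z = c • z →
    φ *ᵥ z' = c • z' → z ≠ 0 → ∃ t : K, z' = t • z
  gen : ∃ H : Subgroup G, H.FiniteIndex ∧ img K ρ H ⊆ zar (Submonoid.closure
    {x | ∃ h ∈ properProj K ρ, ∃ t : K, t ≠ 0 ∧ x = 1 + (t - 1) • h} : Set (Matrix ι ι K))
  torgen : ∃ N : ℕ, N ≠ 0 ∧ φ ^ N ∈ zar (Submonoid.closure
    {x | ∃ h ∈ properProj K ρ, h * φ = φ * h ∧ ∃ t : K, t ≠ 0 ∧ x = 1 + (t - 1) • h} :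
      Set (Matrix ι ι K))
  gal : ∀ b a a', EigOn φ (e b) a → EigOn φ (e b) a' → a ≠ a' →
    ∃ s : K ≃+* K, (∀ c, EigOn φ (e b) c → EigOn φ (e b) (s c)) ∧ v (s a) ≠ v (s a')
  nu : ∀ (c : K) (z : ι → K), φ *ᵥ z = c • z → ν *ᵥ z = (v c : K) • z
  newton : ∀ b (H : Subgroup G), H.FiniteIndex →
    NewtonC (img K ρ H) (properProj K ρ) φ ν (e b)

end Pool.Agent.H76P
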