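import Pool.Agent.Lib.H76P.G1

/-!
# G10: the structure PH
-/

set_option autoImplicit false
set_option linter.unusedSectionVars false
namespace Pool.Agent.H76P
open Module Matrix Polynomial Pool.Agent.H53Toric
open Pool.Agent.H76U (IsSplitting split4_of Split4 idem_factor rank_idem_map tw preL cmp)
open Pool.Agent.H76RM (van spanK similD Seed Setup Split comm_span split_of)
open Pool.Agent.H76T (rK rK_apply img_sub_inf nil_of_zar seed_of_fu monodromy_seed Lc AllIndep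
  nroots)
open Pool.Agent.H49M (idc)

variable {ι : Type*} [Fintype ι] [DecidableEq ι]
variable {L : Type*} [Field L] {K : Type*} [Field K] [Algebra L K] {G : Type*} [Group G]

/-- PROOF. `φ' = φ⁻¹` (`φ.det ≠ 0` by `hφ.1`).  `sh`: as `H76V.mk_sh` (H76V/VC1.lean) with `𝓗 = properProj K ρ` and the trivial group
instead of `rK K ρ`: `SH.mk` with the same fields `one`, `SD`, `semis`, `commt`, `hz`, `hi`, `hs`, `gen` as the structure given by
`mk_sh`; `cnj`, `sim`, `rD` are trivial for `1 : Unit →* Matrix ι ι K` (`ev (1 * s * 1) f = 0` for `f ∈ van S`).  `φD`: `φ ∈ zar (img K ρ H)`,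
`H76RM.zar_commute`.  `cnj`: `zlie_cnj` (`img_one`, `img_mul`). -/
theorem mk_ph [Nonempty ι] [CharZero L] [CharZero K] [IsAlgClosed K] {ψ : Matrix ι ι ℚ}
    (hψ : ψᵀ = -ψ) (hψ0 : ψ.det ≠ 0) (D : Subalgebra ℚ (Matrix ι ι ℚ))
    (ρ : G →* Matrix.GeneralLinearGroup ι L)
    (lin : ∀ σ : G, ∀ d ∈ D, (ρ σ).1 * d.map (algebraMap ℚ L) =
      d.map (algebraMap ℚ L) * (ρ σ).1)
    (sim : ∀ σ : G, ∃ c : L, (ρ σ).1ᵀ * ψ.map (algebraMap ℚ L) * (ρ σ).1 =
      c • ψ.map (algebraMap ℚ L))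
    (semis : ∀ H : Subgroup G, H.FiniteIndex → ∀ W : Submodule K (ι → K),
      (∀ s ∈ img K ρ H, ∀ w ∈ W, s *ᵥ w ∈ W) →
      ∃ W' : Submodule K (ι → K), (∀ s ∈ img K ρ H, ∀ w ∈ W', s *ᵥ w ∈ W') ∧ IsCompl W W')
    (commt : ∀ H : Subgroup G, H.FiniteIndex → ∀ y : Matrix ι ι K,
      (∀ s ∈ img K ρ H, y * s = s * y) → y ∈ spanK K D)
    {m : ℕ} {e : Fin m → Matrix ι ι K} {φ ν : Matrix ι ι K} {v : K → ℚ} (F : FrobP K ρ e φ ν v)
    {H : Subgroup G} (hfin : H.FiniteIndex) (hprime : (van (img K ρ H)).IsPrime) :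
    ∃ φ' : Matrix ι ι K, PH (img K ρ H) (ψ.map (algebraMap ℚ K)) (spanK K D)
      (properProj K ρ) φ φ' := by
  obtain ⟨H', hH', hgen⟩ := F.gen
  have g := Pool.Agent.H76V.mk_sh (K := K) hψ hψ0 D ρ lin sim semis commt
    (𝓗 := properProj K ρ) (fun x hx => hx.1) (fun x hx => hx.2) hH' hgen hfin hprime
  have hx : φ ∈ zar (img K ρ H) := F.idc.2 H hfin
  have hinv : φ * φ⁻¹ = 1 := Matrix.mul_nonsing_inv φ (isUnit_iff_ne_zero.2 F.idc.1)
  refine ⟨φ⁻¹, ⟨⟨g.one, g.SD, g.semis, g.commt, ?_, ?_, ?_, g.hz, g.hi, g.hs, g.gen⟩, ?_, hinv,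
    fun d hd => H76RM.zar_commute (fun s hs => g.SD s hs d hd) hx, fun A hA => zlie_cnj (img_one ρ H)
      (img_mul ρ H) hx hinv hA, F.dgb, F.torus H hfin, F.torgen⟩⟩
  · intro γ f hf s hs
    simp only [MonoidHom.one_apply, one_mul, mul_one]
    exact hf s hs
  · intro γ
    refine ⟨1, one_ne_zero, ?_⟩
    simp
  · intro γ d hd
    simp
  · rintro _ ⟨σ, -, rfl⟩
    obtain ⟨c, -, hc⟩ := g.sim σ
    exact ⟨c, hc⟩

end Pool.Agent.H76P
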