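import Pool.Agent.Lib.H76P.G0

/-!
# G11: eigenbases of the components
-/

set_option autoImplicit false
set_option linter.unusedSectionVars false
namespace Pool.Agent.H76P
open Module Matrix Polynomial Pool.Agent.H53Toric
open Pool.Agent.H76U (IsSplitting split4_of Split4 idem_factor rank_idem_map tw preL cmp)
open Pool.Agent.H76RM (van spanK similD Seed Setup Split comm_span split_of)
open Pool.Agent.H76T (rK rK_apply img_sub_inf nil_of_zar seed_of_fu monodromy_seed Lc AllIndep
  nroots)
open Pool.Agent.H49M (idc)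

variable {ι : Type*} [Fintype ι] [DecidableEq ι] {K : Type*} [Field K] [CharZero K]

/-- `idem_factor` for a given basis of the range. -/
theorem g11_factor {p : Matrix ι ι K} (hp : p * p = p)
    (bs : Basis (Fin p.rank) K (LinearMap.range p.mulVecLin)) :
    ∃ Q : Matrix (Fin p.rank) ι K, p = (Matrix.of fun i j => (bs j).1 i) * Q ∧
      Q * (Matrix.of fun i j => (bs j).1 i) = 1 := by
  set P : Matrix ι (Fin p.rank) K := Matrix.of fun i j => (bs j).1 i with hP
  set Q : Matrix (Fin p.rank) ι K :=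
    Matrix.of fun j i => bs.repr ⟨p *ᵥ Pi.single i 1, ⟨Pi.single i 1, rfl⟩⟩ j with hQ
  have hpb : ∀ j, p *ᵥ (bs j).1 = (bs j).1 := by
    intro j
    obtain ⟨z, hz⟩ := (bs j).2
    rw [← hz, Matrix.mulVecLin_apply, Matrix.mulVec_mulVec, hp]
  have hPQ : p = P * Q := by
    ext i k
    rw [Matrix.mul_apply]
    have h1 := congrArg Subtype.val (bs.sum_repr ⟨p *ᵥ Pi.single k 1, ⟨Pi.single k 1, rfl⟩⟩)
    rw [Submodule.coe_sum] at h1
    have h2 := congrFun h1 i
    rw [Finset.sum_apply] at h2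
    have h3 : (p *ᵥ Pi.single k 1) i = p i k := by
      rw [Matrix.mulVec_single_one]; rfl
    rw [← h3]
    change (p *ᵥ Pi.single k 1) i = _
    have h4 : (⟨p *ᵥ Pi.single k 1, ⟨Pi.single k 1, rfl⟩⟩ : LinearMap.range p.mulVecLin).1 = p *ᵥ Pi.single k 1 := rfl
    rw [← h4, ← h2]
    apply Finset.sum_congr rfl
    intro j _
    simp only [hP, hQ, Matrix.of_apply, Submodule.coe_smul, Pi.smul_apply, smul_eq_mul]
    rw [mul_comm]
  refine ⟨Q, hPQ, ?_⟩
  -- `P` is injective
  have hinj : ∀ v : Fin p.rank → K, P *ᵥ v = 0 → v = 0 := by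
    intro v hv
    have h1 : ∑ j, v j • bs j = 0 := by
      apply Subtype.ext
      rw [Submodule.coe_sum]
      funext i
      have h2 := congrFun hv i
      rw [Matrix.mulVec, dotProduct] at h2
      rw [Finset.sum_apply]
      simp only [Submodule.coe_smul, Pi.smul_apply, smul_eq_mul]
      have h5 : ((0 : LinearMap.range p.mulVecLin) : ι → K) i = (0 : ι → K) i := rfl
      rw [h5, ← h2]
      apply Finset.sum_congr rfl
      intro j _
      simp only [hP, Matrix.of_apply]
      ring
    have h2 := Fintype.linearIndependent_iff.1 bs.linearIndependent v h1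
    funext j
    exact h2 j
  have hpP : p * P = P := by
    ext i j
    have := congrFun (hpb j) i
    rw [Matrix.mul_apply]
    rw [Matrix.mulVec, dotProduct] at this
    exact this
  set R : Matrix (Fin p.rank) (Fin p.rank) K := Q * P - 1 with hR
  have h3 : P * R = 0 := by
    rw [hR, Matrix.mul_sub, ← Matrix.mul_assoc, ← hPQ, hpP, Matrix.mul_one, sub_self]
  rw [← sub_eq_zero, ← hR]
  ext i j
  have h4 := hinj (fun k => R k j) (by
    funext k
    have := congrFun (congrFun h3 k) j
    rw [Matrix.mul_apply] at this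
    rw [Matrix.mulVec, dotProduct]
    exact this)
  exact congrFun h4 i

/-- PROOF. The range `W` of `p` is stable under `φ` and `φ` is diagonalisable, so `W` has a basis of eigenvectors of `φ`: the projectors on the
eigenspaces of `φ` are polynomials in `φ` (or `H76T.pj`), commute with `p`, and their sum is `1`, so `W` is the direct sum of its intersections
with the eigenspaces; by `hsimple` each of these has dimension at most one.  The columns of `P` are these eigenvectors
(`p.rank` = the dimension of `W`), `Q = ` the coordinates of `p z`: since the columns of `P` are a basis of the range of `p` there is a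
matrix `Q` with `p = P * Q`, and `p * P = P` gives `P * (Q * P) = P`, so `Q * P = 1` (the columns are linearly independent).  Different
columns have different eigenvalues by `hsimple`; eigenvalues are not zero because of `hdet`.  (Compare `H76U.idem_factor`; one can
also start with `P₀`, `Q₀` from `idem_factor`, diagonalise `Q₀ * φ * P₀ = A * diagonal d * A⁻¹` and take `P = P₀ * A`, `Q = A⁻¹ * Q₀`.) -/
theorem exists_ec {φ p : Matrix ι ι K} (hp : p * p = p) (hc : p * φ = φ * p)
    (hdg : Diagonalisable φ) (hdet : φ.det ≠ 0)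
    (hsimple : ∀ (c : K) (z z' : ι → K), p *ᵥ z = z → p *ᵥ z' = z' → φ *ᵥ z = c • z →
      φ *ᵥ z' = c • z' → z ≠ 0 → ∃ t : K, z' = t • z) :
    ∃ (P : Matrix ι (Fin p.rank) K) (Q : Matrix (Fin p.rank) ι K) (d : Fin p.rank → K),
      p = P * Q ∧ Q * P = 1 ∧ EC φ P d := by
  obtain ⟨A, B, δ, hAB, hBA, hφ⟩ := hdg
  -- the columns of A
  have hcol : ∀ j, φ *ᵥ (fun i => A i j) = δ j • (fun i => A i j) := by
    intro j
    have h1 : φ * A = A * Matrix.diagonal δ := by
      rw [hφ, Matrix.mul_assoc, hBA, Matrix.mul_one]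
    funext i
    have h2 := congrFun (congrFun h1 i) j
    rw [Matrix.mul_apply] at h2
    rw [Matrix.mulVec, dotProduct, h2, Matrix.mul_diagonal, Pi.smul_apply, smul_eq_mul, mul_comm]
  have hpcol : ∀ j, φ *ᵥ (p *ᵥ (fun i => A i j)) = δ j • (p *ᵥ (fun i => A i j)) := by
    intro j
    rw [Matrix.mulVec_mulVec, ← hc, ← Matrix.mulVec_mulVec, hcol, Matrix.mulVec_smul]
  let W := LinearMap.range p.mulVecLin
  let g : ι → W := fun j => ⟨p *ᵥ (fun i => A i j), ⟨fun i => A i j, rfl⟩⟩
  have hspan : ⊤ ≤ Submodule.span K (Set.range g) := by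
    rintro ⟨z, w, hw⟩ -
    have h1 : w = ∑ j, (B *ᵥ w) j • (fun i => A i j) := by
      have h2 : A *ᵥ (B *ᵥ w) = w := by rw [Matrix.mulVec_mulVec, hAB, Matrix.one_mulVec]
      conv_lhs => rw [← h2]
      funext i
      rw [Matrix.mulVec, dotProduct, Finset.sum_apply]
      refine Finset.sum_congr rfl fun j _ => ?_
      rw [Pi.smul_apply, smul_eq_mul, mul_comm]
    have h3 : (⟨z, w, hw⟩ : W) = ∑ j, (B *ᵥ w) j • g j := by
      apply Subtype.ext
      show z = _
      rw [Submodule.coe_sum]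
      have h4 : z = p.mulVecLin w := hw.symm
      rw [h4]
      conv_lhs => rw [h1]
      rw [map_sum]
      refine Finset.sum_congr rfl fun j _ => ?_
      rw [map_smul]
      rfl
    rw [h3]
    exact Submodule.sum_mem _ fun j _ => Submodule.smul_mem _ _ (Submodule.subset_span ⟨j, rfl⟩)
  let b0 := Basis.ofSpan hspan
  have hft := FiniteDimensional.fintypeBasisIndex b0
  have hcard : Fintype.card ((linearIndepOn_empty K id).extend (Set.empty_subset (Set.range g))) = p.rank :=
    (Module.finrank_eq_card_basis b0).symm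
  let bs : Basis (Fin p.rank) K W := b0.reindex (Fintype.equivFinOfCardEq hcard)
  have hbs : ∀ k, ∃ j, bs k = g j := by
    intro k
    have h1 : bs k ∈ Set.range b0 := by
      rw [← Basis.range_reindex b0 (Fintype.equivFinOfCardEq hcard)]
      exact ⟨k, rfl⟩
    obtain ⟨j, hj⟩ := Basis.ofSpan_subset hspan h1
    exact ⟨j, hj.symm⟩
  choose jj hjj using hbs
  obtain ⟨Q, hPQ, hQP⟩ := g11_factor hp bs
  set P : Matrix ι (Fin p.rank) K := Matrix.of fun i j => (bs j).1 i with hP
  have hPcol : ∀ k, (fun i => P i k) = (bs k).1 := fun k => rfl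
  have hne : ∀ k, (bs k).1 ≠ 0 := fun k h => bs.ne_zero k (Subtype.ext h)
  have heig : ∀ k, φ *ᵥ (bs k).1 = δ (jj k) • (bs k).1 := by
    intro k
    rw [hjj k]
    exact hpcol (jj k)
  have hpb : ∀ k, p *ᵥ (bs k).1 = (bs k).1 := by
    intro k
    obtain ⟨z, hz⟩ := (bs k).2
    rw [← hz, Matrix.mulVecLin_apply, Matrix.mulVec_mulVec, hp]
  refine ⟨P, Q, fun k => δ (jj k), hPQ, hQP, ?_, ?_, ?_⟩
  · ext i k
    have h1 := congrFun (heig k) i
    rw [Matrix.mulVec, dotProduct, Pi.smul_apply, smul_eq_mul] at h1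
    rw [Matrix.mul_apply, Matrix.mul_diagonal, mul_comm (P i k)]
    exact h1
  · intro k l hkl
    by_contra hne2
    have hkl' : δ (jj k) = δ (jj l) := hkl
    obtain ⟨t, ht⟩ := hsimple (δ (jj k)) (bs k).1 (bs l).1 (hpb k) (hpb l) (heig k)
      (by rw [hkl']; exact heig l) (hne k)
    have h2 : bs l = t • bs k := Subtype.ext ht
    have h3 := congrArg (fun x => bs.repr x l) h2
    simp only [Basis.repr_self, map_smul, Finsupp.smul_apply, Finsupp.single_eq_same, smul_eq_mul] at h3
    rw [Finsupp.single_eq_of_ne (fun h => hne2 h.symm), mul_zero] at h3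
    exact one_ne_zero h3
  · intro k hk
    have h1 := heig k
    have hk : δ (jj k) = 0 := hk
    rw [hk, zero_smul] at h1
    have h2 : (bs k).1 = 0 := by
      have h3 : φ⁻¹ *ᵥ (φ *ᵥ (bs k).1) = φ⁻¹ *ᵥ 0 := by rw [h1]
      rw [Matrix.mulVec_mulVec, Matrix.nonsing_inv_mul _ (isUnit_iff_ne_zero.2 hdet), Matrix.one_mulVec,
        Matrix.mulVec_zero] at h3
      exact h3
    exact hne k h2

/-- PROOF. `EigOn φ p c ↔ ∃ k, d k = c`: if `z = p z = P (Q z)` and `φ z = c z` then `P (diagonal d (Q z)) = P (c Q z)`, so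
`d k * (Q z) k = c * (Q z) k` for all `k`, and `Q z ≠ 0`.  For `a ≠ b` take `s` for `d a ≠ d b`.  `k ↦` the `k'` with `d k' = s (d k)` is an injective map
of the finite set, so a permutation `σ`. -/
theorem galC_of {φ p : Matrix ι ι K} {n : ℕ} {P : Matrix ι (Fin n) K} {Q : Matrix (Fin n) ι K}
    {d : Fin n → K} (hPQ : p = P * Q) (hQP : Q * P = 1) (E : EC φ P d) {v : K → ℚ}
    (hgal : ∀ a a', EigOn φ p a → EigOn φ p a' → a ≠ a' →
      ∃ s : K ≃+* K, (∀ c, EigOn φ p c → EigOn φ p (s c)) ∧ v (s a) ≠ v (s a')) :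
    GalC v d := by
  have hcol : ∀ k, φ *ᵥ (fun i => P i k) = d k • (fun i => P i k) := by
    intro k
    funext i
    have h2 := congrFun (congrFun E.eig i) k
    rw [Matrix.mul_apply] at h2
    rw [Matrix.mulVec, dotProduct, h2, Matrix.mul_diagonal, Pi.smul_apply, smul_eq_mul, mul_comm]
  have hpP : p * P = P := by rw [hPQ, Matrix.mul_assoc, hQP, Matrix.mul_one]
  have hPne : ∀ k, (fun i => P i k) ≠ 0 := by
    intro k h
    have h1 := congrFun (congrFun hQP k) k
    rw [Matrix.mul_apply, Matrix.one_apply_eq] at h1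
    have h2 : ∀ i, P i k = 0 := fun i => congrFun h i
    simp only [h2, mul_zero, Finset.sum_const_zero] at h1
    exact zero_ne_one h1
  have hE1 : ∀ k, EigOn φ p (d k) := by
    intro k
    refine ⟨fun i => P i k, hPne k, ?_, hcol k⟩
    funext i
    have h1 := congrFun (congrFun hpP i) k
    rw [Matrix.mul_apply] at h1
    exact h1
  have hE2 : ∀ c, EigOn φ p c → ∃ k, d k = c := by
    rintro c ⟨z, hz, hpz, hφz⟩
    have h1 : P *ᵥ (Q *ᵥ z) = z := by rw [Matrix.mulVec_mulVec, ← hPQ, hpz]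
    have h2 : φ *ᵥ z = P *ᵥ (Matrix.diagonal d *ᵥ (Q *ᵥ z)) := by
      conv_lhs => rw [← h1]
      rw [Matrix.mulVec_mulVec, E.eig, ← Matrix.mulVec_mulVec]
    have h3 : Matrix.diagonal d *ᵥ (Q *ᵥ z) = c • (Q *ᵥ z) := by
      have h4 : Q *ᵥ (P *ᵥ (Matrix.diagonal d *ᵥ (Q *ᵥ z))) = Q *ᵥ (c • z) := by
        rw [h2.symm.trans hφz]
      rw [Matrix.mulVec_mulVec, hQP, Matrix.one_mulVec, Matrix.mulVec_smul] at h4
      exact h4
    have h5 : Q *ᵥ z ≠ 0 := by
      intro h
      rw [h, Matrix.mulVec_zero] at h1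
      exact hz h1.symm
    obtain ⟨k, hk⟩ : ∃ k, (Q *ᵥ z) k ≠ 0 := by
      by_contra hcon
      push Not at hcon
      exact h5 (funext hcon)
    refine ⟨k, ?_⟩
    have h6 := congrFun h3 k
    rw [Matrix.mulVec_diagonal, Pi.smul_apply, smul_eq_mul] at h6
    exact mul_right_cancel₀ hk h6
  intro a b hab
  obtain ⟨s, hs, hv⟩ := hgal (d a) (d b) (hE1 a) (hE1 b) (fun h => hab (E.inj h))
  have hex : ∀ k, ∃ k', d k' = s (d k) := fun k => hE2 _ (hs _ (hE1 k))
  choose σ hσ using hex
  have hinj : Function.Injective σ := by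
    intro k l hkl
    apply E.inj
    apply s.injective
    rw [← hσ, ← hσ, hkl]
  refine ⟨s, Equiv.ofBijective σ (Finite.injective_iff_bijective.1 hinj), fun k => hσ k, ?_⟩
  show v (d (σ a)) ≠ v (d (σ b))
  rw [hσ, hσ]
  exact hv

/-- PROOF. Columns. -/
theorem nu_of {φ ν : Matrix ι ι K} {n : ℕ} {P : Matrix ι (Fin n) K} {d : Fin n → K}
    (E : EC φ P d) {v : K → ℚ}
    (hν : ∀ (c : K) (z : ι → K), φ *ᵥ z = c • z → ν *ᵥ z = (v c : K) • z) :
    ν * P = P * Matrix.diagonal (fun k => (v (d k) : K)) := by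
  ext i k
  have h1 : φ *ᵥ (fun i => P i k) = d k • (fun i => P i k) := by
    funext i
    have h2 := congrFun (congrFun E.eig i) k
    rw [Matrix.mul_apply] at h2
    rw [Matrix.mulVec, dotProduct, h2, Matrix.mul_diagonal, Pi.smul_apply, smul_eq_mul, mul_comm]
  have h3 := congrFun (hν (d k) (fun i => P i k) h1) i
  rw [Matrix.mulVec, dotProduct, Pi.smul_apply, smul_eq_mul] at h3
  rw [Matrix.mul_apply, Matrix.mul_diagonal, mul_comm (P i k)]
  exact h3

end Pool.Agent.H76P
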