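import Pool.Agent.Lib.H76P.G9
import Pool.Agent.Lib.H76P.G10
import Pool.Agent.Lib.H76P.G11
import Pool.Agent.Lib.H76T.TE4

/-!
# G12: seeds, the monodromy group at p
-/

set_option autoImplicit false
set_option linter.unusedSectionVars false
namespace Pool.Agent.H76P
open Module Matrix Polynomial Pool.Agent.H53Toric
open Pool.Agent.H76U (IsSplitting split4_of Split4 idem_factor rank_idem_map tw preL cmp)
open Pool.Agent.H76RM (van spanK similD Seed Setup Split comm_span split_of)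
open Pool.Agent.H76T (rK rK_apply img_sub_inf nil_of_zar seed_of_fu monodromy_seed Lc AllIndep
  nroots)
open Pool.Agent.H49M (idc)

variable {ι : Type*} [Fintype ι] [DecidableEq ι]
variable {L : Type*} [Field L] {K : Type*} [Field K] [Algebra L K] {G : Type*} [Group G]

/-- PROOF. As the end of the proof of `H76V.monodromy_tor` (H76V/VC1.lean): `ι` is nonempty (`hspl.ne_zero b`).  `mk_ph` gives `g`; `exists_ec` with
`p = e b` gives `P`, `Q`, `d` (`φ` commutes with `e b`: `g.φD`), `n = (e b).rank > 0`; `galC_of`, `nu_of`, `F.newton`; `comp_full` gives `hfull`,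
`fu_of_full` gives the transvections.  `seed_of_fu` needs one `h₀ ∈ 𝓗`: `(F.newton b H₀ hfin)` gives one; it commutes with `e b`
(`H76V.preL_ec`, or `zlie_commute` for `g.sh.hz`). -/
theorem seed_p [CharZero L] [CharZero K] [IsAlgClosed K] {ψ : Matrix ι ι ℚ}
    (hψ : ψᵀ = -ψ) (hψ0 : ψ.det ≠ 0) (D : Subalgebra ℚ (Matrix ι ι ℚ))
    (ρ : G →* Matrix.GeneralLinearGroup ι L)
    (lin : ∀ σ : G, ∀ d ∈ D, (ρ σ).1 * d.map (algebraMap ℚ L) =
      d.map (algebraMap ℚ L) * (ρ σ).1)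
    (sim : ∀ σ : G, ∃ c : L, (ρ σ).1ᵀ * ψ.map (algebraMap ℚ L) * (ρ σ).1 =
      c • ψ.map (algebraMap ℚ L))
    (semis : ∀ H : Subgroup G, H.FiniteIndex → ∀ W : Submodule K (ι → K),
      (∀ s ∈ img K ρ H, ∀ w ∈ W, s *ᵥ w ∈ W) →
      ∃ W' : Submodule K (ι → K), (∀ s ∈ img K ρ H, ∀ w ∈ W', s *ᵥ w ∈ W') ∧ IsCompl W W')
    (commt : ∀ H : Subgroup G, H.FiniteIndex → ∀ y : Matrix ι ι K,
      (∀ s ∈ img K ρ H, y * s = s * y) → y ∈ spanK K D)
    {m : ℕ} {e : Fin m → Matrix ι ι K} (hspl : IsSplitting D ψ id e)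
    {φ ν : Matrix ι ι K} {v : K → ℚ} (F : FrobP K ρ e φ ν v)
    (hp : ∀ b (a k : ℕ), 2 ≤ k → (e b).rank ≠ a ^ k)
    (hc : ∀ b (k : ℕ), 3 ≤ k → Odd k → (e b).rank ≠ k.centralBinom)
    (H₀ : Subgroup G) (hfin : H₀.FiniteIndex) (hprime : (van (img K ρ H₀)).IsPrime)
    (b : Fin m) : Seed (om (ψ.map (algebraMap ℚ K))) (fun b => phi (e b))
        (lieE (ψ.map (algebraMap ℚ K)) (img K ρ H₀)) b := by
  classical
  obtain ⟨hJ, hdet⟩ := gram_basic hψ hψ0 K
  have hspl4 := split4_of hspl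
  have hι : Nonempty ι := by
    by_contra hemp
    rw [not_nonempty_iff] at hemp
    apply hspl.ne_zero b
    ext i
    exact (hemp.false i).elim
  obtain ⟨φ', g⟩ := mk_ph hψ hψ0 D ρ lin sim semis commt F hfin hprime
  have hn : 0 < (e b).rank := by
    rw [Nat.pos_iff_ne_zero]
    intro hr
    apply hspl.ne_zero b
    have h2 : finrank K (LinearMap.range (e b).mulVecLin) = 0 := hr
    rw [Submodule.finrank_eq_zero, LinearMap.range_eq_bot] at h2
    apply Matrix.toLin'.injective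
    rw [map_zero]
    exact h2
  obtain ⟨P, Q, d, hPQ, hQP, E⟩ := exists_ec (hspl.idem b) (g.φD (e b) (hspl4.mem b)).symm
    F.dgb F.idc.1 (F.simple b)
  have hgal := galC_of hPQ hQP E (F.gal b)
  have hν := nu_of E F.nu
  have hN := F.newton b H₀ hfin
  have hfull : ∀ {X : Module.End K (Fin (e b).rank → K)},
      adjE (Pᵀ * ψ.map (algebraMap ℚ K) * P) X = -X →
        X ∈ Lc (ψ.map (algebraMap ℚ K)) (img K ρ H₀) P Q := fun {X} hX =>
    comp_full hspl4 rfl hJ hdet hPQ hQP g E hn hgal hν hN (hp b) (hc b) hX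
  obtain ⟨h₀, hh₀, -, -⟩ := F.newton b H₀ hfin
  refine seed_of_fu hJ hdet (g.sh.hz h₀ hh₀) (g.sh.hi h₀ hh₀) (g.sh.hs h₀ hh₀) (hspl.idem b)
    (hspl.adj b) (hspl.ne_zero b) ?_ ?_
  · have h2 : h₀ ∈ H76U.preL (ψ.map (algebraMap ℚ K)) (img K ρ H₀) := by
      refine ⟨⟨0, h₀, g.sh.hz h₀ hh₀, by rw [zero_smul, add_zero]⟩, 1, ?_⟩
      rw [g.sh.hs h₀ hh₀, one_smul]
    exact H76V.preL_ec hspl4 g.sh h2
  · intro u hu
    exact fu_of_full hspl4 rfl hJ hdet hPQ hQP g hn hfull hu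

/-- PROOF. `H76T.monodromy_seed` (see `H76V.monodromy_tor`) and `seed_p`. -/
theorem mono_p [CharZero L] [CharZero K] [IsAlgClosed K] {ψ : Matrix ι ι ℚ}
    (hψ : ψᵀ = -ψ) (hψ0 : ψ.det ≠ 0) (D : Subalgebra ℚ (Matrix ι ι ℚ))
    (ρ : G →* Matrix.GeneralLinearGroup ι L)
    (lin : ∀ σ : G, ∀ d ∈ D, (ρ σ).1 * d.map (algebraMap ℚ L) =
      d.map (algebraMap ℚ L) * (ρ σ).1)
    (sim : ∀ σ : G, ∃ c : L, (ρ σ).1ᵀ * ψ.map (algebraMap ℚ L) * (ρ σ).1 =
      c • ψ.map (algebraMap ℚ L))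
    (cyc : ∃ σ : G, ∃ c : L, (ρ σ).1ᵀ * ψ.map (algebraMap ℚ L) * (ρ σ).1 =
      c • ψ.map (algebraMap ℚ L) ∧ ∀ n : ℕ, n ≠ 0 → c ^ n ≠ 1)
    (semis : ∀ H : Subgroup G, H.FiniteIndex → ∀ W : Submodule K (ι → K),
      (∀ s ∈ img K ρ H, ∀ w ∈ W, s *ᵥ w ∈ W) →
      ∃ W' : Submodule K (ι → K), (∀ s ∈ img K ρ H, ∀ w ∈ W', s *ᵥ w ∈ W') ∧ IsCompl W W')
    (commt : ∀ H : Subgroup G, H.FiniteIndex → ∀ y : Matrix ι ι K,
      (∀ s ∈ img K ρ H, y * s = s * y) → y ∈ spanK K D)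
    {m : ℕ} {e : Fin m → Matrix ι ι K} (hspl : IsSplitting D ψ id e)
    {φ ν : Matrix ι ι K} {v : K → ℚ} (F : FrobP K ρ e φ ν v)
    (hp : ∀ b (a k : ℕ), 2 ≤ k → (e b).rank ≠ a ^ k)
    (hc : ∀ b (k : ℕ), 3 ≤ k → Odd k → (e b).rank ≠ k.centralBinom)
    (H : Subgroup G) (hH : H.FiniteIndex) : monodromy K ρ H = similD K ψ D := by
  have hsplR : H76RM.IsSplitting D ψ e :=
    ⟨hspl.mem, hspl.idem, hspl.adj, hspl.corner, hspl.orth, hspl.full⟩
  exact monodromy_seed hψ hψ0 D ρ lin sim cyc semis commt hsplR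
    (fun H₀ hfin hprime _ b =>
      seed_p hψ hψ0 D ρ lin sim semis commt hspl F hp hc H₀ hfin hprime b) H hH

/-- PROOF. Copy the proof of `H76T.lie_seed` (H76T/TE4.lean) with the seeds `seed_p`; there `hX1 : X ∈ zlie (img K ρ H₀)` is in the context, and
`H₀` is obtained at the beginning from `exists_prime`, so it does not depend on `b` and `u`.  (If `m = 0` take any `H₀`; the
proof there uses `b` only for `J ≠ 0`.) -/
theorem lie_p [CharZero L] [CharZero K] [IsAlgClosed K] {ψ : Matrix ι ι ℚ}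
    (hψ : ψᵀ = -ψ) (hψ0 : ψ.det ≠ 0) (D : Subalgebra ℚ (Matrix ι ι ℚ))
    (ρ : G →* Matrix.GeneralLinearGroup ι L)
    (lin : ∀ σ : G, ∀ d ∈ D, (ρ σ).1 * d.map (algebraMap ℚ L) =
      d.map (algebraMap ℚ L) * (ρ σ).1)
    (sim : ∀ σ : G, ∃ c : L, (ρ σ).1ᵀ * ψ.map (algebraMap ℚ L) * (ρ σ).1 =
      c • ψ.map (algebraMap ℚ L))
    (semis : ∀ H : Subgroup G, H.FiniteIndex → ∀ W : Submodule K (ι → K),
      (∀ s ∈ img K ρ H, ∀ w ∈ W, s *ᵥ w ∈ W) →
      ∃ W' : Submodule K (ι → K), (∀ s ∈ img K ρ H, ∀ w ∈ W', s *ᵥ w ∈ W') ∧ IsCompl W W')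
    (commt : ∀ H : Subgroup G, H.FiniteIndex → ∀ y : Matrix ι ι K,
      (∀ s ∈ img K ρ H, y * s = s * y) → y ∈ spanK K D)
    {m : ℕ} {e : Fin m → Matrix ι ι K} (hspl : IsSplitting D ψ id e)
    {φ ν : Matrix ι ι K} {v : K → ℚ} (F : FrobP K ρ e φ ν v)
    (hp : ∀ b (a k : ℕ), 2 ≤ k → (e b).rank ≠ a ^ k)
    (hc : ∀ b (k : ℕ), 3 ≤ k → Odd k → (e b).rank ≠ k.centralBinom) :
    ∃ H₀ : Subgroup G, H₀.FiniteIndex ∧ ∀ (b : Fin m) (u : ι → K), e b *ᵥ u = u →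
      ∃ X ∈ zlie (img K ρ H₀), (∀ d ∈ spanK K D, X * d = d * X) ∧
      (∀ z, X *ᵥ (e b *ᵥ z) = om (ψ.map (algebraMap ℚ K)) z u • u) ∧
      ∀ c, c ≠ b → X * e c = 0 := by
  classical
  obtain ⟨H₀, -, hfin, hprime⟩ := H76RM.exists_prime (K := K) ρ ⊤ inferInstance
  refine ⟨H₀, hfin, ?_⟩
  intro b u hu
  have seed := fun b => seed_p hψ hψ0 D ρ lin sim semis commt hspl F hp hc H₀ hfin hprime b
  obtain ⟨hJ, hdet⟩ := gram_basic hψ hψ0 K
  have hsplR : H76RM.IsSplitting D ψ e :=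
    ⟨hspl.mem, hspl.idem, hspl.adj, hspl.corner, hspl.orth, hspl.full⟩
  have hspl' := split_of hsplR
  set J : Matrix ι ι K := ψ.map (algebraMap ℚ K) with hJdef
  have hlinK : ∀ σ : G, ∀ d ∈ D, (ρ σ).1.map (algebraMap L K) * d.map (algebraMap ℚ K) =
      d.map (algebraMap ℚ K) * (ρ σ).1.map (algebraMap L K) := by
    intro σ d hd
    have h1 := congrArg (fun m : Matrix ι ι L => m.map (algebraMap L K)) (lin σ d hd)
    have h2 : (d.map (algebraMap ℚ L)).map (algebraMap L K) = d.map (algebraMap ℚ K) := by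
      ext i j
      simp
    simp only [Matrix.map_mul] at h1
    rw [h2] at h1
    exact h1
  have hsimG : ∀ x : G, ∃ c : K, ((ρ x).1.map (algebraMap L K))ᵀ * J *
      (ρ x).1.map (algebraMap L K) = c • J := by
    intro x
    obtain ⟨c, hc⟩ := sim x
    exact ⟨_, sim_map hc⟩
  have hne : J ≠ 0 := by
    intro h0
    apply hspl.ne_zero b
    have hι : IsEmpty ι := by
      by_contra hcon
      rw [not_isEmpty_iff] at hcon
      rw [h0, Matrix.det_zero] at hdet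
      exact not_isUnit_zero hdet
    ext i
    exact (hι.false i).elim
  have hrange := range_rep K ρ H₀
  set R := rep K ρ H₀ with hR
  have hsetup : Setup (om J) (fun b => phi (e b)) (lieE J (Set.range R)) (H76RM.opr R) := by
    apply H76RM.mk_setup hspl' hJ hdet hne R
    · intro y
      exact hsimG y.1
    · intro y d hd
      exact comm_span (hlinK y.1) d hd
    · rw [hrange]; exact hprime
    · intro W hW
      obtain ⟨W', h1, h2⟩ := semis H₀ hfin W (by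
        rw [← hrange]
        rintro _ ⟨y, rfl⟩ w hw
        exact hW y w hw)
      refine ⟨W', ?_, h2⟩
      intro y w hw
      apply h1 _ _ _ hw
      rw [← hrange]
      exact Set.mem_range_self y
    · intro y hy
      apply commt H₀ hfin y
      rw [← hrange]
      rintro _ ⟨z, rfl⟩
      exact hy z
  rw [hrange] at hsetup
  obtain ⟨A, hA, h1, h2⟩ := hsetup.main seed (b := b) (w := u)
    (by rw [phi_apply]; exact hu)
  obtain ⟨X, rfl⟩ := (phi (ι := ι) (K := K)).surjective A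
  obtain ⟨hX1, hX2⟩ := mem_lieE.1 hA
  refine ⟨X, hX1, ?_, ?_, ?_⟩
  · intro d hd
    refine H76RM.zlie_commute (img_one ρ H₀) ?_ hX1
    rintro _ ⟨y, -, rfl⟩
    exact comm_span (hlinK y) d hd
  · intro z
    have h3 : (phi X * phi (e b)) z = trv (om J) u z :=
      congrArg (fun f : Module.End K (ι → K) => f z) h1
    rw [← phi_apply, ← phi_apply]
    exact h3
  · intro c hc
    apply (phi (ι := ι) (K := K)).injective
    rw [map_mul, map_zero]
    exact h2 c hc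

end Pool.Agent.H76P
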