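import Pool.Agent.Lib.H76P.G2
import Pool.Agent.Lib.H76T.TD5

/-!
# G13: consequences of the torus condition, in terms of the Lie algebra
-/

set_option autoImplicit false
set_option linter.unusedSectionVars false
namespace Pool.Agent.H76P
open Module Matrix Polynomial Pool.Agent.H53Toric
open Pool.Agent.H76U (IsSplitting split4_of Split4 idem_factor rank_idem_map tw preL cmp)
open Pool.Agent.H76RM (van spanK similD Seed Setup Split comm_span split_of)
open Pool.Agent.H76T (rK rK_apply img_sub_inf nil_of_zar seed_of_fu monodromy_seed Lc AllIndep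
  nroots)
open Pool.Agent.H49M (idc)

theorem G13_eq {ι : Type*} [Fintype ι] [DecidableEq ι] {K : Type*} [Field K] {d f : ι → K}
    (hd : ∀ k, d k ≠ 0) (hf : LogLin d f) {i j : ι} (hij : d i = d j) : f i = f j := by
  have h1 := hf (fun k => Pi.single (M := fun _ => ℤ) i 1 k - Pi.single (M := fun _ => ℤ) j 1 k) (by
    have h2 : ∀ i : ι, ∏ k, d k ^ (Pi.single (M := fun _ => ℤ) i 1 k) = d i := by
      intro i
      rw [Finset.prod_eq_single i]
      · rw [Pi.single_eq_same, zpow_one]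
      · intro k _ hk
        rw [Pi.single_eq_of_ne hk, _root_.zpow_zero]
      · intro hi
        exact absurd (Finset.mem_univ i) hi
    simp only [zpow_sub₀ (hd _)]
    rw [Finset.prod_div_distrib, h2, h2, hij, div_self (hd j)])
  have h3 : ∀ i : ι, ∑ k, ((Pi.single (M := fun _ => ℤ) i 1 k : ℤ) : K) * f k = f i := by
    intro i
    rw [Finset.sum_eq_single i]
    · rw [Pi.single_eq_same, Int.cast_one, one_mul]
    · intro k _ hk
      rw [Pi.single_eq_of_ne hk, Int.cast_zero, zero_mul]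
    · intro hi
      exact absurd (Finset.mem_univ i) hi
  simp only [Int.cast_sub, sub_mul, Finset.sum_sub_distrib] at h1
  rw [h3, h3] at h1
  exact sub_eq_zero.1 h1

theorem G13_act {ι : Type*} [Fintype ι] [DecidableEq ι] {K : Type*} [Field K]
    {P Q x X : Matrix ι ι K} {d f : ι → K}
    (hPQ : P * Q = 1) (hQP : Q * P = 1) (hd : ∀ k, d k ≠ 0)
    (hx : x = P * Matrix.diagonal d * Q) (hX : X = P * Matrix.diagonal f * Q)
    (hf : LogLin d f) {k : ι} {z : ι → K} (hz : x *ᵥ z = d k • z) : X *ᵥ z = f k • z := by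
  have h1 : Matrix.diagonal d *ᵥ (Q *ᵥ z) = d k • (Q *ᵥ z) := by
    rw [← Matrix.mulVec_smul, ← hz, hx, Matrix.mulVec_mulVec, Matrix.mulVec_mulVec,
      ← mul_assoc, ← mul_assoc, hQP, one_mul]
  have h2 : Matrix.diagonal f *ᵥ (Q *ᵥ z) = f k • (Q *ᵥ z) := by
    ext j
    have h3 := congrFun h1 j
    rw [Matrix.mulVec_diagonal, Pi.smul_apply, smul_eq_mul] at h3
    rw [Matrix.mulVec_diagonal, Pi.smul_apply, smul_eq_mul]
    by_cases hj : (Q *ᵥ z) j = 0
    · rw [hj, mul_zero, mul_zero]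
    · rw [G13_eq hd hf (mul_right_cancel₀ hj h3)]
  rw [hX, ← Matrix.mulVec_mulVec, ← Matrix.mulVec_mulVec, h2, Matrix.mulVec_smul,
    Matrix.mulVec_mulVec, hPQ, Matrix.one_mulVec]

variable {ι : Type*} [Fintype ι] [DecidableEq ι] {K : Type*} [Field K] [CharZero K]
variable {B : Type*} [Fintype B] [DecidableEq B] {J : Matrix ι ι K}
  {DD : Submodule K (Matrix ι ι K)} {e : B → Matrix ι ι K} (h : Split J DD e)
  (hJ : Jᵀ = -J) (hdet : IsUnit J.det) {x : Matrix ι ι K} {q : K} (hq : q ≠ 0)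
  (hsim : xᵀ * J * x = q • J) (hxD : ∀ d ∈ DD, x * d = d * x)
  {P Q : Matrix ι ι K} {d : ι → K}
  (hx : x = P * Matrix.diagonal d * Q) (hPQ : P * Q = 1) (hQP : Q * P = 1)
  (hd : ∀ k, d k ≠ 0) {S : Set (Matrix ι ι K)}
  (hlie : ∀ b u, e b *ᵥ u = u → ∃ X ∈ zlie S, (∀ d ∈ DD, X * d = d * X) ∧
    (∀ z, X *ᵥ (e b *ᵥ z) = om J z u • u) ∧ ∀ c, c ≠ b → X * e c = 0)
  (htor : ∀ X ∈ zlie S, X * x = x * X → X ∈ zlie {m | ∃ n : ℕ, m = x ^ n})

include h hJ hq hsim hxD hlie htor in
/-- PROOF. `X = X_{v + w} - X_v - X_w` with `X_u` as in `hlie`.  On `e b z`: `om z (v + w) • (v + w) - om z v • v - om z w • w =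
om z w • v + om z v • w`.  `X` commutes with `x`: both `X * x` and `x * X` commute with `DD`; by `Split.ext_comm` it is enough to compare
`X * x * e c` and `x * X * e c`.  `x` commutes with `e c`; for `c ≠ b` both are `0`; for `c = b` apply them to `z`: with `H76T.eig_form`
`om (x z) w = a * om z w` and `om (x z) v = a' * om z v`, so both are `(a * om z w) • v + (a' * om z v) • w`.  `htor`. -/
theorem lie_pair {b : B} {v w : ι → K} {a a' : K} (haa : a * a' = q) (ha : a ≠ 0)
    (ha' : a' ≠ 0) (hbv : e b *ᵥ v = v) (hbw : e b *ᵥ w = w) (hv : x *ᵥ v = a • v)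
    (hw : x *ᵥ w = a' • w) :
    ∃ X ∈ zlie {m : Matrix ι ι K | ∃ n : ℕ, m = x ^ n},
      (∀ z, X *ᵥ (e b *ᵥ z) = om J z w • v + om J z v • w) ∧ ∀ c, c ≠ b → X * e c = 0 := by
  obtain ⟨X₁, hs1, hD1, hX1, hc1⟩ := hlie b (v + w) (by rw [Matrix.mulVec_add, hbv, hbw])
  obtain ⟨X₂, hs2, hD2, hX2, hc2⟩ := hlie b v hbv
  obtain ⟨X₃, hs3, hD3, hX3, hc3⟩ := hlie b w hbw
  set X := X₁ - X₂ - X₃ with hX
  have hXs : X ∈ zlie S := Submodule.sub_mem _ (Submodule.sub_mem _ hs1 hs2) hs3
  have hXD : ∀ d ∈ DD, X * d = d * X := by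
    intro d hd
    rw [hX, sub_mul, sub_mul, mul_sub, mul_sub, hD1 d hd, hD2 d hd, hD3 d hd]
  have hXc : ∀ c, c ≠ b → X * e c = 0 := by
    intro c hc
    rw [hX, sub_mul, sub_mul, hc1 c hc, hc2 c hc, hc3 c hc]
    simp
  have hXb : ∀ z, X *ᵥ (e b *ᵥ z) = om J z w • v + om J z v • w := by
    intro z
    rw [hX, Matrix.sub_mulVec, Matrix.sub_mulVec, hX1, hX2, hX3, map_add]
    module
  have hxe : ∀ c, x * e c = e c * x := fun c => hxD _ (h.mem c)
  have hXx : X * x = x * X := by
    apply h.ext_comm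
    · intro d hd
      rw [mul_assoc, hxD d hd, ← mul_assoc, hXD d hd, mul_assoc]
    · intro d hd
      rw [mul_assoc, hXD d hd, ← mul_assoc, hxD d hd, mul_assoc]
    · intro c
      by_cases hc : c = b
      · subst hc
        apply H76T.mat_ext
        intro z
        have e1 : om J (x *ᵥ z) w = a * om J z w :=
          H76T.eig_form hsim (by rw [mul_comm]; exact haa) ha' hw z
        have e2 : om J (x *ᵥ z) v = a' * om J z v := H76T.eig_form hsim haa ha hv z
        rw [mul_assoc, hxe, ← mul_assoc, ← Matrix.mulVec_mulVec, ← Matrix.mulVec_mulVec, hXb,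
          mul_assoc, ← Matrix.mulVec_mulVec, ← Matrix.mulVec_mulVec, hXb, Matrix.mulVec_add,
          Matrix.mulVec_smul, Matrix.mulVec_smul, hv, hw, e1, e2]
        module
      · rw [mul_assoc, hxe, ← mul_assoc, hXc c hc, zero_mul, mul_assoc, hXc c hc, mul_zero]
  exact ⟨X, htor X hXs hXx, hXb, hXc⟩

include h hJ hdet hq hsim hxD hx hPQ hQP hd hlie htor in
/-- PROOF. `lie_pair` gives `X`; `zlie_pow` gives `X = P * diagonal f * Q`, `LogLin d f`; for `d i = d j` the relation
`d i * (d j)⁻¹ = 1` gives `f i = f j`; so `X` acts on each eigenspace of `x` by a scalar: `x z = d k • z` implies `X z = f k • z` (expand `z` in the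
basis of the columns of `P`).  `X v = om v w • v + om v v • w = v`, so `f k₀ = 1`.  `X w = -w`.  If `d k₀ * d k₀ = q` then `w` has eigenvalue
`q / d k₀ = d k₀`, so `X w = w = -w`, `w = 0`, contradiction.  Let `x z = d k₀ • z`.  `c ≠ b`: `e c z` has the same eigenvalue, so
`e c z = X (e c z) = 0`.  `b`: `e b z = X (e b z) = om z w • v + om z v • w` and `om z v = 0`: `q * om z v = om (x z) (x v) = d k₀ ^ 2 * om z v`. -/
theorem torus_simple' {b : B} {v w : ι → K} {k₀ : ι}
    (hbv : e b *ᵥ v = v) (hbw : e b *ᵥ w = w) (hv : x *ᵥ v = d k₀ • v)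
    (hw : x *ᵥ w = (q / d k₀) • w) (hvw : om J v w = 1) :
    (∀ c, c ≠ b → ∀ z, x *ᵥ z = d k₀ • z → e c *ᵥ z = 0) ∧
    (∀ z, x *ᵥ z = d k₀ • z → e b *ᵥ z = om J z w • v) ∧ d k₀ * d k₀ ≠ q := by
  have haa : d k₀ * (q / d k₀) = q := mul_div_cancel₀ q (hd k₀)
  obtain ⟨X, hXz, hXb, hXc⟩ := lie_pair h hJ hq hsim hxD hlie htor haa (hd k₀)
    (div_ne_zero hq (hd k₀)) hbv hbw hv hw
  obtain ⟨f, hXf, hf⟩ := zlie_pow hPQ hQP hd hx hXz
  have hwv : om J w v = -1 := by rw [omega_antisymm (om_alt hJ), hvw]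
  have halt : ∀ u, om J u u = 0 := om_alt hJ
  have hv0 : v ≠ 0 := by
    rintro rfl
    rw [map_zero, LinearMap.zero_apply] at hvw
    exact zero_ne_one hvw
  have hw0 : w ≠ 0 := by
    rintro rfl
    rw [map_zero] at hvw
    exact zero_ne_one hvw
  have hXv : X *ᵥ v = v := by
    have := hXb v
    rwa [hbv, hvw, halt, one_smul, zero_smul, add_zero] at this
  have hXw : X *ᵥ w = -w := by
    have := hXb w
    rwa [hbw, hwv, halt, zero_smul, neg_smul, one_smul, zero_add] at this
  have hact : ∀ {k : ι} {z : ι → K}, x *ᵥ z = d k • z → X *ᵥ z = f k • z :=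
    fun hz => G13_act hPQ hQP hd hx hXf hf hz
  have hfk : f k₀ = 1 := by
    have h1 := hact hv
    rw [hXv] at h1
    have h2 : (f k₀ - 1) • v = 0 := by rw [sub_smul, one_smul, ← h1, sub_self]
    exact sub_eq_zero.1 ((smul_eq_zero.1 h2).resolve_right hv0)
  have hne : d k₀ * d k₀ ≠ q := by
    intro hsq
    have e1 : q / d k₀ = d k₀ := by rw [← hsq, mul_div_assoc, div_self (hd k₀), mul_one]
    rw [e1] at hw
    have e2 := hact hw
    rw [hXw, hfk, one_smul] at e2
    have e3 : (2 : K) • w = 0 := by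
      have : (2 : K) • w = w - (-w) := by module
      rw [this, e2, sub_self]
    exact hw0 ((smul_eq_zero.1 e3).resolve_left (by norm_num))
  have hxe : ∀ c, x * e c = e c * x := fun c => hxD _ (h.mem c)
  have hez : ∀ c z, x *ᵥ z = d k₀ • z → x *ᵥ (e c *ᵥ z) = d k₀ • (e c *ᵥ z) := by
    intro c z hz
    rw [Matrix.mulVec_mulVec, hxe, ← Matrix.mulVec_mulVec, hz, Matrix.mulVec_smul]
  refine ⟨?_, ?_, hne⟩
  · intro c hc z hz
    have h1 := hact (hez c z hz)
    rw [Matrix.mulVec_mulVec, hXc c hc, Matrix.zero_mulVec, hfk, one_smul] at h1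
    exact h1.symm
  · intro z hz
    have h1 := hact (hez b z hz)
    have h2 : om J z v = 0 := by
      have e5 : om J (x *ᵥ z) (x *ᵥ v) = q * om J z v := by
        rw [om_mul, hsim, om_apply, om_apply, Matrix.smul_mulVec, dotProduct_smul, smul_eq_mul]
      rw [hz, hv, map_smul, map_smul, LinearMap.smul_apply, smul_eq_mul, smul_eq_mul] at e5
      have e6 : (d k₀ * d k₀ - q) * om J z v = 0 := by linear_combination e5
      exact (mul_eq_zero.1 e6).resolve_left (sub_ne_zero.2 hne)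
    rw [hXb, hfk, one_smul, h2, zero_smul, add_zero] at h1
    exact h1.symm

open Classical in
include h hJ hdet hq hsim hxD hx hPQ hQP hd hlie htor in
/-- PROOF. `H76T.eig_pair` gives `b`, `v`, `w`; `lie_pair`, `zlie_pow` give `X = P * diagonal f * Q`, `LogLin d f`; as in `torus_simple'` `f k = 1` if
`d k = d k₀`, `f k = -1` if `d k = q / d k₀`, and `f k = 0` for all other `k` (`H76T.eig_comp` gives an eigenvector `z = e c z`; if `c ≠ b` then
`X z = 0`; if `c = b` then `om z w = 0 = om z v`, see the proof of `H76T.torus_rel`).  So `LogLin` for `m` is the assertion. -/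
theorem torus_rel' (k₀ : ι) (m : ι → ℤ) (hm : ∏ k, d k ^ m k = 1) :
    ∑ k, (if d k = d k₀ then m k else 0) = ∑ k, (if d k = q / d k₀ then m k else 0) := by
  obtain ⟨b, v, w, hbv, hbw, hv, hw, hvw⟩ :=
    H76T.eig_pair h hdet hq hsim hxD hx hPQ hQP hd k₀
  have haa : d k₀ * (q / d k₀) = q := mul_div_cancel₀ q (hd k₀)
  obtain ⟨X, hXz, hXb, hXc⟩ := lie_pair h hJ hq hsim hxD hlie htor haa (hd k₀)
    (div_ne_zero hq (hd k₀)) hbv hbw hv hw
  obtain ⟨-, -, hne⟩ := torus_simple' h hJ hdet hq hsim hxD hx hPQ hQP hd hlie htor hbv hbw hv hw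
    hvw
  obtain ⟨f, hXf, hf⟩ := zlie_pow hPQ hQP hd hx hXz
  have hne' : q / d k₀ ≠ d k₀ := by
    intro h0
    apply hne
    nth_rw 2 [← h0]
    exact haa
  have hwv : om J w v = -1 := by rw [omega_antisymm (om_alt hJ), hvw]
  have halt : ∀ u, om J u u = 0 := om_alt hJ
  have hv0 : v ≠ 0 := by
    rintro rfl
    rw [map_zero, LinearMap.zero_apply] at hvw
    exact zero_ne_one hvw
  have hw0 : w ≠ 0 := by
    rintro rfl
    rw [map_zero] at hvw
    exact zero_ne_one hvw
  have hXv : X *ᵥ v = v := by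
    have := hXb v
    rwa [hbv, hvw, halt, one_smul, zero_smul, add_zero] at this
  have hXw : X *ᵥ w = -w := by
    have := hXb w
    rwa [hbw, hwv, halt, zero_smul, neg_smul, one_smul, zero_add] at this
  have hact : ∀ {k : ι} {z : ι → K}, x *ᵥ z = d k • z → X *ᵥ z = f k • z :=
    fun hz => G13_act hPQ hQP hd hx hXf hf hz
  have hc1 : ∀ k, d k = d k₀ → f k = 1 := by
    intro k hk
    have e1 : x *ᵥ v = d k • v := by rw [hk]; exact hv
    have h1 := hact e1
    rw [hXv] at h1
    have h2 : (f k - 1) • v = 0 := by rw [sub_smul, one_smul, ← h1, sub_self]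
    exact sub_eq_zero.1 ((smul_eq_zero.1 h2).resolve_right hv0)
  have hc2 : ∀ k, d k = q / d k₀ → f k = -1 := by
    intro k hk
    have e1 : x *ᵥ w = d k • w := by rw [hk]; exact hw
    have h1 := hact e1
    rw [hXw] at h1
    have h2 : (f k + 1) • w = 0 := by rw [add_smul, one_smul, ← h1, neg_add_cancel]
    exact eq_neg_of_add_eq_zero_left ((smul_eq_zero.1 h2).resolve_right hw0)
  have hc3 : ∀ k, d k ≠ d k₀ → d k ≠ q / d k₀ → f k = 0 := by
    intro k hk1 hk2
    obtain ⟨c, z, hz0, hcz, hz⟩ := H76T.eig_comp h hxD hx hPQ hQP k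
    have e2 := hact hz
    have e3 : X *ᵥ z = 0 := by
      by_cases hc : c = b
      · subst hc
        have e4 : ∀ {u : ι → K} {a : K}, x *ᵥ u = a • u → d k * a ≠ q → om J z u = 0 := by
          intro u a hu hne
          have e5 : om J (x *ᵥ z) (x *ᵥ u) = q * om J z u := by
            rw [om_mul, hsim, om_apply, om_apply, Matrix.smul_mulVec, dotProduct_smul,
              smul_eq_mul]
          rw [hz, hu, map_smul, map_smul, LinearMap.smul_apply, smul_eq_mul, smul_eq_mul] at e5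
          have e6 : (d k * a - q) * om J z u = 0 := by linear_combination e5
          exact (mul_eq_zero.1 e6).resolve_left (sub_ne_zero.2 hne)
        have e5 := hXb z
        rw [hcz, e4 hw (fun h0 => hk1 (mul_right_cancel₀ (div_ne_zero hq (hd k₀))
          (h0.trans haa.symm))), e4 hv (fun h0 => hk2 (by
            rw [← h0, mul_div_assoc, div_self (hd k₀), mul_one]))] at e5
        rw [e5, zero_smul, zero_smul, add_zero]
      · have e4 := congrArg (fun X => X *ᵥ z) (hXc c hc)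
        simp only [← Matrix.mulVec_mulVec, hcz, Matrix.zero_mulVec] at e4
        exact e4
    rw [e3] at e2
    exact (smul_eq_zero.1 e2.symm).resolve_right hz0
  have hc : ∀ k, (m k : K) * f k = (((if d k = d k₀ then m k else 0) -
      (if d k = q / d k₀ then m k else 0) : ℤ) : K) := by
    intro k
    by_cases h4 : d k = d k₀
    · have h5 : d k ≠ q / d k₀ := fun h6 => hne' (h6.symm.trans h4)
      rw [hc1 k h4, if_pos h4, if_neg h5, sub_zero, mul_one]
    · by_cases h5 : d k = q / d k₀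
      · rw [hc2 k h5, if_neg h4, if_pos h5, zero_sub, Int.cast_neg, mul_neg, mul_one]
      · rw [hc3 k h4 h5, if_neg h4, if_neg h5, sub_zero, Int.cast_zero, mul_zero]
  have h6 := hf m hm
  simp only [hc] at h6
  rw [← Int.cast_sum, Int.cast_eq_zero, Finset.sum_sub_distrib] at h6
  exact sub_eq_zero.1 h6

end Pool.Agent.H76P
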