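import Pool.Agent.Lib.H76P.G12
import Pool.Agent.Lib.H76P.G14

/-!
# G15: the theorem at p
-/

set_option autoImplicit false
set_option linter.unusedSectionVars false
namespace Pool.Agent.H76P
open Module Matrix Polynomial Pool.Agent.H53Toric
open Pool.Agent.H76U (IsSplitting split4_of Split4 idem_factor rank_idem_map tw preL cmp)
open Pool.Agent.H76RM (van spanK similD Seed Setup Split comm_span split_of)
open Pool.Agent.H76T (rK rK_apply img_sub_inf nil_of_zar seed_of_fu monodromy_seed Lc AllIndep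
  nroots)
open Pool.Agent.H49M (idc)

variable {ι : Type*} [Fintype ι] [DecidableEq ι]
variable {L : Type*} [Field L] {K : Type*} [Field K] [Algebra L K] {G : Type*} [Group G]

/-- PROOF. `hdg : φ = P * diagonal d * Q`: the characteristic polynomial of `φ` is `∏ k, (X - C (d k))` (similar to a diagonal matrix; see the
proof of `H76T.diag_data`, H76T/TE3.lean), the `d k` are not zero (`F.idc.1`). -/
theorem diag_data' [CharZero K] {φ : Matrix ι ι K} (hdet : φ.det ≠ 0) (hdg : Diagonalisable φ)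
    {f : ℚ[X]} (hf : φ.charpoly = f.map (algebraMap ℚ K)) :
    ∃ (P Q : Matrix ι ι K) (d : ι → K), P * Q = 1 ∧ Q * P = 1 ∧
      φ = P * Matrix.diagonal d * Q ∧ (∀ k, d k ≠ 0) ∧
      f.map (algebraMap ℚ K) = ∏ k, (X - C (d k)) := by
  obtain ⟨P, Q, d₀, hPQ, hQP, hσ⟩ := hdg
  refine ⟨P, Q, d₀, hPQ, hQP, hσ, ?_, ?_⟩
  · intro k hk
    apply hdet
    have h1 : P.det * Q.det = 1 := by rw [← Matrix.det_mul, hPQ, Matrix.det_one]
    rw [hσ, Matrix.det_mul, Matrix.det_mul, Matrix.det_diagonal,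
      Finset.prod_eq_zero (Finset.mem_univ k) hk, mul_zero, zero_mul]
  · rw [← hf, hσ, Matrix.charpoly_mul_comm, ← mul_assoc, hQP, one_mul, Matrix.charpoly_diagonal]

/-- PROOF. `mono_p`; `lie_p`, `diag_data'`, `all_indep'`, `card_eig'`, `H76T.nroots_eq` (see `H76T.indep_one`, H76T/TE4.lean).  `φ` commutes with
`spanK K D` because it is in the Zariski closure of the image (`H76RM.zar_commute`, `comm_span`). -/
theorem at_p [CharZero L] [CharZero K] [IsAlgClosed K] {ψ : Matrix ι ι ℚ}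
    (hψ : ψᵀ = -ψ) (hψ0 : ψ.det ≠ 0) (D : Subalgebra ℚ (Matrix ι ι ℚ))
    (ρ : G →* Matrix.GeneralLinearGroup ι L)
    (lin : ∀ σ : G, ∀ d ∈ D, (ρ σ).1 * d.map (algebraMap ℚ L) =
      d.map (algebraMap ℚ L) * (ρ σ).1)
    (sim : ∀ σ : G, ∃ c : L, (ρ σ).1ᵀ * ψ.map (algebraMap ℚ L) * (ρ σ).1 =
      c • ψ.map (algebraMap ℚ L))
    (cyc : ∃ σ : G, ∃ c : L, (ρ σ).1ᵀ * ψ.map (algebraMap ℚ L) * (ρ σ).1 =
      c • ψ.map (algebraMap ℚ L) ∧ ∀ n : ℕ, n ≠ 0 → c ^ n ≠ 1)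
    (semis : ∀ H : Subgroup G, H.FiniteIndex → ∀ W : Submodule K (ι → K),
      (∀ s ∈ img K ρ H, ∀ w ∈ W, s *ᵥ w ∈ W) →
      ∃ W' : Submodule K (ι → K), (∀ s ∈ img K ρ H, ∀ w ∈ W', s *ᵥ w ∈ W') ∧ IsCompl W W')
    (commt : ∀ H : Subgroup G, H.FiniteIndex → ∀ y : Matrix ι ι K,
      (∀ s ∈ img K ρ H, y * s = s * y) → y ∈ spanK K D)
    {m : ℕ} {e : Fin m → Matrix ι ι K} (hspl : IsSplitting D ψ id e)
    {φ ν : Matrix ι ι K} {v : K → ℚ} (F : FrobP K ρ e φ ν v)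
    (hp : ∀ b (a k : ℕ), 2 ≤ k → (e b).rank ≠ a ^ k)
    (hc : ∀ b (k : ℕ), 3 ≤ k → Odd k → (e b).rank ≠ k.centralBinom)
    {q : ℚ} (hq0 : q ≠ 0)
    (hmult : φᵀ * ψ.map (algebraMap ℚ K) * φ = algebraMap ℚ K q • ψ.map (algebraMap ℚ K))
    {f : ℚ[X]} (hchar : φ.charpoly = f.map (algebraMap ℚ K)) :
    (∀ H : Subgroup G, H.FiniteIndex → monodromy K ρ H = similD K ψ D) ∧
      AllIndep f q (AlgebraicClosure ℚ) ∧
      nroots f (AlgebraicClosure ℚ) = ∑ b, (e b).rank := by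
  classical
  refine ⟨fun H hH => mono_p hψ hψ0 D ρ lin sim cyc semis commt hspl F hp hc H hH, ?_⟩
  obtain ⟨H₀, hfin, hlie⟩ := lie_p hψ hψ0 D ρ lin sim semis commt hspl F hp hc
  obtain ⟨hJ, hdet⟩ := gram_basic hψ hψ0 K
  obtain ⟨P, Q, d, hPQ, hQP, hx, hd, hF⟩ := diag_data' F.idc.1 F.dgb hchar
  have hsplR : H76RM.IsSplitting D ψ e :=
    ⟨hspl.mem, hspl.idem, hspl.adj, hspl.corner, hspl.orth, hspl.full⟩
  have hspl' := split_of hsplR
  set J : Matrix ι ι K := ψ.map (algebraMap ℚ K) with hJdef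
  have hlinK : ∀ σ : G, ∀ d ∈ D, (ρ σ).1.map (algebraMap L K) * d.map (algebraMap ℚ K) =
      d.map (algebraMap ℚ K) * (ρ σ).1.map (algebraMap L K) := by
    intro σ d hd
    have h1 := congrArg (fun m : Matrix ι ι L => m.map (algebraMap L K)) (lin σ d hd)
    have h2 : (d.map (algebraMap ℚ L)).map (algebraMap L K) = d.map (algebraMap ℚ K) := by
      ext i j
      simp
    simp only [Matrix.map_mul] at h1
    rw [h2] at h1
    exact h1
  have hxD : ∀ d ∈ spanK K D, φ * d = d * φ := by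
    intro d hd
    refine H76RM.zar_commute ?_ (F.idc.2 ⊤ inferInstance)
    rintro _ ⟨σ, -, rfl⟩
    exact comm_span (hlinK σ) d hd
  have hq0K : algebraMap ℚ K q ≠ 0 := by
    rw [Ne, map_eq_zero]
    exact hq0
  have htor := F.torus H₀ hfin
  constructor
  · exact all_indep' hspl' hJ hdet hq0K hmult hxD hx hPQ hQP hd hlie htor hF
  · rw [← H76T.nroots_eq hF]
    exact card_eig' hspl' hJ hdet hq0K hmult hxD hx hPQ hQP hd hlie htor

end Pool.Agent.H76P
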