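import Pool.Agent.Lib.H76P.G1
import Pool.Agent.Lib.H76P.G2
import Pool.Agent.Lib.H76P.G3

/-!
# G4: the component in an eigenbasis
-/

set_option autoImplicit false
set_option linter.unusedSectionVars false
namespace Pool.Agent.H76P
open Module Matrix Pool.Agent.H53Toric
open Pool.Agent.H76RM (van zlie_commute)
open Pool.Agent.H76U (preL cmp Split4)
open Pool.Agent.H76V (SH)
open Pool.Agent.H76T (Lc mem_Lc)
open Pool.Agent.H76U (tw)

variable {ι : Type*} [Fintype ι] [DecidableEq ι] {K : Type*} [Field K]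
  [CharZero K] [IsAlgClosed K] {B : Type*} [Fintype B] [DecidableEq B]
  {J : Matrix ι ι K} {DD : Submodule K (Matrix ι ι K)}
  {bar : B → B} {e : B → Matrix ι ι K} (h : Split4 J DD bar e) {b : B} (hb : bar b = b)
  (hJ : Jᵀ = -J) (hdet : IsUnit J.det)
  {n : ℕ} {P : Matrix ι (Fin n) K} {Q : Matrix (Fin n) ι K}
  (hPQ : e b = P * Q) (hQP : Q * P = 1)
  {S : Set (Matrix ι ι K)} {𝓗 : Set (Matrix ι ι K)} {φ φ' : Matrix ι ι K}
  (g : PH S J DD 𝓗 φ φ') {d : Fin n → K} (E : EC φ P d)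

theorem phi_diag {n : ℕ} (f : Fin n → K) : phi (Matrix.diagonal f) = dg f := by
  refine LinearMap.ext fun v => funext fun a => ?_
  rw [phi_apply, Matrix.mulVec_diagonal, dg_apply]

include hQP E in
theorem cmp_phi : cmp P Q φ = Matrix.diagonal d := by
  rw [Pool.Agent.H76U.cmp_apply, Matrix.mul_assoc, E.eig, ← Matrix.mul_assoc, hQP, Matrix.one_mul]

include h hPQ hQP g E in
/-- PROOF. `φ` and `A` commute with `e b` (`g.φD`, `h.mem`), so `cmp` is multiplicative (`H76U.cmp_mul`): `cmp A` commutes with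
`cmp φ = diagonal d`, and `d` is injective. -/
theorem cmp_diag {A : Matrix ι ι K} (hAe : A * e b = e b * A) (hAφ : A * φ = φ * A) :
    ∃ f : Fin n → K, cmp P Q A = Matrix.diagonal f := by
  have hφe : φ * e b = e b * φ := g.φD _ (h.mem b)
  have h1 := Pool.Agent.H76U.cmp_mul hPQ hQP (A := A) (C := φ) hφe
  have h2 := Pool.Agent.H76U.cmp_mul hPQ hQP (A := φ) (C := A) hAe
  rw [hAφ, h2, cmp_phi hQP E] at h1
  refine ⟨fun k => cmp P Q A k k, ?_⟩
  ext i j
  by_cases hij : i = j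
  · subst hij
    rw [Matrix.diagonal_apply_eq]
  · rw [Matrix.diagonal_apply_ne _ hij]
    have h3 := congrFun (congrFun h1 i) j
    rw [Matrix.diagonal_mul, Matrix.mul_diagonal] at h3
    have h4 : (d i - d j) * cmp P Q A i j = 0 := by
      rw [sub_mul, h3]
      ring
    exact (mul_eq_zero.1 h4).resolve_left (sub_ne_zero.2 fun h5 => hij (E.inj h5))

include h hb hdet hPQ hQP g in
theorem g4_mem {A : Matrix ι ι K} (hA : ∃ c : K, ∃ C ∈ zlie S, A = C + c • 1) (hs : Aᵀ * J + J * A = 0) :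
    phi (cmp P Q A) ∈ Lc J S P Q := by
  have hpJ : (e b)ᵀ * J = J * e b := by
    have := h.adj b
    rwa [hb] at this
  have hdb := Pool.Agent.H76U.det_cmp hPQ hQP hpJ hdet
  have hAL : A ∈ preL J S := ⟨hA, 0, by rw [hs, zero_smul]⟩
  have hAe := Pool.Agent.H76V.preL_ec (b := b) h g.sh hAL
  refine ⟨Pool.Agent.H76U.mem_Lb.2 ⟨A, hAL, rfl⟩, ?_⟩
  rw [skew_iff hdb, Pool.Agent.H76U.cmp_sim hPQ hQP hpJ hAe, hs, Matrix.mul_zero, Matrix.zero_mul]

include h hb hdet hPQ hQP g in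
/-- PROOF. `zlie_sim`: `Cᵀ * J + J * C = (2 * c) • J`; so `C - c • 1 ∈ preL J S` is skew.  `mem_Lc`, `H76U.mem_Lb`, `skew_iff`, `H76U.cmp_sim`
(compare `H76V.nil_mem`).  (`J ≠ 0` since otherwise `hdet` shows that `ι` is empty, and then `n = 0`.) -/
theorem lc_of_zlie {C : Matrix ι ι K} (hC : C ∈ zlie S) :
    ∃ c : K, phi (cmp P Q (C - c • 1)) ∈ Lc J S P Q := by
  obtain ⟨c, hc⟩ : ∃ c : K, Cᵀ * J + J * C = c • J := by
    by_cases hJ0 : J = 0
    · exact ⟨0, by rw [hJ0]; simp⟩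
    · exact zlie_sim g.sh.one hJ0 g.Ssim hC
  refine ⟨c / 2, g4_mem h hb hdet hPQ hQP g ⟨-(c / 2), C, hC, ?_⟩ ?_⟩
  · rw [neg_smul, sub_eq_add_neg]
  · rw [Matrix.transpose_sub, Matrix.transpose_smul, Matrix.transpose_one, sub_mul, mul_sub, smul_mul_assoc,
      one_mul, mul_smul_comm, mul_one]
    have h1 : Cᵀ * J - (c / 2) • J + (J * C - (c / 2) • J) = (Cᵀ * J + J * C) - (c / 2 + c / 2) • J := by
      rw [add_smul]
      abel
    rw [h1, hc, add_halves, sub_self]

include h hb hdet hPQ hQP g E in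
/-- PROOF. `x ∈ zlie S` (`g.sh.hz`) commutes with `e b` and `φ`; `cmp x = diagonal f` (`cmp_diag`) with `f * f = f` (`g.sh.hi`), so
`f k ∈ {0, 1}`; `ε k = if f k = 1 then 1 else -1`.  `2 x - 1` is in `preL J S` and skew (`g.sh.hs`), so its compression is in `Lc`. -/
theorem eps_mem {x : Matrix ι ι K} (hx : x ∈ 𝓗) (hxφ : x * φ = φ * x) :
    ∃ ε ∈ Hs (Lc J S P Q), phi (cmp P Q ((2 : K) • x - 1)) = dq ε := by
  classical
  have hxz := g.sh.hz x hx
  have hxs := g.sh.hs x hx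
  have hxL : x ∈ preL J S := ⟨⟨0, x, hxz, by rw [zero_smul, add_zero]⟩, 1, by rw [hxs, one_smul]⟩
  have hxe := Pool.Agent.H76V.preL_ec (b := b) h g.sh hxL
  obtain ⟨f, hf⟩ := cmp_diag h hPQ hQP g E hxe hxφ
  have hff : ∀ k, f k = 0 ∨ f k = 1 := by
    intro k
    have h1 := Pool.Agent.H76U.cmp_mul hPQ hQP (A := x) (C := x) hxe
    rw [g.sh.hi x hx, hf, Matrix.diagonal_mul_diagonal] at h1
    have h2 := congrFun (congrFun h1 k) k
    rw [Matrix.diagonal_apply_eq, Matrix.diagonal_apply_eq] at h2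
    have h3 : f k * (f k - 1) = 0 := by rw [mul_sub, mul_one, ← h2, sub_self]
    rcases mul_eq_zero.1 h3 with h4 | h4
    · exact Or.inl h4
    · exact Or.inr (sub_eq_zero.1 h4)
  have hmem := g4_mem h hb hdet hPQ hQP g (A := (2 : K) • x - 1)
    ⟨-1, (2 : K) • x, (zlie S).smul_mem _ hxz, by rw [neg_smul, one_smul, sub_eq_add_neg]⟩ (by
      rw [Matrix.transpose_sub, Matrix.transpose_smul, Matrix.transpose_one, sub_mul, mul_sub, smul_mul_assoc,
        one_mul, mul_smul_comm, mul_one]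
      have h1 : (2 : K) • (xᵀ * J) - J + ((2 : K) • (J * x) - J) = (2 : K) • (xᵀ * J + J * x - J) := by
        rw [smul_sub, smul_add, two_smul K J]
        abel
      rw [h1, hxs, sub_self, smul_zero])
  have hval : phi (cmp P Q ((2 : K) • x - 1)) = dq (fun k => if f k = 1 then (1 : ℚ) else -1) := by
    have h1 : cmp P Q ((2 : K) • x - 1) = Matrix.diagonal (fun k => 2 * f k - 1) := by
      rw [map_sub, map_smul, Pool.Agent.H76U.cmp_one hPQ hQP, hf]
      ext i j
      by_cases hij : i = j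
      · subst hij
        simp
      · simp [Matrix.diagonal_apply_ne _ hij, Matrix.one_apply_ne hij]
    rw [h1, phi_diag]
    unfold dq
    congr 1
    ext k
    change 2 * f k - 1 = (((if f k = 1 then (1 : ℚ) else -1) : ℚ) : K)
    rcases hff k with h2 | h2
    · have h3 : ¬ f k = 1 := by rw [h2]; exact zero_ne_one
      rw [if_neg h3, h2]
      norm_num
    · rw [if_pos h2, h2]
      norm_num
  refine ⟨fun k => if f k = 1 then (1 : ℚ) else -1, ⟨fun a => ?_, ?_⟩, hval⟩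
  · simp only
    split_ifs
    · exact Or.inl rfl
    · exact Or.inr rfl
  · rw [← hval]
    exact hmem

include h hb hdet hPQ hQP g E in
/-- PROOF. `dg f = phi (cmp A)` with `A = C + c • 1`, `C ∈ zlie S` (`mem_Lc`, `mem_Lb`).  `A`, `C` commute with `e b`; `C * e b = P * diagonal (f - c) * Q`
commutes with `φ` (`φ * P = P * diagonal d` and `Q * φ = diagonal d * Q`, because `φ` commutes with `e b = P * Q`).  `zero_part` (`p = e b`) gives
`C₁ ∈ zlie S` which commutes with `φ` and `C₁ * e b = C * e b`.  By `g.torus` and `zlie_pow` (`g.dgb`; the eigenvalues of `φ` are not zero because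
of `g.inv`) `C₁ = P₀ * diagonal f₀ * Q₀`, `φ = P₀ * diagonal d₀ * Q₀`, `LogLin d₀ f₀`.  For `i`, `j` with `d₀ i = d₀ j` the relation
`d₀ i * (d₀ j)⁻¹ = 1` gives `f₀ i = f₀ j`.  The column `k` of `P` is an eigenvector of `φ` with eigenvalue `d k` and of `C₁` with eigenvalue
`f k - c`; so there is `i = i k` with `d₀ i = d k` and `f₀ i = f k - c` (take `i` with `(Q₀ * P) i k ≠ 0`).  `k ↦ i k` is injective.  A relation
`∏ k, d k ^ m k = 1` gives a relation between the `d₀ i` (with exponent `0` outside the image of `k ↦ i k`), hence `∑ k, m k * (f k - c) = 0`. -/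
theorem loglin_of_mem {f : Fin n → K} (hf : dg f ∈ Lc J S P Q) :
    ∃ c : K, LogLin d (fun k => f k - c) := by
  classical
  have hf1 : phi (Matrix.diagonal f) ∈ Pool.Agent.H76U.Lb J S P Q := by
    rw [phi_diag]
    exact hf.1
  obtain ⟨A, hAL, hAf⟩ := Pool.Agent.H76U.mem_Lb.1 hf1
  have hAe := Pool.Agent.H76V.preL_ec (b := b) h g.sh hAL
  obtain ⟨c, C, hC, rfl⟩ := hAL.1
  refine ⟨c, ?_⟩
  have hCe : C * e b = e b * C := by
    rw [add_mul, mul_add, smul_mul_assoc, one_mul, mul_smul_comm, mul_one] at hAe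
    exact add_right_cancel hAe
  have hCf : cmp P Q C = Matrix.diagonal (fun k => f k - c) := by
    rw [map_add, map_smul, Pool.Agent.H76U.cmp_one hPQ hQP] at hAf
    have h1 : cmp P Q C = Matrix.diagonal f - c • 1 := by rw [← hAf, add_sub_cancel_right]
    rw [h1]
    ext i j
    by_cases hij : i = j
    · subst hij
      simp
    · simp [Matrix.diagonal_apply_ne _ hij, Matrix.one_apply_ne hij]
  have hφe : φ * e b = e b * φ := g.φD _ (h.mem b)
  have hφP := E.eig
  have hQφ : Q * φ = Matrix.diagonal d * Q := by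
    rw [← Pool.Agent.H76U.cmp_Q hPQ hQP hφe, cmp_phi hQP E]
  have hCP : C * P = P * Matrix.diagonal (fun k => f k - c) := by
    rw [← hCf, Pool.Agent.H76U.P_cmp hPQ hQP hCe]
  have hCeb : C * e b = P * Matrix.diagonal (fun k => f k - c) * Q := by
    rw [hPQ, ← Matrix.mul_assoc, hCP]
  have hcomm : (C * e b) * φ = φ * (C * e b) := by
    rw [hCeb]
    calc P * Matrix.diagonal (fun k => f k - c) * Q * φ =
        P * Matrix.diagonal (fun k => f k - c) * (Q * φ) := by rw [Matrix.mul_assoc]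
      _ = P * (Matrix.diagonal (fun k => f k - c) * Matrix.diagonal d) * Q := by
          rw [hQφ, Matrix.mul_assoc, Matrix.mul_assoc, Matrix.mul_assoc]
      _ = P * (Matrix.diagonal d * Matrix.diagonal (fun k => f k - c)) * Q := by
          rw [Matrix.diagonal_mul_diagonal, Matrix.diagonal_mul_diagonal]
          congr 3
          ext k
          ring
      _ = (P * Matrix.diagonal d) * Matrix.diagonal (fun k => f k - c) * Q := by
          rw [Matrix.mul_assoc, Matrix.mul_assoc, Matrix.mul_assoc, Matrix.mul_assoc]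
      _ = (φ * P) * Matrix.diagonal (fun k => f k - c) * Q := by rw [hφP]
      _ = _ := by rw [Matrix.mul_assoc, Matrix.mul_assoc, Matrix.mul_assoc]
  obtain ⟨C₁, hC₁, hC₁φ, hC₁p⟩ := zero_part g.inv g.dgb g.cnj hC
  have hC₁e := hC₁p (e b) hφe.symm hcomm
  obtain ⟨P₀, Q₀, d₀, hPQ₀, hQP₀, hφ₀⟩ := g.dgb
  have hQφP₀ : Q₀ * φ * P₀ = Matrix.diagonal d₀ := by
    rw [hφ₀]
    calc Q₀ * (P₀ * Matrix.diagonal d₀ * Q₀) * P₀ = (Q₀ * P₀) * Matrix.diagonal d₀ * (Q₀ * P₀) := by noncomm_ring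
      _ = Matrix.diagonal d₀ := by rw [hQP₀, one_mul, mul_one]
  have hd₀ : ∀ i, d₀ i ≠ 0 := by
    have hprod : Matrix.diagonal d₀ * (Q₀ * φ' * P₀) = 1 := by
      rw [← hQφP₀]
      calc Q₀ * φ * P₀ * (Q₀ * φ' * P₀) = Q₀ * φ * (P₀ * Q₀) * φ' * P₀ := by noncomm_ring
        _ = Q₀ * (φ * φ') * P₀ := by rw [hPQ₀]; noncomm_ring
        _ = 1 := by rw [g.inv, mul_one, hQP₀]
    intro i h0
    have h1 := congrFun (congrFun hprod i) i
    rw [Matrix.diagonal_mul, h0, zero_mul, Matrix.one_apply_eq] at h1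
    exact one_ne_zero h1.symm
  obtain ⟨f₀, hf₀, hlog⟩ := zlie_pow hPQ₀ hQP₀ hd₀ hφ₀ (g.torus C₁ hC₁ hC₁φ)
  -- the matrix `R`
  have hebP : e b * P = P := by rw [hPQ, Matrix.mul_assoc, hQP, Matrix.mul_one]
  have hC₁P : C₁ * P = P * Matrix.diagonal (fun k => f k - c) := by
    calc C₁ * P = C₁ * (e b * P) := by rw [hebP]
      _ = (C₁ * e b) * P := by rw [Matrix.mul_assoc]
      _ = C * (e b * P) := by rw [hC₁e, Matrix.mul_assoc]
      _ = _ := by rw [hebP, hCP]
  have hR1 : ∀ i k, d₀ i * (Q₀ * P) i k = (Q₀ * P) i k * d k := by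
    intro i k
    have h1 : Matrix.diagonal d₀ * (Q₀ * P) = (Q₀ * P) * Matrix.diagonal d := by
      have h2 : Q₀ * φ = Matrix.diagonal d₀ * Q₀ := by
        rw [hφ₀]
        calc Q₀ * (P₀ * Matrix.diagonal d₀ * Q₀) = (Q₀ * P₀) * Matrix.diagonal d₀ * Q₀ := by noncomm_ring
          _ = _ := by rw [hQP₀, one_mul]
      rw [← Matrix.mul_assoc, ← h2, Matrix.mul_assoc, hφP, Matrix.mul_assoc]
    have h3 := congrFun (congrFun h1 i) k
    rwa [Matrix.diagonal_mul, Matrix.mul_diagonal] at h3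
  have hR2 : ∀ i k, f₀ i * (Q₀ * P) i k = (Q₀ * P) i k * (f k - c) := by
    intro i k
    have h1 : Matrix.diagonal f₀ * (Q₀ * P) = (Q₀ * P) * Matrix.diagonal (fun k => f k - c) := by
      have h2 : Q₀ * C₁ = Matrix.diagonal f₀ * Q₀ := by
        rw [hf₀]
        calc Q₀ * (P₀ * Matrix.diagonal f₀ * Q₀) = (Q₀ * P₀) * Matrix.diagonal f₀ * Q₀ := by noncomm_ring
          _ = _ := by rw [hQP₀, one_mul]
      rw [← Matrix.mul_assoc, ← h2, Matrix.mul_assoc, hC₁P, Matrix.mul_assoc]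
    have h3 := congrFun (congrFun h1 i) k
    rwa [Matrix.diagonal_mul, Matrix.mul_diagonal] at h3
  have hR3 : ∀ k, ∃ i, (Q₀ * P) i k ≠ 0 := by
    intro k
    by_contra hcon
    push Not at hcon
    have h1 : (Q * P₀) * (Q₀ * P) = 1 := by
      calc (Q * P₀) * (Q₀ * P) = Q * (P₀ * Q₀) * P := by
            rw [Matrix.mul_assoc, Matrix.mul_assoc, Matrix.mul_assoc]
        _ = 1 := by rw [hPQ₀, Matrix.mul_one, hQP]
    have h2 := congrFun (congrFun h1 k) k
    rw [Matrix.mul_apply, Matrix.one_apply_eq, Finset.sum_eq_zero] at h2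
    · exact one_ne_zero h2.symm
    · intro i _
      rw [hcon i, mul_zero]
  choose i hi using hR3
  have hdi : ∀ k, d₀ (i k) = d k := by
    intro k
    have h1 := hR1 (i k) k
    rw [mul_comm] at h1
    exact mul_left_cancel₀ (hi k) h1
  have hfi : ∀ k, f₀ (i k) = f k - c := by
    intro k
    have h1 := hR2 (i k) k
    rw [mul_comm] at h1
    exact mul_left_cancel₀ (hi k) h1
  intro m hm
  have h1 : ∏ j, d₀ j ^ (∑ k ∈ Finset.univ.filter (fun k => i k = j), m k) = 1 := by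
    rw [← hm, ← Finset.prod_fiberwise Finset.univ i (fun k => d k ^ m k)]
    refine Finset.prod_congr rfl fun j _ => ?_
    have h2 : ∀ s : Finset (Fin n), d₀ j ^ (∑ k ∈ s, m k) = ∏ k ∈ s, d₀ j ^ m k := by
      intro s
      refine Finset.induction_on s ?_ ?_
      · rw [Finset.sum_empty, Finset.prod_empty, zpow_zero]
      · intro a s ha ih
        rw [Finset.sum_insert ha, Finset.prod_insert ha, zpow_add₀ (hd₀ j), ih]
    rw [h2]
    refine Finset.prod_congr rfl fun k hk => ?_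
    rw [← hdi k, (Finset.mem_filter.1 hk).2]
  have h2 := hlog _ h1
  rw [← h2, ← Finset.sum_fiberwise Finset.univ i (fun k => (m k : K) * (f k - c))]
  refine Finset.sum_congr rfl fun j _ => ?_
  rw [Int.cast_sum, Finset.sum_mul]
  refine Finset.sum_congr rfl fun k hk => ?_
  rw [← hfi k, (Finset.mem_filter.1 hk).2]

end Pool.Agent.H76P
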