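import Pool.Agent.Lib.H76P.G4
import Pool.Agent.Lib.H76P.T1
import Pool.Agent.Lib.H76P.G7

/-!
# G8: the Newton condition
-/

set_option autoImplicit false
set_option linter.unusedSectionVars false
namespace Pool.Agent.H76P
open Module Matrix Pool.Agent.H53Toric
open Pool.Agent.H76RM (van zlie_commute)
open Pool.Agent.H76U (preL cmp Split4)
open Pool.Agent.H76V (SH)
open Pool.Agent.H76T (Lc mem_Lc)
open Pool.Agent.H76U (tw)

variable {ι : Type*} [Fintype ι] [DecidableEq ι] {K : Type*} [Field K]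
  [CharZero K] [IsAlgClosed K] {B : Type*} [Fintype B] [DecidableEq B]
  {J : Matrix ι ι K} {DD : Submodule K (Matrix ι ι K)}
  {bar : B → B} {e : B → Matrix ι ι K} (h : Split4 J DD bar e) {b : B} (hb : bar b = b)
  (hJ : Jᵀ = -J) (hdet : IsUnit J.det)
  {n : ℕ} {P : Matrix ι (Fin n) K} {Q : Matrix (Fin n) ι K}
  (hPQ : e b = P * Q) (hQP : Q * P = 1)
  {S : Set (Matrix ι ι K)} {𝓗 : Set (Matrix ι ι K)} {φ φ' : Matrix ι ι K}
  (g : PH S J DD 𝓗 φ φ') {d : Fin n → K} (E : EC φ P d)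

include h hb hJ hdet hPQ hQP g E in
/-- PROOF. Let `x ∈ 𝓗` be as in `hN` (the `h` there) and `ε` as in `eps_mem`, `phi (cmp P Q (2 x - 1)) = dq ε`.  Let `I` be an ideal of
`L = Lc J S P Q` with `dq ε ∈ I`, and let `I' = {A | A * e b = A ∧ e b * A = A ∧ phi (cmp P Q A) ∈ I}`, a subspace.  It is stable under brackets with
`C ∈ zlie S`: `C` commutes with `e b` (`zlie_commute`, `g.sh.SD`, `h.mem`), `cmp` is multiplicative, and by `lc_of_zlie`
`phi (cmp (C - c • 1)) ∈ L`, so `[phi (cmp C), phi (cmp A)] = [phi (cmp (C - c • 1)), phi (cmp A)] ∈ I`.  `(2 x - 1) * e b ∈ I'` because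
`cmp (A * e b) = cmp A`.  So `(ν - c • 1) * e b ∈ I'` for some `c : K`, and `phi (cmp (ν - c • 1)) = dg (v ∘ d - c) ∈ I` (`hν`, `hQP`, `phi_diag`).  As
`I ≤ L` the trace is `0` (`Cmp.tr`, `cmp_unit`, `dg_trace`), so `c` is the mean value of `v ∘ d` (`n > 0`). -/
theorem vid_mem (hn : 0 < n) {v : K → ℚ} {ν : Matrix ι ι K}
    (hν : ν * P = P * Matrix.diagonal (fun k => (v (d k) : K))) (hN : NewtonC S 𝓗 φ ν (e b)) :
    ∃ ε ∈ Hs (Lc J S P Q), ∀ I, H76T.IsIdeal (Lc J S P Q) I → dq ε ∈ I →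
      dq (fun k => v (d k) - (∑ i, v (d i)) / n) ∈ I := by
  obtain ⟨x, hx, hxφ, hN⟩ := hN
  obtain ⟨ε, hε, hphi⟩ := eps_mem h hb hdet hPQ hQP g E hx hxφ
  refine ⟨ε, hε, ?_⟩
  intro I hI hεI
  have hcomm : ∀ C ∈ zlie S, C * e b = e b * C := fun C hC =>
    zlie_commute g.sh.one (fun s hs => g.sh.SD s hs _ (h.mem b)) hC
  have hidem := h.idem b
  have heP : e b * P = P := by rw [hPQ, Matrix.mul_assoc, hQP, Matrix.mul_one]
  let I' : Submodule K (Matrix ι ι K) :=
    { carrier := {A | A * e b = A ∧ e b * A = A ∧ phi (cmp P Q A) ∈ I}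
      add_mem' := by
        rintro A A' ⟨h1, h2, h3⟩ ⟨h4, h5, h6⟩
        refine ⟨by rw [Matrix.add_mul, h1, h4], by rw [Matrix.mul_add, h2, h5], ?_⟩
        rw [map_add, map_add]
        exact I.add_mem h3 h6
      zero_mem' := by
        refine ⟨Matrix.zero_mul _, Matrix.mul_zero _, ?_⟩
        rw [map_zero, map_zero]
        exact I.zero_mem
      smul_mem' := by
        rintro c A ⟨h1, h2, h3⟩
        refine ⟨by rw [Matrix.smul_mul, h1], by rw [Matrix.mul_smul, h2], ?_⟩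
        rw [map_smul, map_smul]
        exact I.smul_mem _ h3 }
  have hmem : ∀ A, A ∈ I' ↔ A * e b = A ∧ e b * A = A ∧ phi (cmp P Q A) ∈ I := fun A => Iff.rfl
  have hstab : ∀ C ∈ zlie S, ∀ A ∈ I', C * A - A * C ∈ I' := by
    intro C hC A hA
    obtain ⟨h1, h2, h3⟩ := (hmem A).1 hA
    have hCe := hcomm C hC
    rw [hmem]
    refine ⟨?_, ?_, ?_⟩
    · rw [Matrix.sub_mul, Matrix.mul_assoc, h1, Matrix.mul_assoc, hCe, ← Matrix.mul_assoc, h1]
    · rw [Matrix.mul_sub, ← Matrix.mul_assoc, ← Matrix.mul_assoc, h2, ← hCe, Matrix.mul_assoc, h2]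
    · obtain ⟨c, hc⟩ := lc_of_zlie h hb hdet hPQ hQP g hC
      have hC' : (C - c • 1) * e b = e b * (C - c • 1) := by
        rw [Matrix.sub_mul, Matrix.mul_sub, hCe, Matrix.smul_mul, Matrix.mul_smul, Matrix.one_mul,
          Matrix.mul_one]
      have hA' : A * e b = e b * A := by rw [h1, h2]
      have e1 : C * A - A * C = (C - c • 1) * A - A * (C - c • 1) := by
        rw [Matrix.sub_mul, Matrix.mul_sub, Matrix.smul_mul, Matrix.mul_smul, Matrix.one_mul,
          Matrix.mul_one]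
        abel
      rw [e1, map_sub, H76U.cmp_mul hPQ hQP hA', H76U.cmp_mul hPQ hQP hC', map_sub, map_mul, map_mul]
      exact hI.2 _ hc _ h3
  have hbase : ((2 : K) • x - 1) * e b ∈ I' := by
    have hxe := hcomm x (g.sh.hz x hx)
    have hye : ((2 : K) • x - 1) * e b = e b * ((2 : K) • x - 1) := by
      rw [Matrix.sub_mul, Matrix.mul_sub, Matrix.smul_mul, Matrix.mul_smul, Matrix.one_mul,
        Matrix.mul_one, hxe]
    rw [hmem]
    refine ⟨by rw [Matrix.mul_assoc, hidem], by rw [← Matrix.mul_assoc, ← hye, Matrix.mul_assoc, hidem], ?_⟩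
    have e2 : cmp P Q (((2 : K) • x - 1) * e b) = cmp P Q ((2 : K) • x - 1) := by
      rw [H76U.cmp_apply, H76U.cmp_apply]
      rw [← Matrix.mul_assoc Q, Matrix.mul_assoc _ (e b) P, heP]
    rw [e2, hphi]
    exact hεI
  obtain ⟨c, hc⟩ := hN I' hstab hbase
  have hc2 := ((hmem _).1 hc).2.2
  have e3 : cmp P Q ((ν - c • 1) * e b) = Matrix.diagonal (fun k => (v (d k) : K) - c) := by
    rw [H76U.cmp_apply, ← Matrix.mul_assoc Q, Matrix.mul_assoc _ (e b) P, heP, Matrix.mul_sub,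
      Matrix.sub_mul, Matrix.mul_assoc, hν, ← Matrix.mul_assoc, hQP, Matrix.one_mul, Matrix.mul_smul,
      Matrix.mul_one, Matrix.smul_mul, hQP]
    ext i j
    by_cases hij : i = j
    · subst hij
      simp
    · simp [Matrix.diagonal_apply_ne _ hij, Matrix.one_apply_ne hij]
  rw [e3, phi_diag] at hc2
  have htr := (cmp_unit h hb hJ hdet hPQ hQP g hn).tr _ (hI.1 hc2)
  rw [dg_trace, Finset.sum_sub_distrib, Finset.sum_const, Finset.card_univ, Fintype.card_fin,
    nsmul_eq_mul] at htr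
  have hn0 : (n : K) ≠ 0 := by exact_mod_cast hn.ne'
  have hcv : c = (∑ i, (v (d i) : K)) / n := by
    rw [eq_div_iff hn0]
    linear_combination -htr
  have e4 : (dq (fun k => v (d k) - (∑ i, v (d i)) / n) : Module.End K (Fin n → K)) =
      dg (fun k => (v (d k) : K) - c) := by
    unfold dq
    congr 1
    funext k
    rw [hcv]
    push_cast
    ring
  rw [e4]
  exact hc2

end Pool.Agent.H76P
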