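import Pool.Agent.Lib.H76P.G7
import Pool.Agent.Lib.H76P.G8
import Pool.Agent.Lib.H76P.T12

/-!
# G9: the component is full
-/

set_option autoImplicit false
set_option linter.unusedSectionVars false
namespace Pool.Agent.H76P
open Module Matrix Pool.Agent.H53Toric
open Pool.Agent.H76RM (van zlie_commute)
open Pool.Agent.H76U (preL cmp Split4)
open Pool.Agent.H76V (SH)
open Pool.Agent.H76T (Lc mem_Lc)
open Pool.Agent.H76U
open Pool.Agent.H76F

variable {ι : Type*} [Fintype ι] [DecidableEq ι] {K : Type*} [Field K]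
  [CharZero K] [IsAlgClosed K] {B : Type*} [Fintype B] [DecidableEq B]
  {J : Matrix ι ι K} {DD : Submodule K (Matrix ι ι K)}
  {bar : B → B} {e : B → Matrix ι ι K} (h : Split4 J DD bar e) {b : B} (hb : bar b = b)
  (hJ : Jᵀ = -J) (hdet : IsUnit J.det)
  {n : ℕ} {P : Matrix ι (Fin n) K} {Q : Matrix (Fin n) ι K}
  (hPQ : e b = P * Q) (hQP : Q * P = 1)
  {S : Set (Matrix ι ι K)} {𝓗 : Set (Matrix ι ι K)} {φ φ' : Matrix ι ι K}
  (g : PH S J DD 𝓗 φ φ') {d : Fin n → K} (E : EC φ P d)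

include h hb hJ hdet hPQ hQP g E in
/-- PROOF. `cmp_unit`, `diag_mem`, `vid_mem`, `gal_mem` (the constant cancels in `ν (σ a) ≠ ν (σ b)`). -/
theorem mk_tc (hn : 0 < n) {v : K → ℚ} (hgal : GalC v d) {ν : Matrix ι ι K}
    (hν : ν * P = P * Matrix.diagonal (fun k => (v (d k) : K))) (hN : NewtonC S 𝓗 φ ν (e b)) :
    TC (Lc J S P Q) (Pᵀ * J * P) (fun k => v (d k) - (∑ i, v (d i)) / n) := by
  refine ⟨cmp_unit h hb hJ hdet hPQ hQP g hn, fun f hf => diag_mem h hb hJ hdet hPQ hQP g E hn hf,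
    vid_mem h hb hJ hdet hPQ hQP g E hn hν hN, ?_⟩
  intro a c hac
  obtain ⟨s, σ, hσ, hv⟩ := hgal a c hac
  refine ⟨σ, fun f hf => gal_mem h hb hJ hdet hPQ hQP g E hn hσ hf, ?_⟩
  intro hvv
  apply hv
  exact sub_left_injective hvv

include h hb hJ hdet hPQ hQP g E in
/-- PROOF. `mk_tc`, `TC.full`. -/
theorem comp_full (hn : 0 < n) {v : K → ℚ} (hgal : GalC v d) {ν : Matrix ι ι K}
    (hν : ν * P = P * Matrix.diagonal (fun k => (v (d k) : K))) (hN : NewtonC S 𝓗 φ ν (e b))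
    (hp : ∀ a k : ℕ, 2 ≤ k → n ≠ a ^ k) (hc : ∀ k : ℕ, 3 ≤ k → Odd k → n ≠ k.centralBinom)
    {X : Module.End K (Fin n → K)} (hX : adjE (Pᵀ * J * P) X = -X) : X ∈ Lc J S P Q := by
  have hne : Nonempty (Fin n) := ⟨⟨0, hn⟩⟩
  refine (mk_tc h hb hJ hdet hPQ hQP g E hn hgal hν hN).full ?_ ?_ hX
  · rw [Fintype.card_fin]
    exact hp
  · rw [Fintype.card_fin]
    exact hc

include h hb hJ hdet hPQ hQP g in
/-- PROOF. Copy the proof of `H76V.fu_tor` (H76V/VB2.lean); there `hfull` comes from `H76V.comp_full`, here it is an assumption. -/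
theorem fu_of_full (hn : 0 < n)
    (hfull : ∀ {X : Module.End K (Fin n → K)}, adjE (Pᵀ * J * P) X = -X → X ∈ Lc J S P Q)
    {u : ι → K} (hu : e b *ᵥ u = u) :
    ∃ A ∈ zlie S, Aᵀ * J + J * A = 0 ∧ phi A * phi (e b) = tw (om J) u u := by
  have hpJ : (e b)ᵀ * J = J * e b := by
    have := h.adj b
    rwa [hb] at this
  have hdb := det_cmp hPQ hQP hpJ hdet
  have hJb : (Pᵀ * J * P)ᵀ = -(Pᵀ * J * P) := by
    rw [Matrix.transpose_mul, Matrix.transpose_mul, Matrix.transpose_transpose, hJ,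
      Matrix.neg_mul, Matrix.mul_neg, Matrix.mul_assoc]
  have : Nonempty (Fin n) := ⟨⟨0, hn⟩⟩
  have hcomp := cmp_unit h hb hJ hdet hPQ hQP g hn
  set d := Q *ᵥ u with hd
  have hPd : P *ᵥ d = u := by rw [hd, Matrix.mulVec_mulVec, ← hPQ, hu]
  set X := Matrix.vecMulVec d ((Pᵀ * J * P) *ᵥ d) with hX
  have hXphi : phi X = trv (om (Pᵀ * J * P)) d := phi_trv _ _
  have hX2 : X * X = 0 := by
    apply (phi (ι := Fin n) (K := K)).injective
    rw [map_mul, hXphi, map_zero, trv_sq (om_alt hJb)]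
  have hXg := hfull ((skew_iff hdb X).2 (trv_skew hJb d))
  obtain ⟨M, hM, hXMX⟩ := exists_partner hcomp.lie hcomp.irr hcomp.tr hXg
    (by rw [← map_mul, hX2, map_zero])
  obtain ⟨m, rfl⟩ := (phi (ι := Fin n) (K := K)).surjective M
  obtain ⟨A, hA, hAX⟩ := mem_Lb.1 hXg.1
  obtain ⟨C, hC, hCm⟩ := mem_Lb.1 hM.1
  have e1 : X * m * X = X := by
    apply (phi (ι := Fin n) (K := K)).injective
    rw [map_mul, map_mul, hXMX]
  have hAe := H76V.preL_ec (b := b) h g.sh hA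
  have hCe := H76V.preL_ec (b := b) h g.sh hC
  obtain ⟨h1, h2⟩ := preL_bracket hA hC
  have hE : A * C - C * A ∈ preL J S :=
    ⟨⟨0, _, h1, by rw [zero_smul, add_zero]⟩, 0, by rw [h2, zero_smul]⟩
  have hEe := H76V.preL_ec (b := b) h g.sh hE
  obtain ⟨h3, h4⟩ := preL_bracket hE hA
  have e2 : cmp P Q ((A * C - C * A) * A - A * (A * C - C * A)) = (2 : K) • X := by
    rw [map_sub, cmp_mul hPQ hQP hAe, cmp_mul hPQ hQP hEe, map_sub, cmp_mul hPQ hQP hCe,
      cmp_mul hPQ hQP hAe, hAX, hCm]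
    have : (X * m - m * X) * X - X * (X * m - m * X) =
        (2 : K) • (X * m * X) - m * (X * X) - (X * X) * m := by
      rw [two_smul]; noncomm_ring
    rw [this, e1, hX2]; simp
  set E := (A * C - C * A) * A - A * (A * C - C * A) with hEdef
  have hEL : E ∈ preL J S :=
    ⟨⟨0, _, h3, by rw [zero_smul, add_zero]⟩, 0, by rw [h4, zero_smul]⟩
  have hEe' := H76V.preL_ec (b := b) h g.sh hEL
  refine ⟨(1 / 2 : K) • E, (zlie S).smul_mem _ h3, ?_, ?_⟩
  · rw [Matrix.transpose_smul, smul_mul_assoc, mul_smul_comm, ← smul_add, h4, smul_zero]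
  · rw [← map_mul]
    apply LinearMap.ext
    intro v
    rw [phi_apply, tw_apply, smul_mul_assoc, Matrix.smul_mulVec]
    have h5 : E * e b = P * cmp P Q E * Q := by
      rw [P_cmp hPQ hQP hEe', Matrix.mul_assoc, ← hPQ]
    rw [h5, e2, Matrix.mul_smul, Matrix.smul_mul, Matrix.smul_mulVec, smul_smul]
    norm_num
    rw [← Matrix.mulVec_mulVec, ← Matrix.mulVec_mulVec, ← phi_apply X, hXphi, trv_apply,
      Matrix.mulVec_smul, hPd, om_cmp hPQ hQP hpJ, hPd, Matrix.mulVec_mulVec _ P Q, ← hPQ,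
      h.self, hb, hu]


end Pool.Agent.H76P
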