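import Pool.Agent.Lib.H76P.C0
import Pool.Agent.Lib.H76V.VA5

/-!
# The component theorem: definitions

`L` is an irreducible Lie algebra of operators of `K ^ κ` (`Cmp L J`, H76V).  `dg f` is the
diagonal operator of `f : κ → K`, `dq f` the diagonal operator of a rational function.  `Hs L` is
the set of the `±1`-valued functions `ε` with `dq ε ∈ L`, `Yo L` is its rational span, and
`pt L a` is the evaluation at `a`, a functional on `Yo L`.
-/

set_option autoImplicit false
set_option linter.unusedSectionVars false
namespace Pool.Agent.H76P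
open Module Matrix Pool.Agent.H53Toric
open Pool.Agent.H76T (IsIdeal Fam)
open Pool.Agent.H76V (Cmp)

variable {κ : Type*} {K : Type*} [Field K]

/-- The diagonal operator with the entries `f`. -/
def dg (f : κ → K) : Module.End K (κ → K) where
  toFun v := fun a => f a * v a
  map_add' := by
    intro v w
    ext a
    simp [mul_add]
  map_smul' := by
    intro c v
    ext a
    simp only [Pi.smul_apply, smul_eq_mul, RingHom.id_apply]
    ring

theorem dg_apply (f v : κ → K) (a : κ) : dg f v a = f a * v a := rfl

theorem dg_mul (f g : κ → K) : dg f * dg g = dg (f * g) := by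
  refine LinearMap.ext fun v => funext fun a => ?_
  simp only [Module.End.mul_apply, dg_apply, Pi.mul_apply]
  ring

theorem dg_add (f g : κ → K) : dg (f + g) = dg f + dg g := by
  refine LinearMap.ext fun v => funext fun a => ?_
  simp only [dg_apply, Pi.add_apply, LinearMap.add_apply]
  ring

theorem dg_smul (c : K) (f : κ → K) : dg (c • f) = c • dg f := by
  refine LinearMap.ext fun v => funext fun a => ?_
  simp only [dg_apply, Pi.smul_apply, LinearMap.smul_apply, smul_eq_mul]
  ring

theorem dg_one : dg (1 : κ → K) = 1 := by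
  refine LinearMap.ext fun v => funext fun a => ?_
  simp [dg_apply]

theorem dg_inj [DecidableEq κ] {f g : κ → K} (h : dg f = dg g) : f = g := by
  ext a
  have := congrFun (congrArg (fun T : Module.End K (κ → K) => T (Pi.single a 1)) h) a
  simpa [dg_apply] using this

/-- The diagonal operator with rational entries. -/
def dq (f : κ → ℚ) : Module.End K (κ → K) := dg fun a => (f a : K)

variable [Fintype κ] [DecidableEq κ]

/-- The functions with the values `1` and `-1` whose operator is in `L`. -/
def Hs (L : Submodule K (Module.End K (κ → K))) : Set (κ → ℚ) :=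
  {ε | (∀ a, ε a = 1 ∨ ε a = -1) ∧ dq ε ∈ L}

/-- Their span. -/
def Yo (L : Submodule K (Module.End K (κ → K))) : Submodule ℚ (κ → ℚ) :=
  Submodule.span ℚ (Hs L)

/-- The evaluations. -/
def pt (L : Submodule K (Module.End K (κ → K))) (a : κ) : Module.Dual ℚ (Yo L) :=
  (LinearMap.proj (R := ℚ) (φ := fun _ : κ => ℚ) a) ∘ₗ (Yo L).subtype

theorem pt_apply (L : Submodule K (Module.End K (κ → K))) (a : κ) (f : Yo L) :
    pt L a f = (f : κ → ℚ) a := rfl

/-- The assumptions of the component theorem. -/
structure TC (L : Submodule K (Module.End K (κ → K))) (J : Matrix κ κ K) (ν : κ → ℚ) : Prop where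
  cmp : Cmp L J
  diag : ∀ f : κ → ℚ, dq f ∈ L → f ∈ Yo L
  vid : ∃ ε ∈ Hs L, ∀ I, IsIdeal L I → dq ε ∈ I → dq ν ∈ I
  gal : ∀ a b, a ≠ b → ∃ σ : Equiv.Perm κ, (∀ f ∈ Yo L, f ∘ σ ∈ Yo L) ∧ ν (σ a) ≠ ν (σ b)

end Pool.Agent.H76P
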